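import Pool.Agent.Work.MP_26c40d_69.Statement

/-!
# MP_26c40d_al, self-dual odd summands: block statement for dimension three (helper69)
-/

set_option autoImplicit false

namespace Pool.Ben69

open Module Pool.Benson

/-- A line in `W` splits off under the group generated by `z`, the complement `ker l` is even, and
either the line or the functional `l` is fixed by the whole group. -/
def HasFixedLine {k G W : Type} [Field k] [Group G] [AddCommGroup W] [Module k W]
    (σ : Representation k G W) : Prop :=
  ∃ (z : G) (p : W) (l : W →ₗ[k] k), l p = 1 ∧ σ z p = p ∧ (∀ w, l (σ z w) = l w) ∧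
    EvenPart (cyclicRestr σ z) (LinearMap.ker l) ∧
    ((∀ g, σ g p = p) ∨ (∀ g w, l (σ g w) = l w))

/-- THR. A three-dimensional indecomposable representation of a finite 2-group: either some `g` is
one Jordan block (`OneOddBlock` with `W₀ = ⊤`, `W' = ⊥`), or `HasFixedLine`.
Proof: `z` central with `z ^ 2 = 1`, `z ≠ 1` on `W` (`Pool.BenStar.stmt_CENT`), `N = σ z - 1` has
rank one; `L = im N = k ℓ`, `P = ker N`, both invariant; `G` is trivial on `L`, `P / L`, `W / P`
(`Pool.SqSplit.trivial_of_finrank_one`). Basis `ℓ`, `p`, `w` with `N w = ℓ`: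
`g p = p + b(g) ℓ`, `g w = w + a(g) p + c(g) ℓ`, `a`, `b` homomorphisms to `(k, +)`. If
`a(g) b(g) ≠ 0` for some `g`: one block, generated by `w`. Otherwise `a = 0` or `b = 0` (a group
is not the union of two proper subgroups). `b = 0`: `p` is fixed by `G`; `a = 0`: the coordinate
functional `l` of `p` is `G`-invariant. In both cases `ker l = ⟨w, ℓ⟩`, on which `z` is one block
of size two (hence `EvenPart`). -/
def Stmt_THR : Prop :=
  ∀ (k G W : Type) [Field k] [CharP k 2] [Group G] [Finite G] [AddCommGroup W] [Module k W]
    [FiniteDimensional k W] (σ : Representation k G W), IsPGroup 2 G → IsIndec σ →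
    finrank k W = 3 → (∃ g, OneOddBlock σ g) ∨ HasFixedLine σ

end Pool.Ben69
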