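import Pool.Agent.Work.MP_26c40d_69.FIN3
import Pool.Agent.Work.MP_26c40d_69.Base3

/-!
# MP_26c40d_al, odd summands: fixed lines (helper69)
-/

set_option autoImplicit false

namespace Pool.Ben69

open Module Pool.Benson Pool.BenStar TensorProduct

section
variable {k G V W : Type} [Field k] [Group G] [AddCommGroup V] [Module k V]
  [AddCommGroup W] [Module k W]

/-- The two equivariant maps given by a direct summand of odd dimension. -/
theorem setup [IsAlgClosed k] [CharP k 2] [FiniteDimensional k V] [FiniteDimensional k W]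
    (ρ : Representation k G V) (hV : IsIndec ρ) (hVo : Odd (finrank k V))
    (σ : Representation k G W) (hWo : Odd (finrank k W))
    (hsum : IsSummand σ (ρ.tprod ρ.dual)) :
    ∃ (i : W →ₗ[k] Module.End k V) (j : (W →ₗ[k] k) →ₗ[k] Module.End k V), EqW ρ σ i ∧
      EqD ρ σ j ∧ ∑ c, i (Module.finBasis k W c) * j ((Module.finBasis k W).coord c) = 1 := by
  classical
  obtain ⟨A, B, hA, hBi, hAB, hcopy⟩ := hsum
  -- the maps `f` and `q`
  obtain ⟨e, he⟩ := hcopy
  let f : W →ₗ[k] V ⊗[k] Dual k V := A.subtype ∘ₗ (e : W →ₗ[k] A)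
  have hf : ∀ g w, f (σ g w) = (ρ.tprod ρ.dual) g (f w) := fun g w => he g w
  let q : V ⊗[k] Dual k V →ₗ[k] W := (e.symm : A →ₗ[k] W) ∘ₗ A.projectionOnto B hAB
  have qA : ∀ w, q (f w) = w := by
    intro w
    have h2 := Submodule.projectionOnto_apply_left hAB (e w)
    change e.symm (A.projectionOnto B hAB ((e w : A) : V ⊗[k] Dual k V)) = w
    rw [h2, LinearEquiv.symm_apply_apply]
  have qB : ∀ x ∈ B, q x = 0 := by
    intro x hx
    have h2 := (Submodule.projectionOnto_apply_eq_zero_iff hAB (x := x)).2 hx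
    change e.symm (A.projectionOnto B hAB x) = 0
    rw [h2, map_zero]
  have hq : ∀ g x, q ((ρ.tprod ρ.dual) g x) = σ g (q x) := by
    intro g x
    have : x ∈ A ⊔ B := by rw [hAB.sup_eq_top]; trivial
    obtain ⟨a, ha, c, hc', rfl⟩ := Submodule.mem_sup.1 this
    obtain ⟨w, hw⟩ := e.surjective ⟨a, ha⟩
    have hw' : f w = a := congrArg Subtype.val hw
    rw [map_add, map_add, map_add, map_add, qB c hc', qB _ (hBi g c hc'), ← hw', ← hf, qA, qA,
      map_zero, add_zero]
  -- the adjoint of `q`
  have hbinj : Function.Injective (tf k V) := by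
    rw [← LinearMap.ker_eq_bot, LinearMap.ker_eq_bot']
    intro x hx
    exact tf_nd x fun y => by rw [hx]; rfl
  have hbs : Function.Surjective (tf k V) := by
    refine (LinearMap.injective_iff_surjective_of_finrank_eq_finrank ?_).mp hbinj
    rw [Subspace.dual_finrank_eq]
  let bE : V ⊗[k] Dual k V ≃ₗ[k] Dual k (V ⊗[k] Dual k V) :=
    LinearEquiv.ofBijective (tf k V) ⟨hbinj, hbs⟩
  let j0 : (W →ₗ[k] k) →ₗ[k] V ⊗[k] Dual k V :=
    (bE.symm : Dual k (V ⊗[k] Dual k V) →ₗ[k] V ⊗[k] Dual k V) ∘ₗ q.dualMap
  have hj0 : ∀ p m, tf k V (j0 p) m = p (q m) := by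
    intro p m
    have h2 : tf k V (j0 p) = q.dualMap p := bE.apply_symm_apply _
    rw [h2]
    rfl
  have hj0e : ∀ g p, (ρ.tprod ρ.dual) g (j0 (p ∘ₗ σ g)) = j0 p := by
    intro g p
    apply hbinj
    refine LinearMap.ext fun m => ?_
    have h2 : tf k V ((ρ.tprod ρ.dual) g (j0 (p ∘ₗ σ g))) m =
        tf k V (j0 (p ∘ₗ σ g)) ((ρ.tprod ρ.dual) g⁻¹ m) := by
      rw [← tf_inv ρ g (j0 (p ∘ₗ σ g)) ((ρ.tprod ρ.dual) g⁻¹ m), inv_apply]
    rw [h2, hj0, hj0, hq, LinearMap.comp_apply, inv_apply]
  let i : W →ₗ[k] Module.End k V := cc k V ∘ₗ f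
  have hi : EqW ρ σ i := by
    intro g w
    change cc k V (f (σ g w)) * ρ g = ρ g * cc k V (f w)
    rw [hf, cc_act]
  let j' : (W →ₗ[k] k) →ₗ[k] Module.End k V := cc k V ∘ₗ j0
  have hj' : EqD ρ σ j' := by
    intro g p
    change ρ g * cc k V (j0 (p ∘ₗ σ g)) = cc k V (j0 p) * ρ g
    rw [← cc_act, hj0e]
  have htr : ∀ p w, LinearMap.trace k V (i w * j' p) = p w := by
    intro p w
    change LinearMap.trace k V (cc k V (f w) * cc k V (j0 p)) = p w
    rw [← tf_apply, tf_symm, hj0, qA]
  -- normalisation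
  let b := Module.finBasis k W
  let κ : Module.End k V := ∑ c, i (b c) * j' (b.coord c)
  have hκc : ∀ g, κ * ρ g = ρ g * κ := con_com b hi hj'
  have hκt : LinearMap.trace k V κ = 1 := by
    have h2 : LinearMap.trace k V κ = ∑ c, (b.coord c) ((1 : Module.End k W) (b c)) := by
      change LinearMap.trace k V (∑ c, i (b c) * j' (b.coord c)) = _
      rw [map_sum]
      exact Finset.sum_congr rfl fun c _ => htr _ _
    rw [h2, ← trace_sum b, LinearMap.trace_one, cast_odd hWo]
  have hκi : Function.Injective κ := by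
    by_contra hn
    have h2 := ((stmt_TRM k G V ρ hV hVo).1 κ hκc).2 hn
    rw [hκt] at h2
    exact one_ne_zero h2
  let κE : V ≃ₗ[k] V := LinearEquiv.ofBijective κ ⟨hκi, LinearMap.surjective_of_injective hκi⟩
  let κ' : Module.End k V := (κE.symm : V →ₗ[k] V)
  have hκκ : κ * κ' = 1 := by
    ext v
    exact κE.apply_symm_apply v
  have hκ'κ : κ' * κ = 1 := by
    ext v
    exact κE.symm_apply_apply v
  have hκ'c : ∀ g, κ' * ρ g = ρ g * κ' := by
    intro g
    have h2 : κ' * ρ g = κ' * (ρ g * κ) * κ' := by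
      rw [mul_assoc, mul_assoc, hκκ, mul_one]
    rw [h2, ← hκc, ← mul_assoc, hκ'κ, one_mul]
  let j : (W →ₗ[k] k) →ₗ[k] Module.End k V := LinearMap.mulRight k κ' ∘ₗ j'
  have hj : EqD ρ σ j := by
    intro g p
    change ρ g * (j' (p ∘ₗ σ g) * κ') = j' p * κ' * ρ g
    rw [mul_assoc, hκ'c, ← mul_assoc, ← mul_assoc, hj']
  have hij : ∑ c, i (b c) * j (b.coord c) = 1 := by
    rw [← hκκ]
    change ∑ c, i (b c) * (j' (b.coord c) * κ') = (∑ c, i (b c) * j' (b.coord c)) * κ'
    rw [Finset.sum_mul]
    exact Finset.sum_congr rfl fun c _ => by rw [mul_assoc]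
  exact ⟨i, j, hi, hj, hij⟩

/-- The two maps cannot exist if a line fixed by the group splits off with even complement under
a subgroup. -/
theorem line_core [IsAlgClosed k] [CharP k 2] [FiniteDimensional k V] [FiniteDimensional k W]
    (ρ : Representation k G V) (hV : IsIndec ρ) (hVo : Odd (finrank k V))
    (σ : Representation k G W)
    (hno : ¬ ∃ (x : W) (y : W →ₗ[k] k), (∀ g, σ g x = x) ∧ (∀ g v, y (σ g v) = y v) ∧ y x ≠ 0)
    (h : HasFixedLine σ) (i : W →ₗ[k] Module.End k V) (j : (W →ₗ[k] k) →ₗ[k] Module.End k V)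
    (hi : EqW ρ σ i) (hj : EqD ρ σ j)
    (hij : ∑ c, i (Module.finBasis k W c) * j ((Module.finBasis k W).coord c) = 1) : False := by
  classical
  obtain ⟨z, p, l, hlp, hzp, hzl, heven, hor⟩ := h
  let b := Module.finBasis k W
  let σH : Representation k (Subgroup.zpowers z) W := cyclicRestr σ z
  let ρH : Representation k (Subgroup.zpowers z) V := cyclicRestr ρ z
  -- the fixed line and the fixed functional of the subgroup
  have hp : ∀ h : Subgroup.zpowers z, σH h p = p := by
    let S : Subgroup G :=
      { carrier := {g | σ g p = p}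
        mul_mem' := by
          intro x y hx hy
          change σ (x * y) p = p
          rw [map_mul, Module.End.mul_apply, show σ y p = p from hy, show σ x p = p from hx]
        one_mem' := by
          change σ 1 p = p
          rw [map_one]
          rfl
        inv_mem' := by
          intro x hx
          change σ x⁻¹ p = p
          conv_lhs => rw [← show σ x p = p from hx]
          exact inv_apply' σ x p }
    intro h
    have h1 : Subgroup.zpowers z ≤ S := Subgroup.zpowers_le.2 hzp
    exact h1 h.2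
  have hl : ∀ (h : Subgroup.zpowers z) w, l (σH h w) = l w := by
    let S : Subgroup G :=
      { carrier := {g | ∀ w, l (σ g w) = l w}
        mul_mem' := by
          intro x y hx hy w
          rw [map_mul, Module.End.mul_apply, hx, hy]
        one_mem' := by
          intro w
          rw [map_one]
          rfl
        inv_mem' := by
          intro x hx w
          rw [← hx (σ x⁻¹ w), inv_apply] }
    intro h
    have h1 : Subgroup.zpowers z ≤ S := Subgroup.zpowers_le.2 hzl
    exact h1 h.2
  have hp0 : p ≠ 0 := fun h => by rw [h, map_zero] at hlp; exact zero_ne_one hlp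
  have hc : IsCompl (Submodule.span k {p}) (LinearMap.ker l) := by
    rw [isCompl_iff, disjoint_iff, codisjoint_iff]
    constructor
    · rw [Submodule.eq_bot_iff]
      intro v hv
      obtain ⟨hv1, hv2⟩ := Submodule.mem_inf.mp hv
      obtain ⟨a, rfl⟩ := Submodule.mem_span_singleton.mp hv1
      rw [LinearMap.mem_ker, map_smul, hlp, smul_eq_mul, mul_one] at hv2
      rw [hv2, zero_smul]
    · rw [eq_top_iff]
      intro v _
      have : v = (l v) • p + (v - (l v) • p) := by abel
      rw [this]
      refine Submodule.add_mem_sup (Submodule.smul_mem _ _ (Submodule.mem_span_singleton_self p)) ?_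
      rw [LinearMap.mem_ker, map_sub, map_smul, hlp, smul_eq_mul, mul_one, sub_self]
  have hW₀ : IsInv σH (Submodule.span k {p}) := by
    intro h v hv
    obtain ⟨a, rfl⟩ := Submodule.mem_span_singleton.mp hv
    rw [map_smul, hp]
    exact Submodule.smul_mem _ _ (Submodule.mem_span_singleton_self p)
  have hW' : IsInv σH (LinearMap.ker l) := by
    intro h v hv
    rw [LinearMap.mem_ker] at hv ⊢
    rw [hl, hv]
  have he : (Submodule.span k {p}).subtype ∘ₗ (Submodule.span k {p}).projectionOnto _ hc =
      (l.smulRight p : Module.End k W) := by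
    ext v
    have h1 : v = (l v) • p + (v - (l v) • p) := by abel
    have h2 : (l v) • p ∈ Submodule.span k {p} :=
      Submodule.smul_mem _ _ (Submodule.mem_span_singleton_self p)
    have h3 : v - (l v) • p ∈ LinearMap.ker l := by
      rw [LinearMap.mem_ker, map_sub, map_smul, hlp, smul_eq_mul, mul_one, sub_self]
    have h4 : (Submodule.span k {p}).projectionOnto _ hc ((l v) • p) = ⟨(l v) • p, h2⟩ :=
      Submodule.projectionOnto_apply_left hc ⟨(l v) • p, h2⟩
    have h5 : (Submodule.span k {p}).projectionOnto _ hc (v - (l v) • p) = 0 :=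
      (Submodule.projectionOnto_apply_eq_zero_iff hc).2 h3
    rw [LinearMap.comp_apply]
    conv_lhs => rw [h1]
    rw [map_add, h4, h5, add_zero]
    rfl
  have htr : ∀ D : Module.End k W, (∀ h, D * σH h = σH h * D) →
      LinearMap.trace k W D = l (D p) := by
    intro D hD
    have h2 := ev_trace σH _ _ hW₀ hW' hc heven D hD
    rw [he, mul_sub, mul_one, map_sub, sub_eq_zero] at h2
    have h3 : D * (l.smulRight p : Module.End k W) = l.smulRight (D p) := by
      ext v
      rw [Module.End.mul_apply, LinearMap.smulRight_apply, LinearMap.smulRight_apply, map_smul]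
    rw [h2, h3, LinearMap.trace_smulRight]
  have hiH : EqW ρH σH i := fun h w => hi h w
  have hjH : EqD ρH σH j := fun h q => hj h q
  have hR : ∀ R : Module.End k V, (∀ h, R * ρH h = ρH h * R) →
      LinearMap.trace k V (R * i p * j l) = LinearMap.trace k V R := by
    intro R hR
    have h2 := htr _ (DD_com b hiH hjH hR)
    rw [DD_pair, trace_sum b] at h2
    have h3 : ∀ c, (b.coord c) (DD b i j R (b c)) =
        LinearMap.trace k V (R * (i (b c) * j (b.coord c))) := by
      intro c
      rw [DD_pair, mul_assoc]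
    rw [Finset.sum_congr rfl fun c _ => h3 c, ← map_sum, ← Finset.mul_sum, hij, mul_one] at h2
    exact h2.symm
  have hac : ∀ h, i p * ρH h = ρH h * i p := by
    intro h
    have h2 := hiH h p
    rw [hp] at h2
    exact h2
  have hbc : ∀ h, j l * ρH h = ρH h * j l := by
    intro h
    have h2 := hjH h l
    have h3 : l ∘ₗ σH h = l := LinearMap.ext fun w => hl h w
    rw [h3] at h2
    exact h2.symm
  have hn : ∀ n, LinearMap.trace k V (i p ^ n * j l ^ n) = 1 := by
    intro n
    induction n with
    | zero => rw [pow_zero, pow_zero, mul_one, LinearMap.trace_one, cast_odd hVo]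
    | succ n ih =>
      have h1 : i p ^ (n + 1) * j l ^ (n + 1) = (i p ^ n * i p * j l) * j l ^ n := by
        rw [pow_succ, pow_succ']
        simp only [mul_assoc]
      have h2 : j l ^ n * (i p ^ n * i p * j l) = (j l ^ n * i p ^ n) * i p * j l := by
        simp only [mul_assoc]
      rw [h1, LinearMap.trace_mul_comm, h2, hR _ (fun h => ?_), LinearMap.trace_mul_comm, ih]
      rw [mul_assoc, com_pow (σ := ρH) hac n h, ← mul_assoc, com_pow (σ := ρH) hbc n h, mul_assoc]
  -- one of the two operators is nilpotent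
  rcases hor with hpG | hlG
  · have hcG : ∀ g, i p * ρ g = ρ g * i p := by
      intro g
      have h2 := hi g p
      rw [hpG] at h2
      exact h2
    have ht : LinearMap.trace k V (i p) = 0 := by
      by_contra hne
      refine hno ⟨p, LinearMap.trace k V ∘ₗ i, hpG, fun g v => ?_, hne⟩
      change LinearMap.trace k V (i (σ g v)) = LinearMap.trace k V (i v)
      rw [hi.eq, mul_assoc, LinearMap.trace_mul_comm, mul_assoc, r'r, mul_one]
    obtain ⟨n, hn0⟩ := nil_of_not_inj ρ hV (i p) hcG
      (((stmt_TRM k G V ρ hV hVo).1 _ hcG).1 ht)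
    have h1 := hn n
    rw [hn0, zero_mul, map_zero] at h1
    exact zero_ne_one h1
  · have hcG : ∀ g, j l * ρ g = ρ g * j l := by
      intro g
      have h2 := hj g l
      have h3 : l ∘ₗ σ g = l := LinearMap.ext fun w => hlG g w
      rw [h3] at h2
      exact h2.symm
    let x : W := ∑ c, LinearMap.trace k V (j (b.coord c)) • b c
    have hx : ∀ q : W →ₗ[k] k, q x = LinearMap.trace k V (j q) := by
      intro q
      change q (∑ c, LinearMap.trace k V (j (b.coord c)) • b c) = _
      rw [map_sum]
      conv_rhs => rw [← sum_dual' b q, map_sum, map_sum]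
      refine Finset.sum_congr rfl fun c _ => ?_
      rw [map_smul, map_smul, map_smul, smul_eq_mul, smul_eq_mul, mul_comm]
    have hxG : ∀ g, σ g x = x := by
      intro g
      refine ext_dual (k := k) ?_
      intro q
      have h2 : q (σ g x) = (q ∘ₗ σ g) x := rfl
      rw [h2, hx, hx, hj.eq, mul_assoc, LinearMap.trace_mul_comm, mul_assoc, rr', mul_one]
    have ht : LinearMap.trace k V (j l) = 0 := by
      by_contra hne
      exact hno ⟨x, l, hxG, hlG, by rw [hx]; exact hne⟩
    obtain ⟨n, hn0⟩ := nil_of_not_inj ρ hV (j l) hcG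
      (((stmt_TRM k G V ρ hV hVo).1 _ hcG).1 ht)
    have h1 := hn n
    rw [hn0, mul_zero, map_zero] at h1
    exact zero_ne_one h1

/-- No three-dimensional summands. -/
theorem part_four [IsAlgClosed k] [CharP k 2] [Finite G] [FiniteDimensional k V]
    [FiniteDimensional k W] (hTHR : Stmt_THR) (hG : IsPGroup 2 G)
    (ρ : Representation k G V) (hV : IsIndec ρ) (hVo : Odd (finrank k V))
    (σ : Representation k G W) (hσ : IsIndec σ) (h3 : finrank k W = 3) :
    ¬ IsSummand σ (ρ.tprod ρ.dual) := by
  intro hsum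
  rcases hTHR k G W σ hG hσ h3 with ⟨g, hg⟩ | h
  · obtain ⟨a, ha⟩ := hG g
    exact part_three ρ hV hVo σ g ⟨a, ha⟩ hg hsum
  · obtain ⟨i, j, hi, hj, hij⟩ := setup ρ hV hVo σ (by rw [h3]; decide) hsum
    refine line_core ρ hV hVo σ (fun hx => ?_) h i j hi hj hij
    have h1 := Pool.SqSplit.finrank_eq_one σ hσ.2 hx
    omega

end

end Pool.Ben69
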