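import Pool.Agent.Work.MP_26c40d_69.Base2
import Pool.Agent.Work.MP_26c40d_31.Dim
import Pool.Agent.Work.MP_26c40d_31.HEX
import Pool.Agent.Work.MP_26c40d_31.CTR
import Pool.Agent.Work.MP_26c40d_31.TATE
import Pool.Agent.Work.MP_26c40d_31.HBAS

/-!
# Block CYS: a Jordan block of odd size satisfies the condition `Star` (helper31)
-/

set_option autoImplicit false

namespace Pool.Ben69

namespace CYS

open Module Polynomial Pool.BenStar

variable {k H T T' : Type} [Field k] [Group H] [AddCommGroup T] [Module k T]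
  [AddCommGroup T'] [Module k T']

/-- a vector is cyclic iff every vector is a polynomial in the operator applied to it -/
lemma cyc_iff (A : Module.End k T) (v : T) :
    Submodule.span k (Set.range fun n : ℕ => (A ^ n) v) = ⊤ ↔
      ∀ x, ∃ p : k[X], aeval A p v = x := by
  constructor
  · intro h x
    let f : k[X] →ₗ[k] T := (LinearMap.applyₗ v) ∘ₗ (aeval A).toLinearMap
    have hf : ⊤ ≤ LinearMap.range f := by
      rw [← h, Submodule.span_le]
      rintro _ ⟨n, rfl⟩
      exact ⟨X ^ n, by simp [f]⟩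
    obtain ⟨p, hp⟩ := hf (Submodule.mem_top (x := x))
    exact ⟨p, hp⟩
  · intro h
    rw [eq_top_iff]
    intro x _
    obtain ⟨p, rfl⟩ := h x
    rw [aeval_eq_sum_range, LinearMap.sum_apply]
    refine Submodule.sum_mem _ fun i _ => ?_
    rw [LinearMap.smul_apply]
    exact Submodule.smul_mem _ _ (Submodule.subset_span ⟨i, rfl⟩)

/-- `(A - 1) ^ (2 ^ s) = A ^ (2 ^ s) - 1` in characteristic two -/
lemma pow_two_pow [CharP k 2] (A : Module.End k T) (s : ℕ) :
    (A - 1) ^ (2 ^ s) = A ^ (2 ^ s) - 1 := by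
  have h : ((X : k[X]) - 1) ^ (2 ^ s) = X ^ (2 ^ s) - 1 ^ (2 ^ s) := sub_pow_char_pow ..
  have h2 := congrArg (aeval A) h
  simpa using h2

/-- the projection to the heart intertwines polynomials in the operators -/
lemma aeval_heart {τ : Representation k H T} {z : H} (hz : CentInv τ z)
    {τ' : Representation k H T'} (π : LinearMap.ker (τ z - 1) →ₗ[k] T')
    (hπg : ∀ (g : H) (v : LinearMap.ker (τ z - 1)) (h : τ g v ∈ LinearMap.ker (τ z - 1)),
      π ⟨τ g v, h⟩ = τ' g (π v)) (g : H) (p : k[X]) :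
    ∀ w : LinearMap.ker (τ z - 1), ∃ h : aeval (τ g) p (w : T) ∈ LinearMap.ker (τ z - 1),
      π ⟨aeval (τ g) p (w : T), h⟩ = aeval (τ' g) p (π w) := by
  have hker : ∀ (g : H), ∀ v ∈ LinearMap.ker (τ z - 1), τ g v ∈ LinearMap.ker (τ z - 1) := by
    intro g v hv
    rw [LinearMap.mem_ker] at hv ⊢
    rw [HEART.comm hz, hv, map_zero]
  induction p using Polynomial.induction_on with
  | C a =>
    intro w
    have e1 : aeval (τ g) (C a) (w : T) = ((a • w : LinearMap.ker (τ z - 1)) : T) := by
      simp [aeval_C, Module.algebraMap_end_apply]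
    refine ⟨by rw [e1]; exact (a • w).2, ?_⟩
    have e2 : (⟨aeval (τ g) (C a) (w : T), by rw [e1]; exact (a • w).2⟩ :
        LinearMap.ker (τ z - 1)) = a • w := Subtype.ext e1
    rw [e2, map_smul]
    simp [aeval_C, Module.algebraMap_end_apply]
  | add p q hp hq =>
    intro w
    obtain ⟨h1, e1⟩ := hp w
    obtain ⟨h2, e2⟩ := hq w
    have e3 : aeval (τ g) (p + q) (w : T) = aeval (τ g) p (w : T) + aeval (τ g) q (w : T) := by
      rw [map_add, LinearMap.add_apply]
    have h3 : aeval (τ g) (p + q) (w : T) ∈ LinearMap.ker (τ z - 1) := by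
      rw [e3]; exact Submodule.add_mem _ h1 h2
    refine ⟨h3, ?_⟩
    have e4 : (⟨aeval (τ g) (p + q) (w : T), h3⟩ : LinearMap.ker (τ z - 1)) =
        ⟨aeval (τ g) p (w : T), h1⟩ + ⟨aeval (τ g) q (w : T), h2⟩ := Subtype.ext e3
    rw [e4, map_add, e1, e2, map_add, LinearMap.add_apply]
  | monomial n a hp =>
    intro w
    have hw : τ g (w : T) ∈ LinearMap.ker (τ z - 1) := hker g w w.2
    obtain ⟨h1, e1⟩ := hp ⟨τ g (w : T), hw⟩
    have e2 : aeval (τ g) (C a * X ^ (n + 1)) (w : T) =
        aeval (τ g) (C a * X ^ n) (τ g (w : T)) := by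
      rw [pow_succ, ← mul_assoc, map_mul, aeval_X, Module.End.mul_apply]
    have h3 : aeval (τ g) (C a * X ^ (n + 1)) (w : T) ∈ LinearMap.ker (τ z - 1) := by
      rw [e2]; exact h1
    refine ⟨h3, ?_⟩
    have e4 : (⟨aeval (τ g) (C a * X ^ (n + 1)) (w : T), h3⟩ : LinearMap.ker (τ z - 1)) =
        ⟨aeval (τ g) (C a * X ^ n) (τ g (w : T)), h1⟩ := Subtype.ext e2
    rw [e4]
    have e5 : aeval (τ' g) (C a * X ^ (n + 1)) (π w) =
        aeval (τ' g) (C a * X ^ n) (τ' g (π w)) := by
      rw [pow_succ, ← mul_assoc, map_mul, aeval_X, Module.End.mul_apply]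
    rw [e5, ← hπg g w hw]
    exact e1

/-- the heart of a block is a block -/
lemma heart_block {τ : Representation k H T} {g z : H} (hb : OneBlock τ g) (hz : CentInv τ z)
    {τ' : Representation k H T'} (hh : IsHeart τ z τ') : OneBlock τ' g := by
  obtain ⟨π, hπs, hπ0, hπg⟩ := hh
  have hker : ∀ (g : H), ∀ v ∈ LinearMap.ker (τ z - 1), τ g v ∈ LinearMap.ker (τ z - 1) := by
    intro g v hv
    rw [LinearMap.mem_ker] at hv ⊢
    rw [HEART.comm hz, hv, map_zero]
  refine ⟨?_, ?_, ?_⟩
  · intro h
    obtain ⟨n, hn⟩ := hb.gen h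
    refine ⟨n, ?_⟩
    apply LinearMap.ext
    intro x
    obtain ⟨w, rfl⟩ := hπs x
    rw [← hπg h w (hker h w w.2), ← map_pow, ← hπg (g ^ n) w (hker _ w w.2)]
    congr 2
    rw [hn, map_pow]
  · obtain ⟨r, hr⟩ := hb.nil
    refine ⟨r, ?_⟩
    apply LinearMap.ext
    intro x
    obtain ⟨w, rfl⟩ := hπs x
    obtain ⟨h1, e1⟩ := aeval_heart hz π hπg g ((X - 1) ^ r) w
    have e2 : aeval (τ' g) ((X - 1) ^ r : k[X]) = (τ' g - 1) ^ r := by simp
    have e3 : aeval (τ g) ((X - 1) ^ r : k[X]) = (τ g - 1) ^ r := by simp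
    rw [← e2, ← e1, LinearMap.zero_apply]
    have e4 : (⟨aeval (τ g) ((X - 1) ^ r : k[X]) (w : T), h1⟩ : LinearMap.ker (τ z - 1)) = 0 := by
      apply Subtype.ext
      change aeval (τ g) ((X - 1) ^ r : k[X]) (w : T) = 0
      rw [e3, hr, LinearMap.zero_apply]
    rw [e4, map_zero]
  · obtain ⟨v, hv⟩ := hb.cyc
    rw [cyc_iff] at hv
    let I : Ideal k[X] :=
      { carrier := {p | aeval (τ g) p v ∈ LinearMap.ker (τ z - 1)}
        add_mem' := by
          intro p q hp hq
          change aeval (τ g) (p + q) v ∈ LinearMap.ker (τ z - 1)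
          rw [map_add, LinearMap.add_apply]
          exact Submodule.add_mem _ hp hq
        zero_mem' := by
          change aeval (τ g) (0 : k[X]) v ∈ LinearMap.ker (τ z - 1)
          rw [map_zero, LinearMap.zero_apply]
          exact Submodule.zero_mem _
        smul_mem' := by
          intro q p hp
          change aeval (τ g) (q * p) v ∈ LinearMap.ker (τ z - 1)
          rw [map_mul, Module.End.mul_apply]
          exact (aeval_heart hz π hπg g q ⟨_, hp⟩).1 }
    obtain ⟨d, hd⟩ := (IsPrincipalIdealRing.principal I).principal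
    have hdI : d ∈ I := by
      rw [hd]; exact Submodule.mem_span_singleton_self d
    refine ⟨π ⟨aeval (τ g) d v, hdI⟩, ?_⟩
    rw [cyc_iff]
    intro x
    obtain ⟨w, rfl⟩ := hπs x
    obtain ⟨p, hp⟩ := hv w
    have hpI : p ∈ I := by
      change aeval (τ g) p v ∈ LinearMap.ker (τ z - 1)
      rw [hp]; exact w.2
    rw [hd, Submodule.mem_span_singleton] at hpI
    obtain ⟨q, hq⟩ := hpI
    refine ⟨q, ?_⟩
    obtain ⟨h1, e1⟩ := aeval_heart hz π hπg g q ⟨aeval (τ g) d v, hdI⟩
    rw [← e1]
    congr 1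
    apply Subtype.ext
    change aeval (τ g) q (aeval (τ g) d v) = (w : T)
    rw [← Module.End.mul_apply, ← map_mul, ← hp, ← hq, smul_eq_mul]

/-- a block on which `g` acts trivially has dimension at most one -/
lemma finrank_le_one_of_eq_one [FiniteDimensional k T] {τ : Representation k H T} {g : H}
    (hb : OneBlock τ g) (h1 : τ g = 1) : finrank k T ≤ 1 := by
  obtain ⟨v, hv⟩ := hb.cyc
  have h2 : (Set.range fun n : ℕ => (τ g ^ n) v) = {v} := by
    ext x
    simp [h1, eq_comm]
  rw [h2] at hv
  rw [← finrank_top k T, ← hv]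
  exact finrank_span_le_card _ |>.trans (by simp)

theorem main (k H : Type) [Field k] [CharP k 2] [Group H] (g : H) (m : ℕ) :
    ∀ (T : Type) [AddCommGroup T] [Module k T] [FiniteDimensional k T]
      (τ : Representation k H T), OneBlock τ g → finrank k T = m → Odd m →
      Pool.BenStar.Star (fun h => τ h) := by
  induction m using Nat.strong_induction_on with
  | _ m ih =>
    intro T _ _ _ τ hb hm hodd
    by_cases hg : τ g = 1
    · have h1 := finrank_le_one_of_eq_one hb hg
      refine DIM.star_one τ ?_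
      obtain ⟨r, hr⟩ := hodd
      omega
    · -- the largest power of two with nonzero power
      have hex : ∃ s : ℕ, (τ g - 1) ^ (2 ^ s) = 0 := by
        obtain ⟨r, hr⟩ := hb.nil
        exact ⟨r, pow_eq_zero_of_le (Nat.lt_two_pow_self).le hr⟩
      classical
      have hs0 := Nat.find_spec hex
      have hsmin := fun {n} (h : n < Nat.find hex) => Nat.find_min hex h
      generalize Nat.find hex = s at hs0 hsmin
      cases s with
      | zero =>
        exfalso
        apply hg
        simpa [sub_eq_zero] using hs0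
      | succ s =>
        have hne : (τ g - 1) ^ (2 ^ s) ≠ 0 := hsmin (Nat.lt_succ_self s)
        let z : H := g ^ (2 ^ s)
        have hzp : τ z = τ g ^ (2 ^ s) := map_pow τ g _
        have hz : CentInv τ z := by
          refine ⟨?_, ?_⟩
          · intro h
            obtain ⟨n, hn⟩ := hb.gen h
            rw [hzp, hn, ← pow_add, ← pow_add, add_comm]
          · rw [hzp, ← pow_add, ← two_mul, ← pow_succ']
            have := pow_two_pow (τ g) (s + 1)
            rw [hs0] at this
            exact (sub_eq_zero.1 this.symm)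
        have hz1 : τ z ≠ 1 := by
          intro h
          apply hne
          rw [pow_two_pow, ← hzp, h, sub_self]
        obtain ⟨T', i1, i2, i3, τ', hh⟩ := stmt_HEX k H T τ z hz
        have hd := DIM.finrank_heart stmt_HBAS hz hh
        have hr := DIM.rank_pos hz1
        refine star_of_heart stmt_CTR stmt_TATE stmt_HBAS hz hh ?_
        refine ih (finrank k T') (by omega) T' τ' (heart_block hb hz hh) rfl ?_
        obtain ⟨r, hr'⟩ := hodd
        rw [Nat.odd_iff]
        omega

end CYS

theorem stmt_CYS : Stmt_CYS := by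
  intro k H T _ _ _ _ _ _ _ τ g hb hodd
  exact CYS.main k H g _ T τ hb rfl hodd

end Pool.Ben69
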