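import Pool.Agent.Work.MP_26c40d_69.Base3
import Pool.Agent.Work.MP_26c40d_69.CYS
import Pool.Agent.Work.MP_26c40d_31.CENT

/-!
# Block THR: indecomposable representations of dimension three (helper31)
-/

set_option autoImplicit false

namespace Pool.Ben69

namespace THR

open Module Pool.Benson Pool.BenStar

variable {k G W : Type} [Field k] [Group G] [AddCommGroup W] [Module k W]

lemma one_of_nil (A : Module.End k W) (hA : IsNilpotent (A - 1)) (v : W) (c : k)
    (S : Submodule k W) (hS : ∀ x ∈ S, A x ∈ S) (hv : v ∉ S) (h : A v - c • v ∈ S) : c = 1 := by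
  obtain ⟨n, hn⟩ := hA
  have key : ∀ m : ℕ, ((A - 1) ^ m) v - (c - 1) ^ m • v ∈ S := by
    intro m
    induction m with
    | zero => simp
    | succ m ih =>
      have e : ((A - 1) ^ (m + 1)) v - (c - 1) ^ (m + 1) • v =
          (A - 1) (((A - 1) ^ m) v - (c - 1) ^ m • v) + (c - 1) ^ m • (A v - c • v) := by
        rw [pow_succ' (A - 1), Module.End.mul_apply, map_sub, map_smul,
          LinearMap.sub_apply A 1 v, Module.End.one_apply]
        module
      rw [e]
      refine Submodule.add_mem _ ?_ (Submodule.smul_mem _ _ h)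
      rw [LinearMap.sub_apply]
      exact Submodule.sub_mem _ (hS _ ih) ih
  have h1 := key n
  rw [hn, LinearMap.zero_apply, zero_sub, Submodule.neg_mem_iff] at h1
  by_contra hc
  have h2 : (c - 1) ^ n ≠ 0 := pow_ne_zero _ (sub_ne_zero.2 hc)
  exact hv ((Submodule.smul_mem_iff _ h2).1 h1)

lemma nil_of_two [CharP k 2] (hG : IsPGroup 2 G) (σ : Representation k G W) (g : G) :
    IsNilpotent (σ g - 1) := by
  obtain ⟨m, hm⟩ := hG g
  exact ⟨2 ^ m, by rw [CYS.pow_two_pow, ← map_pow, hm, map_one, sub_self]⟩

/-- the zero space is even -/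
lemma even_bot (τ : Representation k G W) : EvenPart τ (⊥ : Submodule k W) := by
  intro U U' hU _ _ h hi
  have hU0 : U = ⊥ := by
    rw [eq_bot_iff, ← h]; exact le_sup_left
  exfalso
  have hn := hi.1
  subst hU0
  exact (not_nontrivial_iff_subsingleton.2 inferInstance) hn

/-- an operator with square one acts trivially on an invariant line -/
lemma line_fixed [CharP k 2] (A : Module.End k W) (hA : A * A = 1) (U : Submodule k W)
    (hU : ∀ v ∈ U, A v ∈ U) (h1 : finrank k U = 1) : ∀ v ∈ U, A v = v := by
  obtain ⟨e, he0, he⟩ := finrank_eq_one_iff'.mp h1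
  have hAe : A e ∈ U := hU e e.2
  obtain ⟨c, hc⟩ := he ⟨A e, hAe⟩
  have hc' : A e = c • (e : W) := (congrArg Subtype.val hc).symm
  have h2 : A (A e) = e := by
    have := congrArg (fun f => f (e : W)) hA
    simpa using this
  rw [hc', map_smul, hc', smul_smul] at h2
  have he0' : (e : W) ≠ 0 := fun h => he0 (Subtype.ext h)
  have h3 : (c * c - 1) • (e : W) = 0 := by rw [sub_smul, h2, one_smul, sub_self]
  have h4 : c * c - 1 = 0 := (smul_eq_zero.1 h3).resolve_right he0'
  have h5 : c = 1 := by
    have h6 : (c - 1) * (c - 1) = 0 := by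
      have h7 : (2 : k) = 0 := CharTwo.two_eq_zero
      linear_combination h4 + (1 - c) * h7
    exact sub_eq_zero.1 (mul_self_eq_zero.1 h6)
  intro v hv
  obtain ⟨a, ha⟩ := he ⟨v, hv⟩
  have h8 : v = a • (e : W) := (congrArg Subtype.val ha).symm
  rw [h8, map_smul, hc', h5, one_smul]

/-- a two-dimensional space with a nontrivial involution is even -/
lemma evp [CharP k 2] [FiniteDimensional k W] (σ : Representation k G W) (z : G)
    (hz : σ z * σ z = 1) (E : Submodule k W) (h2 : finrank k E = 2) (w : W) (hw : w ∈ E)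
    (hw1 : σ z w ≠ w) : EvenPart (cyclicRestr σ z) E := by
  intro U U' hU hU' h0 hs _
  by_contra hne
  have hodd : Odd (finrank k U) := Nat.not_even_iff_odd.1 hne
  have hsum : finrank k U + finrank k U' = 2 := by
    have := Submodule.finrank_sup_add_finrank_inf_eq U U'
    rw [hs, h0, finrank_bot, h2] at this
    omega
  have h1 : finrank k U = 1 := by
    obtain ⟨r, hr⟩ := hodd
    omega
  have h1' : finrank k U' = 1 := by omega
  have hzU : ∀ v ∈ U, σ z v ∈ U := fun v hv => hU ⟨z, Subgroup.mem_zpowers z⟩ v hv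
  have hzU' : ∀ v ∈ U', σ z v ∈ U' := fun v hv => hU' ⟨z, Subgroup.mem_zpowers z⟩ v hv
  rw [← hs] at hw
  obtain ⟨a, ha, b, hb, rfl⟩ := Submodule.mem_sup.1 hw
  exact hw1 (by
    rw [map_add, line_fixed _ hz U hzU h1 a ha, line_fixed _ hz U' hzU' h1' b hb])

theorem main [CharP k 2] [Finite G] [FiniteDimensional k W] (σ : Representation k G W)
    (hG : IsPGroup 2 G) (hσ : IsIndec σ) (h3 : finrank k W = 3) :
    (∃ g, OneOddBlock σ g) ∨ HasFixedLine σ := by
  obtain ⟨g0, hg0⟩ := DIM.nontriv (ρ := σ) hσ (by omega)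
  obtain ⟨z, hz, hz1⟩ := stmt_CENT k G W σ hG ⟨g0, hg0⟩
  have hN2 := HEART.sq_zero hz
  have hNc := HEART.comm hz
  have hzN : ∀ v, σ z v = v + (σ z - 1) v := by
    intro v; simp
  have hr1 : 1 ≤ finrank k (LinearMap.range (σ z - 1)) := DIM.rank_pos hz1
  have hNne : σ z - 1 ≠ 0 := sub_ne_zero.2 hz1
  generalize σ z - 1 = N at hN2 hNc hzN hr1 hNne
  have hrk : finrank k (LinearMap.range N) + finrank k (LinearMap.ker N) = 3 := by
    rw [← h3]; exact LinearMap.finrank_range_add_finrank_ker N
  have hle : LinearMap.range N ≤ LinearMap.ker N := by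
    rintro _ ⟨v, rfl⟩; exact hN2 v
  have hle' := Submodule.finrank_mono hle
  have hk : finrank k (LinearMap.ker N) = 2 := by omega
  obtain ⟨w, hw⟩ : ∃ w, N w ≠ 0 := by
    by_contra h
    push Not at h
    exact hNne (LinearMap.ext h)
  have hspan : Submodule.span k {N w} < LinearMap.ker N := by
    refine lt_of_le_of_ne ?_ ?_
    · rw [Submodule.span_singleton_le_iff_mem]; exact hN2 w
    · intro h
      have := finrank_span_singleton (K := k) hw
      rw [h, hk] at this
      omega
  obtain ⟨p, hpk, hpl⟩ := SetLike.exists_of_lt hspan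
  have hp : N p = 0 := hpk
  have hli : LinearIndependent k ![N w, p, w] := by
    rw [Fintype.linearIndependent_iff]
    intro c hc
    have hc' : c 0 • N w + c 1 • p + c 2 • w = 0 := by
      simpa [Fin.sum_univ_three] using hc
    have h2 : c 2 = 0 := by
      have := congrArg N hc'
      rw [map_add, map_add, map_smul, map_smul, map_smul, hN2, hp, smul_zero, smul_zero,
        zero_add, zero_add, map_zero] at this
      exact (smul_eq_zero.1 this).resolve_right hw
    rw [h2, zero_smul, add_zero] at hc'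
    have h1 : c 1 = 0 := by
      by_contra h1
      apply hpl
      rw [← Submodule.smul_mem_iff _ h1, eq_neg_of_add_eq_zero_right hc']
      exact Submodule.neg_mem _ (Submodule.smul_mem _ _ (Submodule.mem_span_singleton_self _))
    rw [h1, zero_smul, add_zero] at hc'
    have h0 : c 0 = 0 := (smul_eq_zero.1 hc').resolve_right hw
    intro i
    fin_cases i
    · exact h0
    · exact h1
    · exact h2
  obtain ⟨B, hB⟩ : ∃ B : Basis (Fin 3) k W, (B : Fin 3 → W) = ![N w, p, w] :=
    ⟨basisOfLinearIndependentOfCardEqFinrank hli (by simp [h3]),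
      coe_basisOfLinearIndependentOfCardEqFinrank _ _⟩
  have hB0 : B 0 = N w := by rw [hB]; rfl
  have hB1 : B 1 = p := by rw [hB]; rfl
  have hB2 : B 2 = w := by rw [hB]; rfl
  have dec : ∀ v, v = B.coord 0 v • N w + B.coord 1 v • p + B.coord 2 v • w := by
    intro v
    have := B.sum_repr v
    rw [Fin.sum_univ_three, hB0, hB1, hB2] at this
    exact this.symm
  have c0l : B.coord 0 (N w) = 1 := by rw [← hB0]; simp
  have c1l : B.coord 1 (N w) = 0 := by rw [← hB0]; simp
  have c2l : B.coord 2 (N w) = 0 := by rw [← hB0]; simp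
  have c0p : B.coord 0 p = 0 := by rw [← hB1]; simp
  have c1p : B.coord 1 p = 1 := by rw [← hB1]; simp
  have c2p : B.coord 2 p = 0 := by rw [← hB1]; simp
  have c0w : B.coord 0 w = 0 := by rw [← hB2]; simp
  have c1w : B.coord 1 w = 0 := by rw [← hB2]; simp
  have c2w : B.coord 2 w = 1 := by rw [← hB2]; simp
  generalize hx0 : B.coord 0 = X0 at dec c0l c0p c0w
  generalize hx1 : B.coord 1 = X1 at dec c1l c1p c1w
  generalize hx2 : B.coord 2 = X2 at dec c2l c2p c2w
  have hNv : ∀ v, N v = X2 v • N w := by
    intro v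
    conv_lhs => rw [dec v]
    rw [map_add, map_add, map_smul, map_smul, map_smul, hN2, hp, smul_zero, smul_zero,
      zero_add, zero_add]
  -- the line of `N w`
  have hl : ∀ g, σ g (N w) = N w := by
    intro g
    have h1 : σ g (N w) = X2 (σ g w) • N w := by rw [← hNc, hNv]
    have h2 : X2 (σ g w) = 1 := by
      refine one_of_nil (σ g) (nil_of_two hG σ g) (N w) _ ⊥ ?_ ?_ ?_
      · intro x hx
        rw [Submodule.mem_bot] at hx ⊢
        rw [hx, map_zero]
      · rw [Submodule.mem_bot]; exact hw
      · rw [Submodule.mem_bot, h1, sub_self]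
    rw [h1, h2, one_smul]
  have hw2 : ∀ g, X2 (σ g w) = 1 := by
    intro g
    have h1 : X2 (σ g w) • N w = N w := by rw [← hNv, hNc, hl]
    have h2 : (X2 (σ g w) - 1) • N w = 0 := by rw [sub_smul, h1, one_smul, sub_self]
    exact sub_eq_zero.1 ((smul_eq_zero.1 h2).resolve_right hw)
  have hp2 : ∀ g, X2 (σ g p) = 0 := by
    intro g
    have h1 : X2 (σ g p) • N w = 0 := by rw [← hNv, hNc, hp, map_zero]
    exact (smul_eq_zero.1 h1).resolve_right hw
  have hp1 : ∀ g, X1 (σ g p) = 1 := by
    intro g
    refine one_of_nil (σ g) (nil_of_two hG σ g) p _ (Submodule.span k {N w}) ?_ hpl ?_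
    · intro x hx
      obtain ⟨a, rfl⟩ := Submodule.mem_span_singleton.1 hx
      rw [map_smul, hl]
      exact hx
    · have h1 := dec (σ g p)
      rw [hp2, zero_smul, add_zero] at h1
      have h2 : σ g p - X1 (σ g p) • p = X0 (σ g p) • N w := by
        rw [sub_eq_iff_eq_add]
        exact h1
      rw [h2]
      exact Submodule.smul_mem _ _ (Submodule.mem_span_singleton_self _)
  have hgp : ∀ g, σ g p = X0 (σ g p) • N w + p := by
    intro g
    have h1 := dec (σ g p)
    rwa [hp2, zero_smul, add_zero, hp1, one_smul] at h1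
  have hgw : ∀ g, σ g w = X0 (σ g w) • N w + X1 (σ g w) • p + w := by
    intro g
    have h1 := dec (σ g w)
    rwa [hw2, one_smul] at h1
  -- the two homomorphisms
  have ha : ∀ g h, X1 (σ (g * h) w) = X1 (σ g w) + X1 (σ h w) := by
    intro g h
    have e : σ g (σ h w) = X0 (σ h w) • N w + X1 (σ h w) • σ g p + σ g w := by
      conv_lhs => rw [hgw h]
      rw [map_add, map_add, map_smul, map_smul, hl]
    rw [map_mul, Module.End.mul_apply, e, map_add, map_add, map_smul, map_smul, c1l, hp1,
      smul_zero, zero_add, smul_eq_mul, mul_one, add_comm]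
  have hb : ∀ g h, X0 (σ (g * h) p) = X0 (σ g p) + X0 (σ h p) := by
    intro g h
    rw [map_mul, Module.End.mul_apply, hgp h, map_add, map_smul, hl, map_add, map_smul]
    simp only [map_add, map_smul, c0l, c0p, smul_eq_mul]
    ring
  -- the functional
  have hX1z : ∀ v, X1 (σ z v) = X1 v := by
    intro v
    rw [hzN, map_add, hNv, map_smul, c1l, smul_zero, add_zero]
  have hzw : σ z w ≠ w := by
    rw [hzN]
    intro h
    exact hw (by simpa using h)
  have hker : finrank k (LinearMap.ker X1) = 2 := by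
    have h1 := LinearMap.finrank_range_add_finrank_ker X1
    have h2 : LinearMap.range X1 = ⊤ := by
      rw [LinearMap.range_eq_top]
      intro c
      exact ⟨c • p, by rw [map_smul, c1p, smul_eq_mul, mul_one]⟩
    rw [h2, finrank_top, Module.finrank_self, h3] at h1
    omega
  have hev : EvenPart (cyclicRestr σ z) (LinearMap.ker X1) := evp σ z hz.2 _ hker w c1w hzw
  have hzp : σ z p = p := by rw [hzN, hp, add_zero]
  by_cases hA : ∃ g, X1 (σ g w) ≠ 0 ∧ X0 (σ g p) ≠ 0
  · left
    obtain ⟨g, ha0, hb0⟩ := hA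
    refine ⟨g, ⊤, ⊥, fun _ _ _ => Submodule.mem_top, ?_, isCompl_top_bot, ?_, ?_, ⟨w, ?_⟩,
      even_bot _⟩
    · intro x v hv
      rw [Submodule.mem_bot] at hv ⊢
      rw [hv, map_zero]
    · rw [finrank_top, h3]; exact ⟨1, rfl⟩
    · rw [finrank_top, h3]; decide
    · symm
      rw [eq_top_iff]
      set S := Submodule.span k (Set.range fun n : ℕ => (σ g ^ n) w) with hS
      have s0 : w ∈ S := Submodule.subset_span ⟨0, by simp⟩
      have s1 : σ g w ∈ S := Submodule.subset_span ⟨1, by simp⟩
      have s2 : σ g (σ g w) ∈ S := Submodule.subset_span ⟨2, by simp [pow_two]⟩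
      have e6 : σ g w - w = X0 (σ g w) • N w + X1 (σ g w) • p := by
        conv_lhs => rw [hgw g]
        module
      -- the line
      have e1 : σ g (σ g w) - σ g w - (σ g w - w) = (X1 (σ g w) * X0 (σ g p)) • N w := by
        have e2 : σ g (σ g w) = X0 (σ g w) • N w + X1 (σ g w) • σ g p + σ g w := by
          conv_lhs => rw [hgw g]
          rw [map_add, map_add, map_smul, map_smul, hl]
        have e4 := hgp g
        rw [e2]
        conv_lhs => rw [e4, e6]
        module
      have l1 : N w ∈ S := by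
        rw [← Submodule.smul_mem_iff _ (mul_ne_zero ha0 hb0), ← e1]
        exact Submodule.sub_mem _ (Submodule.sub_mem _ s2 s1) (Submodule.sub_mem _ s1 s0)
      have p1 : p ∈ S := by
        rw [← Submodule.smul_mem_iff _ ha0]
        have e5 : X1 (σ g w) • p = σ g w - w - X0 (σ g w) • N w := by
          rw [e6]
          module
        rw [e5]
        exact Submodule.sub_mem _ (Submodule.sub_mem _ s1 s0) (Submodule.smul_mem _ _ l1)
      intro v _
      rw [dec v]
      exact Submodule.add_mem _ (Submodule.add_mem _ (Submodule.smul_mem _ _ l1)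
        (Submodule.smul_mem _ _ p1)) (Submodule.smul_mem _ _ s0)
  · right
    refine ⟨z, p, X1, c1p, hzp, hX1z, hev, ?_⟩
    by_cases hb0 : ∀ g, X0 (σ g p) = 0
    · left
      intro g
      rw [hgp g, hb0, zero_smul, zero_add]
    · right
      push Not at hb0
      obtain ⟨h, hh⟩ := hb0
      have hah : X1 (σ h w) = 0 := by
        by_contra hc
        exact hA ⟨h, hc, hh⟩
      have ha0 : ∀ g, X1 (σ g w) = 0 := by
        intro g
        by_contra hc
        have hbg : X0 (σ g p) = 0 := by
          by_contra hc'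
          exact hA ⟨g, hc, hc'⟩
        refine hA ⟨g * h, ?_, ?_⟩
        · rw [ha, hah, add_zero]; exact hc
        · rw [hb, hbg, zero_add]; exact hh
      intro g v
      have e8 : σ g v = X0 v • N w + X1 v • σ g p + X2 v • σ g w := by
        conv_lhs => rw [dec v]
        rw [map_add, map_add, map_smul, map_smul, map_smul, hl]
      rw [e8, map_add, map_add, map_smul, map_smul, map_smul, c1l, hp1, ha0, smul_zero, smul_zero,
        zero_add, add_zero, smul_eq_mul, mul_one]

end THR

theorem stmt_THR : Stmt_THR := by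
  intro k G W _ _ _ _ _ _ _ σ hG hσ h3
  exact THR.main σ hG hσ h3

end Pool.Ben69
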