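import Pool.Agent.Work.MP_26c40d_69.Base

/-!
# MP_26c40d_al, self-dual odd summands: alternating forms (helper69)
-/

set_option autoImplicit false

namespace Pool.Ben69

open Module

theorem alt_aux (k : Type) [Field k] : ∀ (n : ℕ) (U : Type) [AddCommGroup U] [Module k U]
    [FiniteDimensional k U] (B : U →ₗ[k] U →ₗ[k] k), finrank k U = n → (∀ u, B u u = 0) →
    (∀ v, (∀ u, B u v = 0) → v = 0) → Even n := by
  intro n
  induction n using Nat.strong_induction_on with
  | _ n ih =>
    intro U _ _ _ B hn h0 hnd
    by_cases hz : n = 0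
    · rw [hz]
      exact ⟨0, rfl⟩
    have hnt : Nontrivial U := by
      apply Module.nontrivial_of_finrank_pos (R := k)
      omega
    obtain ⟨v, hv⟩ := exists_ne (0 : U)
    have hw' : ∃ w, B w v ≠ 0 := by
      by_contra h
      push Not at h
      exact hv (hnd v h)
    obtain ⟨w, hw⟩ := hw'
    have hsk : ∀ x y, B x y = - B y x := by
      intro x y
      have h1 := h0 (x + y)
      simp only [map_add, LinearMap.add_apply, h0, zero_add, add_zero] at h1
      linear_combination h1
    have hvw : B v w ≠ 0 := by
      rw [hsk]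
      exact neg_ne_zero.2 hw
    let L : U →ₗ[k] (k × k) := (B.flip v).prod (B.flip w)
    have hL : ∀ x, L x = (B x v, B x w) := fun x => rfl
    have hLs : ∀ a b : k, L ((a / B w v) • w + (b / B v w) • v) = (a, b) := by
      intro a b
      rw [hL]
      simp only [map_add, map_smul, LinearMap.add_apply, LinearMap.smul_apply, smul_eq_mul, h0,
        mul_zero, add_zero, zero_add]
      rw [div_mul_cancel₀ _ hw, div_mul_cancel₀ _ hvw]
    have hsurj : Function.Surjective L := fun ⟨a, b⟩ => ⟨_, hLs a b⟩
    have hdim := LinearMap.finrank_range_add_finrank_ker L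
    rw [LinearMap.range_eq_top.2 hsurj, finrank_top, Module.finrank_prod, Module.finrank_self,
      hn] at hdim
    have h2 : Even (n - 2) := by
      refine ih (n - 2) (by omega) (LinearMap.ker L)
        (B.compl₁₂ (LinearMap.ker L).subtype (LinearMap.ker L).subtype) (by omega)
        (fun u => h0 _) ?_
      rintro ⟨u, hu⟩ hu'
      rw [Subtype.ext_iff]
      have hu1 : B u v = 0 := congrArg Prod.fst (LinearMap.mem_ker.1 hu)
      have hu2 : B u w = 0 := congrArg Prod.snd (LinearMap.mem_ker.1 hu)
      refine hnd u fun y => ?_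
      have h3 : y - ((B y v / B w v) • w + (B y w / B v w) • v) ∈ LinearMap.ker L := by
        rw [LinearMap.mem_ker, map_sub, hLs, hL, sub_self]
      have h4 : B (y - ((B y v / B w v) • w + (B y w / B v w) • v)) u = 0 := hu' ⟨_, h3⟩
      rw [map_sub, map_add, map_smul, map_smul, LinearMap.sub_apply, LinearMap.add_apply,
        LinearMap.smul_apply, LinearMap.smul_apply, hsk w u, hsk v u, hu1, hu2, neg_zero,
        smul_zero, smul_zero, add_zero, sub_zero] at h4
      exact h4
    obtain ⟨m, hm⟩ := h2
    exact ⟨m + 1, by omega⟩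

theorem stmt_ALT : Stmt_ALT := by
  intro k U _ _ _ _ B h0 hnd
  exact alt_aux k _ U B rfl h0 hnd

end Pool.Ben69
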