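import Pool.Agent.Work.MP_26c40d_31.Defs
import Pool.Agent.Work.MP_26c40d_31.Statement

/-!
# MP_26c40d_al, self-dual odd summands of V ⊗ V*: block statements (helper69)
-/

set_option autoImplicit false

namespace Pool.Ben69

open Module Pool.Benson

/-- ALT. A space with a nondegenerate alternating form has even dimension. -/
def Stmt_ALT : Prop :=
  ∀ (k U : Type) [Field k] [AddCommGroup U] [Module k U] [FiniteDimensional k U]
    (B : U →ₗ[k] U →ₗ[k] k), (∀ u, B u u = 0) → (∀ v, (∀ u, B u v = 0) → v = 0) →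
    Even (finrank k U)

/-- LOC. Equivariant endomorphisms of an odd-dimensional indecomposable `W`: either
bijective or nilpotent; the trace is multiplicative; trace zero means not injective. -/
def Stmt_TRM : Prop :=
  ∀ (k G W : Type) [Field k] [IsAlgClosed k] [CharP k 2] [Group G] [AddCommGroup W] [Module k W]
    [FiniteDimensional k W] (σ : Representation k G W), IsIndec σ → Odd (finrank k W) →
    (∀ T : Module.End k W, (∀ g, T * σ g = σ g * T) →
      (LinearMap.trace k W T = 0 ↔ ¬ Function.Injective T)) ∧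
    ∀ S T : Module.End k W, (∀ g, S * σ g = σ g * S) → (∀ g, T * σ g = σ g * T) →
      LinearMap.trace k W (S * T) = LinearMap.trace k W S * LinearMap.trace k W T

/-- RK. The pairing of `Hom (W, End V)` and `Hom (W*, End V)` has rank at most one, if `W` has
the property `Star` (Benson's property) and `V` is indecomposable of odd dimension.
Proof: apply `Star` to `F p q v w = tr (j₁ p * i₁ v * j₂ q * i₂ w)`; the diagonal sums
`∑ a, j₁ (b^a) * i₁ (b_a)` and `∑ a, i₂ (b_a) * j₁ (b^a)` etc. lie in `End_G V`, where the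
trace is multiplicative (`Stmt_TRM`). -/
def Stmt_RK : Prop :=
  ∀ (k G V W ι : Type) [Field k] [IsAlgClosed k] [CharP k 2] [Group G] [AddCommGroup V]
    [Module k V] [FiniteDimensional k V] [AddCommGroup W] [Module k W] [FiniteDimensional k W]
    [Fintype ι] (ρ : Representation k G V) (σ : Representation k G W), IsIndec ρ →
    Odd (finrank k V) → Pool.BenStar.Star (fun g => σ g) → ∀ (b : Basis ι k W)
    (i₁ i₂ : W →ₗ[k] Module.End k V) (j₁ j₂ : (W →ₗ[k] k) →ₗ[k] Module.End k V),
    (∀ g w, i₁ (σ g w) * ρ g = ρ g * i₁ w) → (∀ g w, i₂ (σ g w) * ρ g = ρ g * i₂ w) →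
    (∀ g p, ρ g * j₁ (p ∘ₗ σ g) = j₁ p * ρ g) → (∀ g p, ρ g * j₂ (p ∘ₗ σ g) = j₂ p * ρ g) →
    (∑ a, LinearMap.trace k V (j₁ (b.coord a) * i₁ (b a))) *
        (∑ a, LinearMap.trace k V (j₂ (b.coord a) * i₂ (b a))) =
      (∑ a, LinearMap.trace k V (j₁ (b.coord a) * i₂ (b a))) *
        (∑ a, LinearMap.trace k V (j₂ (b.coord a) * i₁ (b a)))

end Pool.Ben69
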