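import Pool.Agent.Work.MP_26c40d_31.Statement

/-!
# Benson's conjecture on V ⊗ V*: self-dual summands, the notions used in the statement (helper69)
-/

set_option autoImplicit false

namespace Pool.Ben69

open Module Pool.Benson

section
variable {k G H W M : Type} [Field k] [Group G] [Group H] [AddCommGroup W] [Module k W]
  [AddCommGroup M] [Module k M]

/-- The subspace `X` of the representation `μ` is isomorphic to the representation `σ`. -/
def IsCopy (μ : Representation k G M) (X : Submodule k M) (σ : Representation k G W) : Prop :=
  ∃ e : W ≃ₗ[k] X, ∀ g w, ((e (σ g w) : X) : M) = μ g (e w)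

/-- `σ` is isomorphic to a direct summand of `μ`. -/
def IsSummand (σ : Representation k G W) (μ : Representation k G M) : Prop :=
  ∃ A B : Submodule k M, IsInv μ A ∧ IsInv μ B ∧ IsCompl A B ∧ IsCopy μ A σ

/-- The representation is isomorphic to its dual. -/
def IsSelfDual (σ : Representation k G W) : Prop :=
  ∃ θ : W ≃ₗ[k] Dual k W, ∀ g v, θ (σ g v) = σ.dual g (θ v)

/-- All indecomposable direct summands of the invariant subspace `W'` have even dimension. -/
def EvenPart (σ : Representation k G W) (W' : Submodule k W) : Prop :=
  ∀ (U U' : Submodule k W) (hU : IsInv σ U), IsInv σ U' → U ⊓ U' = ⊥ →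
    U ⊔ U' = W' → IsIndec (restr σ U hU) → Even (finrank k U)

/-- The representation `σ` is the direct sum of an indecomposable self-dual representation `W₀` of
odd dimension above one which satisfies Benson's conjecture, and of a representation `W'` all of
whose indecomposable summands have even dimension. -/
def OddPartSelfDual (σ : Representation k G W) : Prop :=
  ∃ (W₀ W' : Submodule k W) (hW₀ : IsInv σ W₀), IsInv σ W' ∧ IsCompl W₀ W' ∧
    IsIndec (restr σ W₀ hW₀) ∧ Odd (finrank k W₀) ∧ finrank k W₀ ≠ 1 ∧
    IsSelfDual (restr σ W₀ hW₀) ∧ BensonProperty (restr σ W₀ hW₀) ∧ EvenPart σ W'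

/-- The restriction of the representation to the cyclic group generated by `g`. -/
def cyclicRestr (σ : Representation k G W) (g : G) :
    Representation k (Subgroup.zpowers g) W :=
  MonoidHom.comp σ (Subgroup.zpowers g).subtype

/-- The element `g` acts on `W` with exactly one Jordan block of odd size, and the size is above
one: under the group generated by `g` the space `W` is the direct sum of `W₀` of odd dimension
above one, spanned by the vectors `g ^ n v` for some `v`, and of `W'`, all of whose indecomposable
summands have even dimension. -/
def OneOddBlock (σ : Representation k G W) (g : G) : Prop :=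
  ∃ W₀ W' : Submodule k W, IsInv (cyclicRestr σ g) W₀ ∧ IsInv (cyclicRestr σ g) W' ∧
    IsCompl W₀ W' ∧ Odd (finrank k W₀) ∧ finrank k W₀ ≠ 1 ∧
    (∃ v, W₀ = Submodule.span k (Set.range fun n : ℕ => (σ g ^ n) v)) ∧
    EvenPart (cyclicRestr σ g) W'

end

end Pool.Ben69
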