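import Pool.Agent.Work.MP_26c40d_31.Defs
import Pool.Agent.Work.MP_26c40d_69.Statement

/-!
# MP_26c40d_al, self-dual odd summands: block statements for cyclic groups (helper69)
-/

set_option autoImplicit false

namespace Pool.Ben69

open Module Pool.Benson

/-- `g` acts on `T` as one unipotent Jordan block, and `H` acts through the powers of `g`. -/
structure OneBlock {k H T : Type} [Field k] [Group H] [AddCommGroup T] [Module k T]
    (τ : Representation k H T) (g : H) : Prop where
  gen : ∀ h, ∃ n : ℕ, τ h = τ g ^ n
  nil : IsNilpotent (τ g - 1)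
  cyc : ∃ v : T, Submodule.span k (Set.range fun n : ℕ => (τ g ^ n) v) = ⊤

/-- CYS. A Jordan block of odd size satisfies the condition `Star` (in characteristic two).
Proof: induction on the dimension `m`. `m = 1`: both terms of `TR` are equal. `m > 1`: let
`2 ^ s < m < 2 ^ (s + 1)`, `z = g ^ (2 ^ s)`, `N = τ g - 1`, so `τ z - 1 = N ^ (2 ^ s)`,
`(τ z) ^ 2 = 1`; `dim ker N ^ j = j`; the heart `ker N ^ (2 ^ s) / im N ^ (2 ^ s)` is again one
block, of size `2 ^ (s + 1) - m < m`, generated by the image of `N ^ (m - 2 ^ s) v`. Use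
`Pool.BenStar.star_of_heart` (Heart.lean, `stmt_CTR`, `stmt_TATE`, `stmt_HBAS`) and `stmt_HEX`. -/
def Stmt_CYS : Prop :=
  ∀ (k H T : Type) [Field k] [IsAlgClosed k] [CharP k 2] [Group H] [AddCommGroup T] [Module k T]
    [FiniteDimensional k T] (τ : Representation k H T) (g : H), OneBlock τ g →
    Odd (finrank k T) → Pool.BenStar.Star (fun h => τ h)

/-- CYD. One Jordan block is self-dual and indecomposable. Proof: the transposed of `g⁻¹` is again
one block; with `v`, `λ` generating vectors, `p (g) v ↦ p (g*) λ` is well defined (both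
annihilators are `(x - 1) ^ m`). Indecomposable: `dim ker (τ g - 1) ≤ 1` and every nonzero
invariant subspace meets the kernel. -/
def Stmt_CYD : Prop :=
  ∀ (k H T : Type) [Field k] [CharP k 2] [Group H] [AddCommGroup T] [Module k T]
    [FiniteDimensional k T] (τ : Representation k H T) (g : H), OneBlock τ g →
    0 < finrank k T → IsSelfDual τ ∧ IsIndec τ

end Pool.Ben69
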