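import Pool.Agent.Work.MP_26c40d_69.SP
import Pool.Agent.Work.MP_26c40d_sq.Finite

/-!
# MP_26c40d_al, self-dual odd summands: the core of part two (helper69)
-/

set_option autoImplicit false

namespace Pool.Ben69

open Module Pool.Benson Pool.BenStar

section
variable {k H V W : Type} [Field k] [Group H] [AddCommGroup V] [Module k V] [AddCommGroup W]
  [Module k W]

/-- equivariant maps `W* → W` -/
def EqE (σ : Representation k H W) (E : (W →ₗ[k] k) →ₗ[k] W) : Prop :=
  ∀ h p, σ h (E (p ∘ₗ σ h)) = E p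

/-- equivariant maps `W → W*` -/
def EqT (σ : Representation k H W) (T : W →ₗ[k] (W →ₗ[k] k)) : Prop :=
  ∀ h w, (T (σ h w)) ∘ₗ σ h = T w

theorem EqW.comp {ρ : Representation k H V} {σ : Representation k H W}
    {x : W →ₗ[k] Module.End k V} (hx : EqW ρ σ x) {E : (W →ₗ[k] k) →ₗ[k] W} (hE : EqE σ E) :
    EqD ρ σ (x ∘ₗ E) := by
  intro h p
  rw [LinearMap.comp_apply, LinearMap.comp_apply, ← hx, hE]

theorem EqD.comp {ρ : Representation k H V} {σ : Representation k H W}
    {y : (W →ₗ[k] k) →ₗ[k] Module.End k V} (hy : EqD ρ σ y) {T : W →ₗ[k] (W →ₗ[k] k)}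
    (hT : EqT σ T) : EqW ρ σ (y ∘ₗ T) := by
  intro h w
  rw [LinearMap.comp_apply, LinearMap.comp_apply, ← hy, hT]

theorem EqW.mulLeft {ρ : Representation k H V} {σ : Representation k H W}
    {x : W →ₗ[k] Module.End k V} (hx : EqW ρ σ x) {A : Module.End k V}
    (hA : ∀ h, A * ρ h = ρ h * A) : EqW ρ σ (LinearMap.mulLeft k A ∘ₗ x) := by
  intro h w
  rw [LinearMap.comp_apply, LinearMap.comp_apply, LinearMap.mulLeft_apply,
    LinearMap.mulLeft_apply, mul_assoc, hx, ← mul_assoc, hA, mul_assoc]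

theorem EqD.mulLeft {ρ : Representation k H V} {σ : Representation k H W}
    {y : (W →ₗ[k] k) →ₗ[k] Module.End k V} (hy : EqD ρ σ y) {A : Module.End k V}
    (hA : ∀ h, A * ρ h = ρ h * A) : EqD ρ σ (LinearMap.mulLeft k A ∘ₗ y) := by
  intro h p
  rw [LinearMap.comp_apply, LinearMap.comp_apply, LinearMap.mulLeft_apply,
    LinearMap.mulLeft_apply, ← mul_assoc, ← hA, mul_assoc, hy, ← mul_assoc]

variable {ι : Type} [Fintype ι]

/-- The transposed map `W* → W`. -/
noncomputable def Et (b : Basis ι k W) (E : (W →ₗ[k] k) →ₗ[k] W) : (W →ₗ[k] k) →ₗ[k] W :=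
  ∑ c, (LinearMap.applyₗ (E (b.coord c)) : (W →ₗ[k] k) →ₗ[k] k).smulRight (b c)

theorem Et_apply (b : Basis ι k W) (E : (W →ₗ[k] k) →ₗ[k] W) (q : W →ₗ[k] k) :
    Et b E q = ∑ c, q (E (b.coord c)) • b c := by
  unfold Et
  rw [LinearMap.sum_apply]
  rfl

theorem sum_dual' (b : Basis ι k W) (p : W →ₗ[k] k) : ∑ c, p (b c) • b.coord c = p := by
  classical
  refine b.ext fun a => ?_
  rw [LinearMap.sum_apply, Finset.sum_eq_single a]
  · rw [LinearMap.smul_apply, Basis.coord_apply, Basis.repr_self, Finsupp.single_eq_same,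
      smul_eq_mul, mul_one]
  · intro c _ hc
    rw [LinearMap.smul_apply, Basis.coord_apply, Basis.repr_self, Finsupp.single_eq_of_ne hc,
      smul_zero]
  · intro h
    exact absurd (Finset.mem_univ a) h

theorem Et_pair (b : Basis ι k W) (E : (W →ₗ[k] k) →ₗ[k] W) (p q : W →ₗ[k] k) :
    p (Et b E q) = q (E p) := by
  rw [Et_apply, map_sum]
  conv_rhs => rw [← sum_dual' b p, map_sum, map_sum]
  refine Finset.sum_congr rfl fun c _ => ?_
  rw [map_smul, map_smul, map_smul, smul_eq_mul, smul_eq_mul, mul_comm]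

theorem ext_dual {x y : W} (h : ∀ p : W →ₗ[k] k, p x = p y) : x = y := by
  rw [← sub_eq_zero, ← Module.forall_dual_apply_eq_zero_iff k]
  intro p
  rw [map_sub, h p, sub_self]

theorem EqE.et {σ : Representation k H W} {E : (W →ₗ[k] k) →ₗ[k] W} (hE : EqE σ E)
    (b : Basis ι k W) : EqE σ (Et b E) := by
  intro h q
  refine ext_dual (k := k) ?_
  intro p
  have h1 : p (σ h (Et b E (q ∘ₗ σ h))) = (p ∘ₗ σ h) (Et b E (q ∘ₗ σ h)) := rfl
  rw [h1, Et_pair, Et_pair]
  change q (σ h (E (p ∘ₗ σ h))) = _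
  rw [hE]

theorem K4 (b : Basis ι k W) (E : (W →ₗ[k] k) →ₗ[k] W) (i : W →ₗ[k] Module.End k V)
    (P Q : Module.End k V) :
    ∑ c, LinearMap.trace k V (P * i (E (b.coord c)) * Q * i (b c)) =
      ∑ c, LinearMap.trace k V (P * i (b c) * Q * i (Et b E (b.coord c))) := by
  have h1 : ∀ c, LinearMap.trace k V (P * i (b c) * Q * i (Et b E (b.coord c))) =
      ∑ d, (b.coord c) (E (b.coord d)) * LinearMap.trace k V (P * i (b c) * Q * i (b d)) := by
    intro c
    rw [Et_apply, map_sum, Finset.mul_sum, map_sum]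
    refine Finset.sum_congr rfl fun d _ => ?_
    rw [map_smul, mul_smul_comm, map_smul, smul_eq_mul]
  have h2 : ∀ d, LinearMap.trace k V (P * i (E (b.coord d)) * Q * i (b d)) =
      ∑ c, (b.coord c) (E (b.coord d)) * LinearMap.trace k V (P * i (b c) * Q * i (b d)) := by
    intro d
    conv_lhs => rw [← b.sum_repr (E (b.coord d))]
    rw [map_sum, Finset.mul_sum, Finset.sum_mul, Finset.sum_mul, map_sum]
    refine Finset.sum_congr rfl fun c _ => ?_
    rw [map_smul, mul_smul_comm, smul_mul_assoc, smul_mul_assoc, map_smul, smul_eq_mul]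
    rfl
  rw [Finset.sum_congr rfl fun c _ => h1 c, Finset.sum_congr rfl fun c _ => h2 c,
    Finset.sum_comm]

/-- `X = ∑ i (E b^c) * i (b_c)` -/
noncomputable def XX (b : Basis ι k W) (E : (W →ₗ[k] k) →ₗ[k] W) (i : W →ₗ[k] Module.End k V) :
    Module.End k V := ∑ c, i (E (b.coord c)) * i (b c)

/-- `⟨A | B⟩ = ∑ tr (A * i (E b^a) * B * i (b_a))` -/
noncomputable def brk (b : Basis ι k W) (E : (W →ₗ[k] k) →ₗ[k] W)
    (i : W →ₗ[k] Module.End k V) (A B : Module.End k V) : k :=
  ∑ a, LinearMap.trace k V (A * i (E (b.coord a)) * B * i (b a))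

theorem brk_move [CharP k 2] {ρ : Representation k H V} {σ : Representation k H W}
    (hS : Star (fun h => σ h)) (b : Basis ι k W) {E : (W →ₗ[k] k) →ₗ[k] W} (hE : EqE σ E)
    {i : W →ₗ[k] Module.End k V} (hi : EqW ρ σ i) {A B : Module.End k V}
    (hA : ∀ h, A * ρ h = ρ h * A) (hB : ∀ h, B * ρ h = ρ h * B) :
    brk b E i A (XX b E i * B) = brk b E i (A * XX b E i) B := by
  have e1 : brk b E i A (XX b E i * B) = ∑ a, ∑ c, LinearMap.trace k V
      ((A * i (E (b.coord a))) * i (E (b.coord c)) * i (b c) * (B * i (b a))) := by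
    unfold brk XX
    refine Finset.sum_congr rfl fun a _ => ?_
    rw [Finset.sum_mul, Finset.mul_sum, Finset.sum_mul, map_sum]
    refine Finset.sum_congr rfl fun c _ => ?_
    congr 1
  have e2 := sp2 hS b ((hi.comp hE).mulLeft hA) (hi.comp hE) hi (hi.mulLeft hB)
  simp only [LinearMap.comp_apply, LinearMap.mulLeft_apply] at e2
  rw [e1, ← e2]
  have e3 : ∀ a, ∑ c, LinearMap.trace k V
      (A * i (E (b.coord a)) * i (E (b.coord c)) * i (b a) * (B * i (b c))) =
      ∑ c, LinearMap.trace k V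
        ((B * i (Et b E (b.coord c))) * (A * i (E (b.coord a))) * i (b c) * i (b a)) := by
    intro a
    have h1 := K4 b E i (A * i (E (b.coord a))) (i (b a) * B)
    have h2 : ∀ c, LinearMap.trace k V
        (A * i (E (b.coord a)) * i (E (b.coord c)) * i (b a) * (B * i (b c))) =
        LinearMap.trace k V
        (A * i (E (b.coord a)) * i (E (b.coord c)) * (i (b a) * B) * i (b c)) := by
      intro c
      congr 1
    rw [Finset.sum_congr rfl fun c _ => h2 c, h1]
    refine Finset.sum_congr rfl fun c _ => ?_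
    have h3 : A * i (E (b.coord a)) * i (b c) * (i (b a) * B) * i (Et b E (b.coord c)) =
        (A * i (E (b.coord a)) * i (b c) * i (b a)) * (B * i (Et b E (b.coord c))) := by
      simp only [mul_assoc]
    rw [h3, LinearMap.trace_mul_comm]
    congr 1
  rw [Finset.sum_congr rfl fun a _ => e3 a, Finset.sum_comm]
  have e4 := sp2 hS b ((hi.comp (hE.et b)).mulLeft hB) ((hi.comp hE).mulLeft hA) hi hi
  simp only [LinearMap.comp_apply, LinearMap.mulLeft_apply] at e4
  rw [e4]
  unfold brk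
  rw [K4]
  refine Finset.sum_congr rfl fun c _ => ?_
  have h4 : A * XX b E i * i (b c) * B * i (Et b E (b.coord c)) =
      (A * XX b E i * i (b c)) * (B * i (Et b E (b.coord c))) := by
    simp only [mul_assoc]
  rw [h4, LinearMap.trace_mul_comm]
  unfold XX
  rw [Finset.mul_sum, Finset.sum_mul, Finset.mul_sum, map_sum]
  refine Finset.sum_congr rfl fun a _ => ?_
  congr 1

theorem XX_com {ρ : Representation k H V} {σ : Representation k H W}
    (b : Basis ι k W) {E : (W →ₗ[k] k) →ₗ[k] W} (hE : EqE σ E)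
    {i : W →ₗ[k] Module.End k V} (hi : EqW ρ σ i) (h : H) :
    XX b E i * ρ h = ρ h * XX b E i := by
  have h1 : XX b E i = ρ h⁻¹ * XX b E i * ρ h := by
    have h2 : XX b E i = ∑ c, i (E (b.coord c)) * i (b c) := rfl
    conv_lhs => rw [h2]
    have h3 : ∀ p w, ρ h⁻¹ * (i (E p) * i w) * ρ h = i (E (p ∘ₗ σ h)) * i (σ h⁻¹ w) := by
      intro p w
      have h4 : i (E (p ∘ₗ σ h)) = ρ h⁻¹ * i (E p) * ρ h := (hi.comp hE).eq h p
      have h5 : i (σ h⁻¹ w) = ρ h⁻¹ * i w * ρ h⁻¹⁻¹ := hi.eq h⁻¹ w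
      rw [h4, h5, inv_inv]
      have h6 : ρ h⁻¹ * i (E p) * ρ h * (ρ h⁻¹ * i w * ρ h) =
        ρ h⁻¹ * i (E p) * (ρ h * ρ h⁻¹) * i w * ρ h := by simp only [mul_assoc]
      rw [h6, rr', mul_one]
      simp only [mul_assoc]
    rw [h2, Finset.mul_sum, Finset.sum_mul]
    rw [Finset.sum_congr rfl fun c _ => h3 (b.coord c) (b c)]
    -- both sides are the same contraction
    have h7 : ∀ c, i (E (b.coord c ∘ₗ σ h)) * i (σ h⁻¹ (b c)) =
        ∑ d, (b.coord c) (σ h (b d)) • (i (E (b.coord d)) * i (σ h⁻¹ (b c))) := by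
      intro c
      conv_lhs => rw [← sum_dual' b (b.coord c ∘ₗ σ h)]
      rw [map_sum, map_sum, Finset.sum_mul]
      refine Finset.sum_congr rfl fun d _ => ?_
      rw [map_smul, map_smul, smul_mul_assoc]
      rfl
    rw [Finset.sum_congr rfl fun c _ => h7 c, Finset.sum_comm]
    refine Finset.sum_congr rfl fun d _ => ?_
    have h8 : b d = ∑ c, (b.coord c) (σ h (b d)) • σ h⁻¹ (b c) := by
      have h9 : σ h⁻¹ (∑ c, (b.coord c) (σ h (b d)) • b c) = b d := by
        have h10 : ∑ c, (b.coord c) (σ h (b d)) • b c = σ h (b d) := b.sum_repr _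
        rw [h10, ← Module.End.mul_apply, r'r]
        rfl
      rw [map_sum] at h9
      rw [← h9]
      refine Finset.sum_congr rfl fun c _ => ?_
      rw [map_smul, h9]
    conv_lhs => rw [h8]
    rw [map_sum, Finset.mul_sum]
    refine Finset.sum_congr rfl fun c _ => ?_
    rw [map_smul, mul_smul_comm]
  conv_rhs => rw [h1]
  have h11 : ρ h * (ρ h⁻¹ * XX b E i * ρ h) = (ρ h * ρ h⁻¹) * XX b E i * ρ h := by
    simp only [mul_assoc]
  rw [h11, rr', one_mul]

end

end Pool.Ben69
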