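import Pool.Agent.Work.MP_26c40d_69.CORE

/-!
# MP_26c40d_al, self-dual odd summands: the contradiction (helper69)
-/

set_option autoImplicit false

namespace Pool.Ben69

open Module Pool.Benson Pool.BenStar Polynomial

section
variable {k H V W : Type} [Field k] [Group H] [AddCommGroup V] [Module k V] [AddCommGroup W]
  [Module k W]

theorem trace_sum {ι : Type} [Fintype ι] (b : Basis ι k W) (D : Module.End k W) :
    LinearMap.trace k W D = ∑ c, (b.coord c) (D (b c)) := by
  classical
  rw [LinearMap.trace_eq_matrix_trace k b D]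
  unfold Matrix.trace
  refine Finset.sum_congr rfl fun c _ => ?_
  rw [Matrix.diag_apply, LinearMap.toMatrix_apply]
  rfl

/-- In characteristic two the trace of a square is the square of the trace. -/
theorem trace_sq [CharP k 2] [FiniteDimensional k V] (A : Module.End k V) :
    LinearMap.trace k V (A * A) = LinearMap.trace k V A ^ 2 := by
  classical
  let b := Module.finBasis k V
  have h1 : ∀ i, (b.coord i) ((A * A) (b i)) =
      ∑ j, (b.coord j) (A (b i)) * (b.coord i) (A (b j)) := by
    intro i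
    rw [Module.End.mul_apply]
    conv_lhs => rw [← b.sum_repr (A (b i))]
    rw [map_sum, map_sum]
    refine Finset.sum_congr rfl fun j _ => ?_
    rw [map_smul, map_smul, smul_eq_mul]
    rfl
  rw [trace_sum b, trace_sum b, Finset.sum_congr rfl fun i _ => h1 i,
    Pool.SqSplit.sum_symm (fun m => CharTwo.add_self_eq_zero m) _ (fun i j => mul_comm _ _),
    CharTwo.sum_sq]
  exact Finset.sum_congr rfl fun i _ => (sq _).symm

variable {ι : Type} [Fintype ι]

/-- `D` with `p (D w) = tr (R * i w * j p)` -/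
noncomputable def DD (b : Basis ι k W) (i : W →ₗ[k] Module.End k V)
    (j : (W →ₗ[k] k) →ₗ[k] Module.End k V) (R : Module.End k V) : Module.End k W :=
  ∑ c, (LinearMap.trace k V ∘ₗ LinearMap.mulRight k (j (b.coord c)) ∘ₗ
    LinearMap.mulLeft k R ∘ₗ i).smulRight (b c)

theorem DD_pair (b : Basis ι k W) (i : W →ₗ[k] Module.End k V)
    (j : (W →ₗ[k] k) →ₗ[k] Module.End k V) (R : Module.End k V) (p : W →ₗ[k] k) (w : W) :
    p (DD b i j R w) = LinearMap.trace k V (R * i w * j p) := by
  unfold DD
  rw [LinearMap.sum_apply, map_sum]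
  conv_rhs => rw [← sum_dual' b p, map_sum, Finset.mul_sum, map_sum]
  refine Finset.sum_congr rfl fun c _ => ?_
  rw [LinearMap.smulRight_apply, map_smul, map_smul, mul_smul_comm, map_smul, smul_eq_mul,
    smul_eq_mul, mul_comm]
  rfl

theorem DD_com {ρ : Representation k H V} {σ : Representation k H W}
    (b : Basis ι k W) {i : W →ₗ[k] Module.End k V} (hi : EqW ρ σ i)
    {j : (W →ₗ[k] k) →ₗ[k] Module.End k V} (hj : EqD ρ σ j) {R : Module.End k V}
    (hR : ∀ h, R * ρ h = ρ h * R) (h : H) : DD b i j R * σ h = σ h * DD b i j R := by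
  ext w
  refine ext_dual (k := k) ?_
  intro p
  rw [Module.End.mul_apply, Module.End.mul_apply, DD_pair]
  have h1 : p (σ h (DD b i j R w)) = (p ∘ₗ σ h) (DD b i j R w) := rfl
  rw [h1, DD_pair, hi.eq, hj.eq]
  have h2 : R * i w * (ρ h⁻¹ * j p * ρ h) = (R * i w * ρ h⁻¹ * j p) * ρ h := by
    simp only [mul_assoc]
  have h3 : R * (ρ h * i w * ρ h⁻¹) * j p = ρ h * (R * i w * ρ h⁻¹ * j p) := by
    have : R * (ρ h * i w * ρ h⁻¹) * j p = (R * ρ h) * i w * ρ h⁻¹ * j p := by
      simp only [mul_assoc]
    rw [this, hR]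
    simp only [mul_assoc]
  rw [h2, h3, LinearMap.trace_mul_comm]

/-- `Y = ∑ j (b^c) * j (T b_c)` -/
noncomputable def YY (b : Basis ι k W) (T : W →ₗ[k] (W →ₗ[k] k))
    (j : (W →ₗ[k] k) →ₗ[k] Module.End k V) : Module.End k V :=
  ∑ c, j (b.coord c) * j (T (b c))

theorem RXY [CharP k 2] [FiniteDimensional k V] {ρ : Representation k H V}
    {σ : Representation k H W}
    (hS : Star (fun h => σ h)) (b : Basis ι k W) {E : (W →ₗ[k] k) →ₗ[k] W} (hE : EqE σ E)
    {T : W →ₗ[k] (W →ₗ[k] k)} (hT : EqT σ T)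
    {i : W →ₗ[k] Module.End k V} (hi : EqW ρ σ i)
    {j : (W →ₗ[k] k) →ₗ[k] Module.End k V} (hj : EqD ρ σ j)
    (hij : ∑ c, i (b c) * j (b.coord c) = 1) (u : k)
    (hu : ∀ D : Module.End k W, (∀ h, D * σ h = σ h * D) →
      ∑ a, (T (b a)) (D (E (b.coord a))) = u * LinearMap.trace k W D)
    {R : Module.End k V} (hR : ∀ h, R * ρ h = ρ h * R) :
    LinearMap.trace k V (R * XX b E i * YY b T j) = u * LinearMap.trace k V R := by
  have e1 : LinearMap.trace k V (R * XX b E i * YY b T j) = ∑ a, ∑ c, LinearMap.trace k V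
      (R * i (E (b.coord a)) * i (b a) * j (b.coord c) * j (T (b c))) := by
    have h0 : ∀ c, LinearMap.trace k V (R * XX b E i * (j (b.coord c) * j (T (b c)))) =
        ∑ a, LinearMap.trace k V
          (R * i (E (b.coord a)) * i (b a) * j (b.coord c) * j (T (b c))) := by
      intro c
      unfold XX
      rw [Finset.mul_sum, Finset.sum_mul, map_sum]
      refine Finset.sum_congr rfl fun a _ => ?_
      congr 1
    unfold YY
    rw [Finset.mul_sum, map_sum, Finset.sum_congr rfl fun c _ => h0 c, Finset.sum_comm]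
  have e2 := sp1 hS b ((hi.comp hE).mulLeft hR) hi hj (hj.comp hT)
  simp only [LinearMap.comp_apply, LinearMap.mulLeft_apply] at e2
  have e3 : ∀ a, ∑ c, LinearMap.trace k V
      (R * i (E (b.coord a)) * i (b c) * j (b.coord c) * j (T (b a))) =
      (T (b a)) (DD b i j R (E (b.coord a))) := by
    intro a
    rw [DD_pair, ← map_sum]
    congr 1
    have h1 : ∀ c, R * i (E (b.coord a)) * i (b c) * j (b.coord c) * j (T (b a)) =
        R * i (E (b.coord a)) * (i (b c) * j (b.coord c)) * j (T (b a)) := by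
      intro c
      simp only [mul_assoc]
    rw [Finset.sum_congr rfl fun c _ => h1 c, ← Finset.sum_mul, ← Finset.mul_sum, hij, mul_one]
  rw [e1, e2, Finset.sum_congr rfl fun a _ => e3 a, hu _ (DD_com b hi hj hR), trace_sum b]
  congr 1
  have h2 : ∀ c, (b.coord c) (DD b i j R (b c)) =
      LinearMap.trace k V (R * (i (b c) * j (b.coord c))) := by
    intro c
    rw [DD_pair, mul_assoc]
  rw [Finset.sum_congr rfl fun c _ => h2 c, ← map_sum, ← Finset.mul_sum, hij, mul_one]

/-- The contradiction in part two. -/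
theorem core [CharP k 2] [FiniteDimensional k V] {ρ : Representation k H V}
    {σ : Representation k H W} (hodd : Odd (finrank k V))
    (hS : Star (fun h => σ h)) (b : Basis ι k W) {E : (W →ₗ[k] k) →ₗ[k] W} (hE : EqE σ E)
    {T : W →ₗ[k] (W →ₗ[k] k)} (hT : EqT σ T)
    {i : W →ₗ[k] Module.End k V} (hi : EqW ρ σ i)
    {j : (W →ₗ[k] k) →ₗ[k] Module.End k V} (hj : EqD ρ σ j)
    (hij : ∑ c, i (b c) * j (b.coord c) = 1) (u : k) (hu0 : u ≠ 0)
    (hu : ∀ D : Module.End k W, (∀ h, D * σ h = σ h * D) →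
      ∑ a, (T (b a)) (D (E (b.coord a))) = u * LinearMap.trace k W D)
    (hz : ∀ R : Module.End k V, (∀ h, R * ρ h = ρ h * R) → brk b E i R R = 0) : False := by
  set X := XX b E i with hX
  set Y := YY b T j with hY
  have hXc : ∀ h, X * ρ h = ρ h * X := XX_com b hE hi
  have hYc : ∀ h, Y * ρ h = ρ h * Y := by
    intro h
    have h1 : Y * ρ h = ∑ c, j (b.coord c) * j (T (b c)) * ρ h := by
      rw [hY]
      unfold YY
      rw [Finset.sum_mul]
    have h2 : ρ h * Y = ∑ c, ρ h * (j (b.coord c) * j (T (b c))) := by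
      rw [hY]
      unfold YY
      rw [Finset.mul_sum]
    -- expand both sides in the basis
    have h3 : ∀ w, j (T (σ h w)) * ρ h = ρ h * j (T w) := (hj.comp hT)  h
    have h4 : ∀ p, ρ h * j (p ∘ₗ σ h) = j p * ρ h := hj h
    have h5 : ∑ c, ρ h * j (b.coord c ∘ₗ σ h) * j (T (σ h⁻¹ (b c))) = ρ h * Y := by
      have h6 : ∀ c, ρ h * j (b.coord c ∘ₗ σ h) * j (T (σ h⁻¹ (b c))) =
          ∑ d, (b.coord c) (σ h (b d)) • (ρ h * (j (b.coord d) * j (T (σ h⁻¹ (b c))))) := by
        intro c
        conv_lhs => rw [← sum_dual' b (b.coord c ∘ₗ σ h)]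
        rw [map_sum, Finset.mul_sum, Finset.sum_mul]
        refine Finset.sum_congr rfl fun d _ => ?_
        rw [map_smul, mul_smul_comm, smul_mul_assoc, mul_assoc]
        rfl
      rw [Finset.sum_congr rfl fun c _ => h6 c, Finset.sum_comm, h2]
      refine Finset.sum_congr rfl fun d _ => ?_
      have h8 : b d = ∑ c, (b.coord c) (σ h (b d)) • σ h⁻¹ (b c) := by
        have h10 : ∑ c, (b.coord c) (σ h (b d)) • b c = σ h (b d) := b.sum_repr _
        have h9 : σ h⁻¹ (∑ c, (b.coord c) (σ h (b d)) • b c) = b d := by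
          rw [h10, ← Module.End.mul_apply, r'r]
          rfl
        conv_lhs => rw [← h9, map_sum]
        refine Finset.sum_congr rfl fun c _ => ?_
        rw [map_smul]
      conv_rhs => rw [h8]
      rw [map_sum, map_sum, Finset.mul_sum, Finset.mul_sum]
      refine Finset.sum_congr rfl fun c _ => ?_
      rw [map_smul, map_smul, mul_smul_comm, mul_smul_comm]
    rw [← h5, h1]
    refine Finset.sum_congr rfl fun c _ => ?_
    have h11 := h3 (σ h⁻¹ (b c))
    have h12 : σ h (σ h⁻¹ (b c)) = b c := by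
      rw [← Module.End.mul_apply, rr']
      rfl
    rw [h12] at h11
    rw [h4, mul_assoc, mul_assoc, h11]
  have hpow : ∀ (Z : Module.End k V), (∀ h, Z * ρ h = ρ h * Z) → ∀ n h,
      Z ^ n * ρ h = ρ h * Z ^ n := fun Z hZ n h => com_pow (σ := ρ) hZ n h
  have hmul : ∀ (Z Z' : Module.End k V), (∀ h, Z * ρ h = ρ h * Z) →
      (∀ h, Z' * ρ h = ρ h * Z') → ∀ h, (Z * Z') * ρ h = ρ h * (Z * Z') := by
    intro Z Z' hZ hZ' h
    rw [mul_assoc, hZ', ← mul_assoc, hZ, mul_assoc]
  -- the traces of the odd powers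
  have hbrk : ∀ n (A B : Module.End k V), (∀ h, A * ρ h = ρ h * A) →
      (∀ h, B * ρ h = ρ h * B) → brk b E i A (X ^ n * B) = brk b E i (A * X ^ n) B := by
    intro n
    induction n with
    | zero =>
      intro A B _ _
      rw [pow_zero, one_mul, mul_one]
    | succ n ih =>
      intro A B hA hB
      have h1 : X ^ (n + 1) * B = X ^ n * (X * B) := by rw [pow_succ, mul_assoc]
      rw [h1, ih A (X * B) hA (hmul _ _ hXc hB),
        brk_move hS b hE hi (hmul _ _ hA (hpow X hXc n)) hB]
      rw [pow_succ, ← mul_assoc]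
  have hoddp : ∀ n, LinearMap.trace k V (X ^ (2 * n + 1)) = 0 := by
    intro n
    have h1 := hz (X ^ n) (hpow X hXc n)
    have h2 : brk b E i (X ^ n) (X ^ n) = brk b E i (X ^ n) (X ^ n * 1) := by rw [mul_one]
    have h1c : ∀ h, (1 : Module.End k V) * ρ h = ρ h * 1 := fun h => by rw [one_mul, mul_one]
    rw [h2, hbrk n _ _ (hpow X hXc n) h1c] at h1
    have h4 : ∀ Z : Module.End k V, brk b E i Z 1 = LinearMap.trace k V (Z * XX b E i) := by
      intro Z
      unfold brk XX
      rw [Finset.mul_sum, map_sum]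
      refine Finset.sum_congr rfl fun c _ => ?_
      rw [mul_one, mul_assoc]
    have h3 : brk b E i (X ^ n * X ^ n) 1 = LinearMap.trace k V (X ^ n * X ^ n * X) := h4 _
    rw [h3] at h1
    rw [pow_succ, two_mul, pow_add]
    exact h1
  have hall : ∀ m, 1 ≤ m → LinearMap.trace k V (X ^ m) = 0 := by
    intro m
    induction m using Nat.strong_induction_on with
    | _ m ih =>
      intro hm
      rcases Nat.even_or_odd' m with ⟨n, hn | hn⟩
      · have h1 : X ^ m = X ^ n * X ^ n := by rw [hn, two_mul, pow_add]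
        rw [h1, trace_sq, ih n (by omega) (by omega)]
        exact zero_pow two_ne_zero
      · rw [hn]
        exact hoddp n
  -- the products
  have hprod : ∀ n (A : Module.End k V), (∀ h, A * ρ h = ρ h * A) →
      LinearMap.trace k V (A * X ^ n * Y ^ n) = u ^ n * LinearMap.trace k V A := by
    intro n
    induction n with
    | zero =>
      intro A _
      rw [pow_zero, pow_zero, mul_one, mul_one, pow_zero, one_mul]
    | succ n ih =>
      intro A hA
      have h1 : A * X ^ (n + 1) * Y ^ (n + 1) = (A * X ^ n * X * Y) * Y ^ n := by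
        rw [pow_succ, pow_succ']
        simp only [mul_assoc]
      have h2 : Y ^ n * (A * X ^ n * X * Y) = (Y ^ n * (A * X ^ n)) * X * Y := by
        simp only [mul_assoc]
      rw [h1, LinearMap.trace_mul_comm, h2]
      have h3 := RXY hS b hE hT hi hj hij u hu
        (hmul _ _ (hpow Y hYc n) (hmul _ _ hA (hpow X hXc n)))
      rw [← hX, ← hY] at h3
      rw [h3, LinearMap.trace_mul_comm, ih A hA, pow_succ]
      ring
  -- an annihilating polynomial
  obtain ⟨q, hq, hq0⟩ := Polynomial.exists_eq_pow_rootMultiplicity_mul_and_not_dvd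
    (minpoly k X) (minpoly.ne_zero (Algebra.IsIntegral.isIntegral X)) 0
  rw [map_zero, sub_zero] at hq hq0
  rw [Polynomial.X_dvd_iff] at hq0
  set r := (minpoly k X).rootMultiplicity 0
  set A := Polynomial.aeval X q with hAdef
  have hA0 : A * X ^ r = 0 := by
    have h1 : Polynomial.aeval X (minpoly k X) = 0 := minpoly.aeval k X
    rw [hq, map_mul, map_pow, Polynomial.aeval_X] at h1
    have h2 : A * X ^ r = X ^ r * A := by
      have h3 : Polynomial.aeval X (q * Polynomial.X ^ r) =
          Polynomial.aeval X (Polynomial.X ^ r * q) := by rw [mul_comm]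
      rw [map_mul, map_mul, map_pow, Polynomial.aeval_X] at h3
      exact h3
    rw [h2]
    exact h1
  have hAs : A = ∑ m ∈ Finset.range (q.natDegree + 1), q.coeff m • X ^ m := by
    rw [hAdef, Polynomial.aeval_eq_sum_range]
  have hAc : ∀ h, A * ρ h = ρ h * A := by
    intro h
    rw [hAs, Finset.sum_mul, Finset.mul_sum]
    refine Finset.sum_congr rfl fun m _ => ?_
    rw [smul_mul_assoc, mul_smul_comm, hpow X hXc]
  have hAt : LinearMap.trace k V A = q.coeff 0 := by
    rw [hAs, map_sum, Finset.sum_eq_single 0]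
    · rw [pow_zero, map_smul, LinearMap.trace_one, cast_odd hodd, smul_eq_mul, mul_one]
    · intro m _ hm
      rw [map_smul, hall m (by omega), smul_zero]
    · intro h
      exact absurd (Finset.mem_range.2 (by omega)) h
  have hfin := hprod r A hAc
  rw [hA0, zero_mul, map_zero, hAt] at hfin
  rcases mul_eq_zero.1 hfin.symm with h | h
  · exact pow_ne_zero r hu0 h
  · exact hq0 h

end

end Pool.Ben69
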