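import Pool.Agent.Work.MP_26c40d_69.Base2

/-!
# MP_26c40d_al, block CYD: one Jordan block is self-dual and indecomposable (helper16)
-/

set_option autoImplicit false

namespace Pool.Ben69

open Module Pool.Benson Polynomial

section CYD
variable {k : Type} [Field k]

/-- evaluation at the operator `A` and the vector `x`. -/
noncomputable def CYD_f {V : Type} [AddCommGroup V] [Module k V] (A : Module.End k V) (x : V) :
    k[X] →ₗ[k] V :=
  (LinearMap.applyₗ x) ∘ₗ (aeval A : k[X] →ₐ[k] Module.End k V).toLinearMap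

theorem CYD_f_apply {V : Type} [AddCommGroup V] [Module k V] (A : Module.End k V) (x : V)
    (p : k[X]) : CYD_f A x p = aeval A p x := rfl

theorem CYD_eigen {V : Type} [AddCommGroup V] [Module k V] (A : Module.End k V) (y : V)
    (hy : A y = y) (p : k[X]) : aeval A p y = p.eval 1 • y := by
  induction p using Polynomial.induction_on' with
  | add p q hp hq => rw [map_add, LinearMap.add_apply, hp, hq, eval_add, add_smul]
  | monomial n a =>
    have h : ∀ n : ℕ, (A ^ n) y = y := by
      intro n
      induction n with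
      | zero => simp
      | succ n ih => rw [pow_succ, Module.End.mul_apply, hy, ih]
    rw [aeval_monomial, Module.End.mul_apply, h, eval_monomial, one_pow, mul_one,
      Module.algebraMap_end_apply]

theorem CYD_ker {V : Type} [AddCommGroup V] [Module k V] (A : Module.End k V) (m : ℕ)
    (hm : 1 ≤ m) (h0 : (A - 1) ^ m = 0) (x : V) (hx : ((A - 1) ^ (m - 1)) x ≠ 0) (p : k[X]) :
    aeval A p x = 0 ↔ (X - C 1) ^ m ∣ p := by
  have haX : aeval A (X - C (1 : k)) = A - 1 := by simp
  constructor
  · intro hp
    by_cases hp0 : p = 0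
    · rw [hp0]; exact dvd_zero _
    obtain ⟨u, hu⟩ : (X - C 1) ^ (rootMultiplicity 1 p) ∣ p := pow_rootMultiplicity_dvd p 1
    have hu1 : u.eval 1 ≠ 0 := by
      intro h
      have h1 : (X - C (1 : k)) ∣ u := dvd_iff_isRoot.2 h
      obtain ⟨w, hw⟩ := h1
      have h2 : (X - C (1 : k)) ^ (rootMultiplicity 1 p + 1) ∣ p :=
        ⟨w, by rw [pow_succ, mul_assoc, ← hw]; exact hu⟩
      have := (le_rootMultiplicity_iff hp0).2 h2
      omega
    by_cases hj : m ≤ rootMultiplicity 1 p
    · exact (pow_dvd_pow _ hj).trans ⟨u, hu⟩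
    exfalso
    push Not at hj
    set j := rootMultiplicity 1 p with hjdef
    set y := ((A - 1) ^ (m - 1)) x with hy
    have hAy : A y = y := by
      have h1 : ((A - 1) ^ m) x = 0 := by rw [h0]; rfl
      have h2 : (A - 1) y = 0 := by
        rw [hy, ← Module.End.mul_apply, ← pow_succ', Nat.sub_add_cancel hm]
        exact h1
      have h3 : A y - y = 0 := h2
      exact sub_eq_zero.1 h3
    have h4 : aeval A u y = 0 := by
      have h6 : y = ((A - 1) ^ (m - 1 - j)) (((A - 1) ^ j) x) := by
        rw [hy, ← Module.End.mul_apply, ← pow_add]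
        congr 2
        omega
      have h7 : aeval A p x = (aeval A u) (((A - 1) ^ j) x) := by
        rw [hu, mul_comm, map_mul, Module.End.mul_apply, map_pow, haX]
      have hc : Commute (aeval A u) ((A - 1) ^ (m - 1 - j)) := by
        have : (A - 1) ^ (m - 1 - j) = aeval A ((X - C (1 : k)) ^ (m - 1 - j)) := by
          rw [map_pow, haX]
        rw [this]
        exact (Commute.all u _).map (aeval A)
      rw [h6, ← Module.End.mul_apply, hc.eq, Module.End.mul_apply, ← h7, hp, map_zero]
    rw [CYD_eigen A y hAy u, smul_eq_zero] at h4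
    rcases h4 with h4 | h4
    · exact hu1 h4
    · exact hx h4
  · rintro ⟨q, rfl⟩
    rw [map_mul, map_pow, haX, h0, zero_mul]
    rfl

theorem CYD_finrank {V W : Type} [AddCommGroup V] [Module k V] [AddCommGroup W] [Module k W]
    (f : k[X] →ₗ[k] V) (f' : k[X] →ₗ[k] W) (h : LinearMap.ker f = LinearMap.ker f') :
    finrank k (LinearMap.range f) = finrank k (LinearMap.range f') :=
  LinearEquiv.finrank_eq (f.quotKerEquivRange.symm.trans
    ((Submodule.quotEquivOfEq _ _ h).trans f'.quotKerEquivRange))

end CYD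

theorem stmt_CYD : Stmt_CYD := by
  intro k H T _ _ _ _ _ _ τ g hτ hpos
  obtain ⟨hgen, hnil, v, hv⟩ := hτ
  classical
  have hTn : Nontrivial T := Module.finrank_pos_iff.1 hpos
  set G : Module.End k T := τ g with hG
  set N : Module.End k T := G - 1 with hN
  -- nilpotency index
  have hex : ∃ m, N ^ m = 0 := hnil
  set m := Nat.find hex with hm
  have hm0 : N ^ m = 0 := Nat.find_spec hex
  have hm1 : 1 ≤ m := by
    by_contra hc
    have : m = 0 := by omega
    rw [this, pow_zero] at hm0
    exact one_ne_zero hm0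
  have hm2 : N ^ (m - 1) ≠ 0 := Nat.find_min hex (by omega)
  -- `v` generates
  have hspan : LinearMap.range (CYD_f G v) = ⊤ := by
    rw [eq_top_iff, ← hv, Submodule.span_le]
    rintro _ ⟨n, rfl⟩
    refine ⟨X ^ n, ?_⟩
    rw [CYD_f_apply, map_pow, aeval_X]
  have hNv : (N ^ (m - 1)) v ≠ 0 := by
    intro h
    apply hm2
    ext x
    obtain ⟨p, rfl⟩ : x ∈ LinearMap.range (CYD_f G v) := by rw [hspan]; trivial
    rw [CYD_f_apply, LinearMap.zero_apply, ← Module.End.mul_apply]
    have hc : Commute (N ^ (m - 1)) (aeval G p) := by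
      have : N ^ (m - 1) = aeval G ((X - C (1 : k)) ^ (m - 1)) := by
        rw [map_pow]; simp [hN]
      rw [this]
      exact (Commute.all _ p).map (aeval G)
    rw [hc.eq, Module.End.mul_apply, h, map_zero]
  have hker1 : ∀ p : k[X], p ∈ LinearMap.ker (CYD_f G v) ↔ (X - C 1) ^ m ∣ p := by
    intro p
    rw [LinearMap.mem_ker, CYD_f_apply]
    exact CYD_ker G m hm1 hm0 v hNv p
  refine ⟨?_, hTn, ?_⟩
  · -- self-dual
    set D : Module.End k (Dual k T) := τ.dual g with hD
    obtain ⟨l, hl⟩ : ∃ l : Dual k T, l ((N ^ (m - 1)) v) ≠ 0 := by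
      by_contra hc
      push Not at hc
      exact hNv ((Module.forall_dual_apply_eq_zero_iff k _).1 hc)
    have hGi : τ g⁻¹ * G = 1 := by
      rw [hG, ← map_mul, inv_mul_cancel, map_one]
    have hGi' : G * τ g⁻¹ = 1 := by
      rw [hG, ← map_mul, mul_inv_cancel, map_one]
    set N' : Module.End k T := τ g⁻¹ - 1 with hN'
    have hNN : N' = -(τ g⁻¹ * N) := by
      rw [hN', hN, mul_sub, hGi, mul_one]; abel
    have hcomm : Commute (τ g⁻¹) N := by
      show τ g⁻¹ * N = N * τ g⁻¹
      rw [hN, mul_sub, sub_mul, hGi, hGi', mul_one, one_mul]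
    have hDpow : ∀ n : ℕ, ∀ f : Dual k T, ((D - 1) ^ n) f = f ∘ₗ (N' ^ n) := by
      intro n
      induction n with
      | zero => intro f; simp; rfl
      | succ n ih =>
        intro f
        rw [pow_succ, Module.End.mul_apply, ih, pow_succ']
        ext x
        show ((D - 1) f) ((N' ^ n) x) = f (N' ((N' ^ n) x))
        have hx : ∀ z : T, ((D - 1) f) z = f (N' z) := by
          intro z
          show (D f) z - f z = f (τ g⁻¹ z - z)
          rw [map_sub]; rfl
        exact hx _
    have hNpow : ∀ n : ℕ, N' ^ n = (-(τ g⁻¹)) ^ n * N ^ n := by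
      intro n
      rw [hNN, ← neg_mul, (hcomm.neg_left).mul_pow]
    have hD0 : (D - 1) ^ m = 0 := by
      apply LinearMap.ext
      intro f
      rw [hDpow, hNpow, hm0, mul_zero]
      exact LinearMap.comp_zero f
    have hDl : ((D - 1) ^ (m - 1)) l ≠ 0 := by
      intro h
      rw [hDpow, hNpow] at h
      -- evaluate at G^(m-1) v up to sign
      have hc2 : Commute (G ^ (m - 1)) (N ^ (m - 1)) := by
        have : Commute G N := by
          show G * N = N * G
          rw [hN, mul_sub, sub_mul, mul_one, one_mul]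
        exact this.pow_pow _ _
      have h1 : (-(τ g⁻¹)) ^ (m - 1) * N ^ (m - 1) * G ^ (m - 1)
          = (-1 : Module.End k T) ^ (m - 1) * N ^ (m - 1) := by
        rw [mul_assoc, ← hc2.eq, ← mul_assoc, neg_pow, mul_assoc ((-1) ^ (m - 1))]
        congr 1
        have hc3 : Commute (τ g⁻¹) G := by
          show τ g⁻¹ * G = G * τ g⁻¹
          rw [hGi, hGi']
        rw [← hc3.mul_pow, hGi, one_pow, mul_one]
      have h2 : l (((-1 : Module.End k T) ^ (m - 1) * N ^ (m - 1)) v) = 0 := by
        rw [← h1, Module.End.mul_apply]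
        have := congrArg (fun q : Dual k T => q ((G ^ (m - 1)) v)) h
        exact this
      have h3 : ∀ n : ℕ, ∀ z : T, ((-1 : Module.End k T) ^ n) z = z ∨
          ((-1 : Module.End k T) ^ n) z = -z := by
        intro n z
        rcases neg_one_pow_eq_or (Module.End k T) n with h | h
        · left; rw [h]; rfl
        · right; rw [h]; rfl
      rw [Module.End.mul_apply] at h2
      rcases h3 (m - 1) ((N ^ (m - 1)) v) with h4 | h4
      · rw [h4] at h2; exact hl h2
      · rw [h4, map_neg, neg_eq_zero] at h2; exact hl h2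
    have hker2 : ∀ p : k[X], p ∈ LinearMap.ker (CYD_f D l) ↔ (X - C 1) ^ m ∣ p := by
      intro p
      rw [LinearMap.mem_ker, CYD_f_apply]
      exact CYD_ker D m hm1 hD0 l hDl p
    have hkk : LinearMap.ker (CYD_f G v) = LinearMap.ker (CYD_f D l) := by
      ext p; rw [hker1, hker2]
    have hr1 : finrank k (LinearMap.range (CYD_f D l)) = finrank k (Dual k T) := by
      rw [← CYD_finrank _ _ hkk, hspan, finrank_top, Subspace.dual_finrank_eq]
    have hr2 : LinearMap.range (CYD_f D l) = ⊤ := Submodule.eq_top_of_finrank_eq hr1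
    let e1 := (CYD_f G v).quotKerEquivOfSurjective (LinearMap.range_eq_top.1 hspan)
    let e2 := (CYD_f D l).quotKerEquivOfSurjective (LinearMap.range_eq_top.1 hr2)
    let θ : T ≃ₗ[k] Dual k T := (e1.symm.trans (Submodule.quotEquivOfEq _ _ hkk)).trans e2
    have hθ : ∀ p : k[X], θ (CYD_f G v p) = CYD_f D l p := by
      intro p
      have h1 : e1.symm (CYD_f G v p) = Submodule.Quotient.mk p := by
        rw [LinearEquiv.symm_apply_eq]; rfl
      show e2 ((Submodule.quotEquivOfEq _ _ hkk) (e1.symm (CYD_f G v p))) = _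
      rw [h1]; rfl
    have hθG : ∀ x : T, θ (G x) = D (θ x) := by
      intro x
      obtain ⟨p, rfl⟩ : x ∈ LinearMap.range (CYD_f G v) := by rw [hspan]; trivial
      have h1 : G (CYD_f G v p) = CYD_f G v (X * p) := by
        rw [CYD_f_apply, CYD_f_apply, map_mul, aeval_X, Module.End.mul_apply]
      have h2 : D (CYD_f D l p) = CYD_f D l (X * p) := by
        rw [CYD_f_apply, CYD_f_apply, map_mul, aeval_X, Module.End.mul_apply]
      rw [h1, hθ, hθ, h2]
    have hθn : ∀ n : ℕ, ∀ x : T, θ ((G ^ n) x) = (D ^ n) (θ x) := by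
      intro n
      induction n with
      | zero => intro x; rfl
      | succ n ih =>
        intro x
        rw [pow_succ', pow_succ', Module.End.mul_apply, Module.End.mul_apply, hθG, ih]
    refine ⟨θ, fun h x => ?_⟩
    obtain ⟨n, hn⟩ := hgen h
    have hdual : τ.dual h = D ^ n := by
      have h1 : τ h⁻¹ = (τ g⁻¹) ^ n := by
        have h2 : τ h⁻¹ * τ h = 1 := by rw [← map_mul, inv_mul_cancel, map_one]
        have h3 : τ h * (τ g⁻¹) ^ n = 1 := by
          have hc3 : Commute G (τ g⁻¹) := by
            show G * τ g⁻¹ = τ g⁻¹ * G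
            rw [hGi, hGi']
          rw [hn, ← hc3.mul_pow, hGi', one_pow]
        calc τ h⁻¹ = τ h⁻¹ * (τ h * (τ g⁻¹) ^ n) := by rw [h3, mul_one]
          _ = (τ g⁻¹) ^ n := by rw [← mul_assoc, h2, one_mul]
      have h4 : ∀ j : ℕ, ∀ f : Dual k T, (D ^ j) f = f ∘ₗ ((τ g⁻¹) ^ j) := by
        intro j
        induction j with
        | zero => intro f; rfl
        | succ j ih =>
          intro f
          rw [pow_succ, Module.End.mul_apply, ih, pow_succ']
          ext x
          rfl
      apply LinearMap.ext
      intro f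
      rw [h4, ← h1]
      rfl
    rw [hn, hdual]
    exact hθn n x
  · -- indecomposable
    have key : ∀ A : Submodule k T, IsInv τ A → ∀ a ∈ A, (N ^ (m - 1)) a ≠ 0 → A = ⊤ := by
      intro A hA a ha hNa
      have hker3 : LinearMap.ker (CYD_f G a) = LinearMap.ker (CYD_f G v) := by
        ext p
        rw [hker1, LinearMap.mem_ker, CYD_f_apply]
        exact CYD_ker G m hm1 hm0 a hNa p
      have hr1 : finrank k (LinearMap.range (CYD_f G a)) = finrank k T := by
        rw [CYD_finrank _ _ hker3, hspan, finrank_top]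
      have hr2 : LinearMap.range (CYD_f G a) = ⊤ := Submodule.eq_top_of_finrank_eq hr1
      rw [eq_top_iff, ← hr2]
      rintro _ ⟨p, rfl⟩
      rw [CYD_f_apply]
      induction p using Polynomial.induction_on' with
      | add p q hp hq => rw [map_add, LinearMap.add_apply]; exact A.add_mem hp hq
      | monomial n c =>
        rw [aeval_monomial, Module.End.mul_apply, Module.algebraMap_end_apply]
        apply A.smul_mem
        have : ∀ n : ℕ, (G ^ n) a ∈ A := by
          intro n
          induction n with
          | zero => exact ha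
          | succ n ih => rw [pow_succ', Module.End.mul_apply]; exact hA g _ ih
        exact this n
    intro A B hA hB hAB
    obtain ⟨a, ha, b, hb, hab⟩ := Submodule.mem_sup.1
      (show v ∈ A ⊔ B by rw [hAB.sup_eq_top]; trivial)
    by_cases h : (N ^ (m - 1)) a = 0
    · left
      have h2 : (N ^ (m - 1)) b ≠ 0 := by
        intro h3
        apply hNv
        rw [← hab, map_add, h, h3, add_zero]
      have h4 := key B hB b hb h2
      have h5 := hAB.inf_eq_bot
      rw [h4, inf_top_eq] at h5
      exact h5
    · right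
      have h4 := key A hA a ha h
      have h5 := hAB.inf_eq_bot
      rw [h4, top_inf_eq] at h5
      exact h5

end Pool.Ben69
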