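import Pool.Agent.Work.MP_26c40d_69.SD

/-!
# MP_26c40d_al, self-dual odd summands: the trace form on V ⊗ V* (helper69)
-/

set_option autoImplicit false

namespace Pool.Ben69

open Module Pool.Benson TensorProduct

section
variable {k G V : Type} [Field k] [Group G] [AddCommGroup V] [Module k V]

/-- The map `V ⊗ V* → End V`. -/
noncomputable def cc (k V : Type) [Field k] [AddCommGroup V] [Module k V] :
    V ⊗[k] Dual k V →ₗ[k] Module.End k V :=
  TensorProduct.lift ((LinearMap.smulRightₗ : (V →ₗ[k] k) →ₗ[k] V →ₗ[k] V →ₗ[k] V).flip)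

theorem cc_tmul (x : V) (ξ : Dual k V) : cc k V (x ⊗ₜ ξ) = ξ.smulRight x := rfl

theorem cc_surj [FiniteDimensional k V] : Function.Surjective (cc k V) := by
  intro X
  let b := Module.finBasis k V
  refine ⟨∑ a, X (b a) ⊗ₜ b.coord a, ?_⟩
  rw [map_sum]
  refine b.ext fun a => ?_
  rw [LinearMap.sum_apply, Finset.sum_eq_single a]
  · rw [cc_tmul, LinearMap.smulRight_apply, Basis.coord_apply, Basis.repr_self,
      Finsupp.single_eq_same, one_smul]
  · intro c _ hc
    rw [cc_tmul, LinearMap.smulRight_apply, Basis.coord_apply, Basis.repr_self,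
      Finsupp.single_eq_of_ne hc, zero_smul]
  · intro h
    exact absurd (Finset.mem_univ a) h

theorem cc_inj [FiniteDimensional k V] : Function.Injective (cc k V) := by
  refine (LinearMap.injective_iff_surjective_of_finrank_eq_finrank ?_).mpr cc_surj
  rw [Module.finrank_tensorProduct, Subspace.dual_finrank_eq, Module.finrank_linearMap]

theorem cc_act (ρ : Representation k G V) (g : G) (m : V ⊗[k] Dual k V) :
    cc k V ((ρ.tprod ρ.dual) g m) * ρ g = ρ g * cc k V m := by
  induction m using TensorProduct.induction_on with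
  | zero => rw [map_zero, map_zero, zero_mul, mul_zero]
  | add x y hx hy => rw [map_add, map_add, add_mul, hx, hy, map_add, mul_add]
  | tmul x ξ =>
    have h1 : (ρ.tprod ρ.dual) g (x ⊗ₜ ξ) = (ρ g x) ⊗ₜ (ρ.dual g ξ) := rfl
    rw [h1, cc_tmul, cc_tmul]
    ext v
    rw [Module.End.mul_apply, Module.End.mul_apply, LinearMap.smulRight_apply,
      LinearMap.smulRight_apply, map_smul]
    have h2 : (ρ.dual g ξ) (ρ g v) = ξ (ρ g⁻¹ (ρ g v)) := rfl
    rw [h2, inv_apply']

/-- The trace form. -/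
noncomputable def tf (k V : Type) [Field k] [AddCommGroup V] [Module k V] :
    V ⊗[k] Dual k V →ₗ[k] V ⊗[k] Dual k V →ₗ[k] k :=
  ((LinearMap.mul k (Module.End k V)).compr₂ (LinearMap.trace k V)).compl₁₂ (cc k V) (cc k V)

theorem tf_apply (m m' : V ⊗[k] Dual k V) :
    tf k V m m' = LinearMap.trace k V (cc k V m * cc k V m') := rfl

theorem tf_symm (m m' : V ⊗[k] Dual k V) : tf k V m m' = tf k V m' m := by
  rw [tf_apply, tf_apply, LinearMap.trace_mul_comm]

theorem tf_inv (ρ : Representation k G V) (g : G) (m m' : V ⊗[k] Dual k V) :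
    tf k V ((ρ.tprod ρ.dual) g m) ((ρ.tprod ρ.dual) g m') = tf k V m m' := by
  have h1 : ρ g * ρ g⁻¹ = 1 := by rw [← map_mul, mul_inv_cancel, map_one]
  have h1' : ρ g⁻¹ * ρ g = 1 := by rw [← map_mul, inv_mul_cancel, map_one]
  have h2 : ∀ m, cc k V ((ρ.tprod ρ.dual) g m) = ρ g * cc k V m * ρ g⁻¹ := by
    intro m
    rw [← cc_act, mul_assoc, h1, mul_one]
  rw [tf_apply, tf_apply, h2, h2]
  have h3 : ρ g * cc k V m * ρ g⁻¹ * (ρ g * cc k V m' * ρ g⁻¹) =
      ρ g * (cc k V m * cc k V m' * ρ g⁻¹) := by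
    have : ρ g * cc k V m * ρ g⁻¹ * (ρ g * cc k V m' * ρ g⁻¹) =
      ρ g * cc k V m * (ρ g⁻¹ * ρ g) * cc k V m' * ρ g⁻¹ := by simp only [mul_assoc]
    rw [this, h1', mul_one]
    simp only [mul_assoc]
  rw [h3, LinearMap.trace_mul_comm, mul_assoc, h1', mul_one]

theorem tf_nd [FiniteDimensional k V] (m : V ⊗[k] Dual k V) (h : ∀ m', tf k V m m' = 0) :
    m = 0 := by
  apply cc_inj
  rw [map_zero]
  ext v
  rw [LinearMap.zero_apply]
  rw [← Module.forall_dual_apply_eq_zero_iff k]
  intro p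
  have h1 := h (v ⊗ₜ p)
  rw [tf_apply, cc_tmul] at h1
  have h2 : cc k V m * (p.smulRight v : Module.End k V) = p.smulRight (cc k V m v) := by
    ext x
    rw [Module.End.mul_apply, LinearMap.smulRight_apply, LinearMap.smulRight_apply, map_smul]
  rw [h2, LinearMap.trace_smulRight] at h1
  exact h1

end

end Pool.Ben69
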