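import Pool.Agent.Work.MP_26c40d_69.CORE2
import Pool.Agent.Work.MP_26c40d_69.ALT
import Pool.Agent.Work.MP_26c40d_69.TV
import Pool.Agent.Work.MP_26c40d_31.Main
import Pool.Agent.Work.MP_26c40d_sq.Main

/-!
# MP_26c40d_al, self-dual odd summands: assembly (helper69)
-/

set_option autoImplicit false

namespace Pool.Ben69

open Module Pool.Benson Pool.BenStar TensorProduct

section
variable {k H V W : Type} [Field k] [Group H] [AddCommGroup V] [Module k V] [AddCommGroup W]
  [Module k W]

/-- Even summands do not contribute to traces. -/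
theorem ev_trace [IsAlgClosed k] [CharP k 2] [FiniteDimensional k W] (σ : Representation k H W)
    (W₀ W' : Submodule k W) (hW : IsInv σ W₀) (hW' : IsInv σ W') (hc : IsCompl W₀ W')
    (heven : ∀ (U U' : Submodule k W) (hU : IsInv σ U), IsInv σ U' → U ⊓ U' = ⊥ →
      U ⊔ U' = W' → IsIndec (restr σ U hU) → Even (finrank k U))
    (D : Module.End k W) (hD : ∀ h, D * σ h = σ h * D) :
    LinearMap.trace k W (D * (1 - W₀.subtype ∘ₗ W₀.projectionOnto W' hc)) = 0 := by
  classical
  let e : Module.End k W := W₀.subtype ∘ₗ W₀.projectionOnto W' hc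
  have eW : ∀ a ∈ W₀, e a = a := by
    intro a ha
    have := Submodule.projectionOnto_apply_left hc ⟨a, ha⟩
    simp only [e, LinearMap.comp_apply, Submodule.subtype_apply]
    rw [this]
  have eW' : ∀ b ∈ W', e b = 0 := by
    intro b hb
    have := (Submodule.projectionOnto_apply_eq_zero_iff hc (x := b)).2 hb
    simp only [e, LinearMap.comp_apply, Submodule.subtype_apply]
    rw [this]
    rfl
  have eval : ∀ v, e v ∈ W₀ := fun v => (W₀.projectionOnto W' hc v).2
  have dec : ∀ u : W, ∃ a ∈ W₀, ∃ b ∈ W', a + b = u := by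
    intro u
    have : u ∈ W₀ ⊔ W' := by rw [hc.sup_eq_top]; trivial
    exact Submodule.mem_sup.1 this
  have hee : e * e = e := by
    ext v
    exact eW _ (eval v)
  have ecom' : ∀ g v, e (σ g v) = σ g (e v) := by
    intro g v
    obtain ⟨a, ha, b, hb, rfl⟩ := dec v
    rw [map_add, map_add, map_add, eW a ha, eW' b hb, eW _ (hW g a ha), eW' _ (hW' g b hb),
      add_zero, add_zero]
  have ecom : Com (fun g => σ g) e := by
    intro g
    ext v
    exact ecom' g v
  have e1mem : ∀ v, (1 - e : Module.End k W) v ∈ W' := by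
    intro v
    obtain ⟨a, ha, b, hb, rfl⟩ := dec v
    have : (1 - e : Module.End k W) (a + b) = b := by
      simp only [LinearMap.sub_apply, Module.End.one_apply, map_add, eW a ha, eW' b hb]
      abel
    rw [this]
    exact hb
  have ecom1 : Com (fun g => σ g) (1 - e) := by
    intro g
    rw [sub_mul, mul_sub, one_mul, mul_one, ecom g]
  have hee1 : (1 - e) * (1 - e) = 1 - e := by
    rw [sub_mul, one_mul, mul_sub, mul_one, hee, sub_self, sub_zero]
  obtain ⟨n, ε, hε, horth, hsum⟩ := stmt_PRIM k W H (fun g => σ g) (1 - e) ecom1 hee1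
  -- the primitive idempotents have even rank
  have hrank : ∀ x, Even (finrank k (LinearMap.range (ε x))) := by
    intro x
    have h1 : (1 - e) * ε x = ε x := by
      rw [← hsum, Finset.sum_mul, Finset.sum_eq_single x]
      · exact (hε x).2.1
      · intro y _ hy
        exact horth y x hy
      · intro hx
        exact absurd (Finset.mem_univ x) hx
    have h2 : ε x * (1 - e) = ε x := by
      rw [← hsum, Finset.mul_sum, Finset.sum_eq_single x]
      · exact (hε x).2.1
      · intro y _ hy
        exact horth x y hy.symm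
      · intro hx
        exact absurd (Finset.mem_univ x) hx
    have hcom' : Com (fun g => σ g) (1 - e - ε x) := by
      intro g
      rw [sub_mul, mul_sub, ecom1 g, (hε x).1 g]
    have h3 : (1 - e - ε x) * ε x = 0 := by
      rw [sub_mul, h1, (hε x).2.1, sub_self]
    have h4 : ε x * (1 - e - ε x) = 0 := by
      rw [mul_sub, h2, (hε x).2.1, sub_self]
    refine heven (LinearMap.range (ε x)) (LinearMap.range (1 - e - ε x))
      (PSUB.invSub_range (hε x).1) (PSUB.invSub_range hcom') ?_ ?_ (PSUB.indec_range (hε x))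
    · rw [Submodule.eq_bot_iff]
      rintro _ ⟨⟨v, rfl⟩, ⟨w, hw⟩⟩
      have h5 : ε x (ε x v) = ε x v := congrArg (fun f => f v) (hε x).2.1
      have h6 : ε x ((1 - e - ε x : Module.End k W) w) = 0 := congrArg (fun f => f w) h4
      rw [hw, h5] at h6
      exact h6
    · apply le_antisymm
      · rw [sup_le_iff]
        constructor
        · rintro _ ⟨v, rfl⟩
          have h5 : (1 - e : Module.End k W) (ε x v) = ε x v := congrArg (fun f => f v) h1
          rw [← h5]
          exact e1mem _
        · rintro _ ⟨v, rfl⟩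
          have h5 : (1 - e - ε x : Module.End k W) v = (1 - e : Module.End k W) v -
              (1 - e : Module.End k W) (ε x v) := by
            have h5 : (1 - e : Module.End k W) (ε x v) = ε x v := congrArg (fun f => f v) h1
            rw [h5]
            rfl
          rw [h5]
          exact Submodule.sub_mem _ (e1mem _) (e1mem _)
      · intro v hv
        rw [Submodule.mem_sup]
        refine ⟨ε x v, ⟨v, rfl⟩, (1 - e - ε x : Module.End k W) v, ⟨v, rfl⟩, ?_⟩
        have : (1 - e - ε x : Module.End k W) v = v - e v - ε x v := rfl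
        rw [this, eW' v hv]
        abel
  change LinearMap.trace k W (D * (1 - e)) = 0
  rw [← hsum, Finset.mul_sum, map_sum]
  refine Finset.sum_eq_zero fun x _ => ?_
  exact CONV.trace_corner (fun g => σ g) (stmt_LOC stmt_IDEM) (hε x) (hrank x) hD

variable {ι : Type} [Fintype ι]

theorem trd (b : Basis ι k W) (E : (W →ₗ[k] k) →ₗ[k] W) (K : W →ₗ[k] (W →ₗ[k] k)) :
    ∑ a, K (E (b.coord a)) (b a) = LinearMap.trace k W (E ∘ₗ K) := by
  rw [trace_sum b]
  have h1 : ∀ c, (b.coord c) ((E ∘ₗ K) (b c)) =
      ∑ d, K (b c) (b d) * (b.coord c) (E (b.coord d)) := by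
    intro c
    rw [LinearMap.comp_apply]
    conv_lhs => rw [← sum_dual' b (K (b c))]
    rw [map_sum, map_sum]
    refine Finset.sum_congr rfl fun d _ => ?_
    rw [map_smul, map_smul, smul_eq_mul]
  have h2 : ∀ d, K (E (b.coord d)) (b d) =
      ∑ c, K (b c) (b d) * (b.coord c) (E (b.coord d)) := by
    intro d
    conv_lhs => rw [← b.sum_repr (E (b.coord d))]
    rw [map_sum, LinearMap.sum_apply]
    refine Finset.sum_congr rfl fun c _ => ?_
    rw [map_smul, LinearMap.smul_apply, smul_eq_mul, mul_comm]
    rfl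
  rw [Finset.sum_congr rfl fun c _ => h1 c, Finset.sum_congr rfl fun c _ => h2 c,
    Finset.sum_comm]

/-- The contraction of two equivariant maps is equivariant. -/
theorem con_com {ρ : Representation k H V} {σ : Representation k H W} (b : Basis ι k W)
    {i : W →ₗ[k] Module.End k V} (hi : EqW ρ σ i)
    {j : (W →ₗ[k] k) →ₗ[k] Module.End k V} (hj : EqD ρ σ j) (h : H) :
    (∑ c, i (b c) * j (b.coord c)) * ρ h = ρ h * ∑ c, i (b c) * j (b.coord c) := by
  have h5 : ∑ c, ρ h * i (σ h⁻¹ (b c)) * j (b.coord c ∘ₗ σ h) =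
      ρ h * ∑ c, i (b c) * j (b.coord c) := by
    have h6 : ∀ c, ρ h * i (σ h⁻¹ (b c)) * j (b.coord c ∘ₗ σ h) =
        ∑ d, (b.coord c) (σ h (b d)) • (ρ h * (i (σ h⁻¹ (b c)) * j (b.coord d))) := by
      intro c
      conv_lhs => rw [← sum_dual' b (b.coord c ∘ₗ σ h)]
      rw [map_sum, Finset.mul_sum]
      refine Finset.sum_congr rfl fun d _ => ?_
      rw [map_smul, mul_smul_comm, mul_assoc]
      rfl
    rw [Finset.sum_congr rfl fun c _ => h6 c, Finset.sum_comm, Finset.mul_sum]
    refine Finset.sum_congr rfl fun d _ => ?_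
    have h8 : b d = ∑ c, (b.coord c) (σ h (b d)) • σ h⁻¹ (b c) := by
      have h10 : ∑ c, (b.coord c) (σ h (b d)) • b c = σ h (b d) := b.sum_repr _
      have h9 : σ h⁻¹ (∑ c, (b.coord c) (σ h (b d)) • b c) = b d := by
        rw [h10, ← Module.End.mul_apply, r'r]
        rfl
      conv_lhs => rw [← h9, map_sum]
      refine Finset.sum_congr rfl fun c _ => ?_
      rw [map_smul]
    conv_rhs => rw [h8]
    rw [map_sum, Finset.sum_mul, Finset.mul_sum]
    refine Finset.sum_congr rfl fun c _ => ?_
    rw [map_smul, smul_mul_assoc, mul_smul_comm]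
  rw [← h5, Finset.sum_mul]
  refine Finset.sum_congr rfl fun c _ => ?_
  have h11 := hi h (σ h⁻¹ (b c))
  have h12 : σ h (σ h⁻¹ (b c)) = b c := by
    rw [← Module.End.mul_apply, rr']
    rfl
  rw [h12] at h11
  rw [mul_assoc, ← hj, ← mul_assoc, h11]

end

end Pool.Ben69
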