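import Pool.Agent.Work.MP_26c40d_69.FIN

/-!
# MP_26c40d_al, self-dual odd summands: the two parts (helper69)
-/

set_option autoImplicit false

namespace Pool.Ben69

open Module Pool.Benson Pool.BenStar TensorProduct

section
variable {k H V W : Type} [Field k] [Group H] [AddCommGroup V] [Module k V] [AddCommGroup W]
  [Module k W]

/-- Symmetric invariant forms have trace zero against a self-duality. -/
theorem sym_zero [IsAlgClosed k] [CharP k 2] [FiniteDimensional k W] (σ : Representation k H W)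
    (hσ : IsIndec σ) (hodd : Odd (finrank k W)) (h1 : finrank k W ≠ 1)
    (θ : W ≃ₗ[k] Dual k W) (hθ : ∀ g v, θ (σ g v) = σ.dual g (θ v))
    (K : W →ₗ[k] (W →ₗ[k] k)) (hs : ∀ x y, K x y = K y x)
    (hinv : ∀ g x y, K (σ g x) (σ g y) = K x y) :
    LinearMap.trace k W ((θ.symm : Dual k W →ₗ[k] W) ∘ₗ K) = 0 := by
  have h2 := BT_self (W := W) stmt_TRM σ K hs hinv σ hσ hodd
    (fun h => h1 (Pool.SqSplit.finrank_eq_one σ hσ.2 h)) θ hθ LinearMap.id (fun g w => rfl)
  rw [BT_apply] at h2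
  exact h2

/-- The self-duality and its transposed differ by an automorphism of nonzero trace. -/
theorem trace_u_ne [IsAlgClosed k] [CharP k 2] [FiniteDimensional k W] (σ : Representation k H W)
    (hσ : IsIndec σ) (hodd : Odd (finrank k W)) (θ : W ≃ₗ[k] Dual k W)
    (hθ : ∀ g v, θ (σ g v) = σ.dual g (θ v)) (U : Module.End k W)
    (hU : ∀ v v', θ (U v) v' = θ v' v) :
    (∀ g, U * σ g = σ g * U) ∧ LinearMap.trace k W U ≠ 0 := by
  have hc : ∀ g, U * σ g = σ g * U := by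
    intro g
    ext v
    apply θ.injective
    ext v'
    rw [Module.End.mul_apply, Module.End.mul_apply, hU, hθ]
    have h1 : (σ.dual g (θ (U v))) v' = θ (U v) (σ g⁻¹ v') := rfl
    rw [h1, hU, hθ]
    have h2 : (σ.dual g⁻¹ (θ v')) v = θ v' (σ g⁻¹⁻¹ v) := rfl
    rw [h2, inv_inv]
  refine ⟨hc, fun h0 => ?_⟩
  refine ((stmt_TRM k H W σ hσ hodd).1 U hc).1 h0 ?_
  rw [← LinearMap.ker_eq_bot, LinearMap.ker_eq_bot']
  intro v hv
  rw [← Module.forall_dual_apply_eq_zero_iff k]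
  intro p
  obtain ⟨v', rfl⟩ := θ.surjective p
  rw [← hU, hv, map_zero, LinearMap.zero_apply]

end

section
variable {k G H V W : Type} [Field k] [Group G] [Group H] [AddCommGroup V] [Module k V]
  [AddCommGroup W] [Module k W]

/-- Part two. -/
theorem part_two [IsAlgClosed k] [CharP k 2] [FiniteDimensional k V] [FiniteDimensional k W]
    (φ : H →* G) (ρ : Representation k G V) (hV : IsIndec ρ) (hVo : Odd (finrank k V))
    (σ : Representation k G W) (W₀ W' : Submodule k W)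
    (hW₀ : IsInv (MonoidHom.comp σ φ) W₀) (hW' : IsInv (MonoidHom.comp σ φ) W')
    (hc : IsCompl W₀ W') (hind : IsIndec (restr (MonoidHom.comp σ φ) W₀ hW₀))
    (hodd : Odd (finrank k W₀)) (h1 : finrank k W₀ ≠ 1)
    (hst : Star (fun h => restr (MonoidHom.comp σ φ) W₀ hW₀ h))
    (θ : W₀ ≃ₗ[k] Dual k W₀)
    (hθ : ∀ h v, θ (restr (MonoidHom.comp σ φ) W₀ hW₀ h v) =
      (restr (MonoidHom.comp σ φ) W₀ hW₀).dual h (θ v))
    (heven : ∀ (U U' : Submodule k W) (hU : IsInv (MonoidHom.comp σ φ) U),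
      IsInv (MonoidHom.comp σ φ) U' → U ⊓ U' = ⊥ → U ⊔ U' = W' →
      IsIndec (restr (MonoidHom.comp σ φ) U hU) → Even (finrank k U))
    (A B : Submodule k (V ⊗[k] Dual k V)) (hA : IsInv (ρ.tprod ρ.dual) A)
    (hBi : IsInv (ρ.tprod ρ.dual) B) (hAB : IsCompl A B)
    (hcopy : IsCopy (ρ.tprod ρ.dual) A σ) : False := by
  classical
  -- the maps `f` and `q`
  obtain ⟨e, he⟩ := hcopy
  let f : W →ₗ[k] V ⊗[k] Dual k V := A.subtype ∘ₗ (e : W →ₗ[k] A)
  have hf : ∀ g w, f (σ g w) = (ρ.tprod ρ.dual) g (f w) := fun g w => he g w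
  let q : V ⊗[k] Dual k V →ₗ[k] W := (e.symm : A →ₗ[k] W) ∘ₗ A.projectionOnto B hAB
  have qA : ∀ w, q (f w) = w := by
    intro w
    have h2 := Submodule.projectionOnto_apply_left hAB (e w)
    change e.symm (A.projectionOnto B hAB ((e w : A) : V ⊗[k] Dual k V)) = w
    rw [h2, LinearEquiv.symm_apply_apply]
  have qB : ∀ x ∈ B, q x = 0 := by
    intro x hx
    have h2 := (Submodule.projectionOnto_apply_eq_zero_iff hAB (x := x)).2 hx
    change e.symm (A.projectionOnto B hAB x) = 0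
    rw [h2, map_zero]
  have hq : ∀ g x, q ((ρ.tprod ρ.dual) g x) = σ g (q x) := by
    intro g x
    have : x ∈ A ⊔ B := by rw [hAB.sup_eq_top]; trivial
    obtain ⟨a, ha, c, hc', rfl⟩ := Submodule.mem_sup.1 this
    obtain ⟨w, hw⟩ := e.surjective ⟨a, ha⟩
    have hw' : f w = a := congrArg Subtype.val hw
    rw [map_add, map_add, map_add, map_add, qB c hc', qB _ (hBi g c hc'), ← hw', ← hf, qA, qA,
      map_zero, add_zero]
  -- the adjoint of `q`
  have hbinj : Function.Injective (tf k V) := by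
    rw [← LinearMap.ker_eq_bot, LinearMap.ker_eq_bot']
    intro x hx
    exact tf_nd x fun y => by rw [hx]; rfl
  have hbs : Function.Surjective (tf k V) := by
    refine (LinearMap.injective_iff_surjective_of_finrank_eq_finrank ?_).mp hbinj
    rw [Subspace.dual_finrank_eq]
  let bE : V ⊗[k] Dual k V ≃ₗ[k] Dual k (V ⊗[k] Dual k V) :=
    LinearEquiv.ofBijective (tf k V) ⟨hbinj, hbs⟩
  let j0 : (W →ₗ[k] k) →ₗ[k] V ⊗[k] Dual k V :=
    (bE.symm : Dual k (V ⊗[k] Dual k V) →ₗ[k] V ⊗[k] Dual k V) ∘ₗ q.dualMap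
  have hj0 : ∀ p m, tf k V (j0 p) m = p (q m) := by
    intro p m
    have h2 : tf k V (j0 p) = q.dualMap p := bE.apply_symm_apply _
    rw [h2]
    rfl
  have hj0e : ∀ g p, (ρ.tprod ρ.dual) g (j0 (p ∘ₗ σ g)) = j0 p := by
    intro g p
    apply hbinj
    refine LinearMap.ext fun m => ?_
    have h2 : tf k V ((ρ.tprod ρ.dual) g (j0 (p ∘ₗ σ g))) m =
        tf k V (j0 (p ∘ₗ σ g)) ((ρ.tprod ρ.dual) g⁻¹ m) := by
      rw [← tf_inv ρ g (j0 (p ∘ₗ σ g)) ((ρ.tprod ρ.dual) g⁻¹ m), inv_apply]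
    rw [h2, hj0, hj0, hq, LinearMap.comp_apply, inv_apply]
  let i : W →ₗ[k] Module.End k V := cc k V ∘ₗ f
  have hi : EqW ρ σ i := by
    intro g w
    change cc k V (f (σ g w)) * ρ g = ρ g * cc k V (f w)
    rw [hf, cc_act]
  let j' : (W →ₗ[k] k) →ₗ[k] Module.End k V := cc k V ∘ₗ j0
  have hj' : EqD ρ σ j' := by
    intro g p
    change ρ g * cc k V (j0 (p ∘ₗ σ g)) = cc k V (j0 p) * ρ g
    rw [← cc_act, hj0e]
  have htr : ∀ p w, LinearMap.trace k V (i w * j' p) = p w := by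
    intro p w
    change LinearMap.trace k V (cc k V (f w) * cc k V (j0 p)) = p w
    rw [← tf_apply, tf_symm, hj0, qA]
  -- the restriction to `H`
  let σH : Representation k H W := MonoidHom.comp σ φ
  let ρH : Representation k H V := MonoidHom.comp ρ φ
  let σ₀ : Representation k H W₀ := restr σH W₀ hW₀
  let π : W →ₗ[k] W₀ := W₀.projectionOnto W' hc
  have hπι : ∀ v : W₀, π v = v := fun v => Submodule.projectionOnto_apply_left hc v
  have hev : ∀ D : Module.End k W, (∀ h, D * σH h = σH h * D) →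
      LinearMap.trace k W D = LinearMap.trace k W₀ (π ∘ₗ D ∘ₗ W₀.subtype) := by
    intro D hD
    have h2 := ev_trace σH W₀ W' hW₀ hW' hc heven D hD
    rw [mul_sub, mul_one, map_sub, sub_eq_zero] at h2
    rw [h2]
    have h3 : D * (W₀.subtype ∘ₗ W₀.projectionOnto W' hc) = (D ∘ₗ W₀.subtype) ∘ₗ π := rfl
    rw [h3, LinearMap.trace_comp_comm']
  have hπc : ∀ h v, π (σH h v) = σ₀ h (π v) := by
    intro h v
    have : v ∈ W₀ ⊔ W' := by rw [hc.sup_eq_top]; trivial
    obtain ⟨a, ha, c, hc', rfl⟩ := Submodule.mem_sup.1 this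
    have h2 : π a = ⟨a, ha⟩ := hπι ⟨a, ha⟩
    have h3 : π c = 0 := (Submodule.projectionOnto_apply_eq_zero_iff hc (x := c)).2 hc'
    have h4 : π (σH h c) = 0 :=
      (Submodule.projectionOnto_apply_eq_zero_iff hc (x := σH h c)).2 (hW' h c hc')
    have h5 : π (σH h a) = ⟨σH h a, hW₀ h a ha⟩ := hπι ⟨σH h a, hW₀ h a ha⟩
    rw [map_add, map_add, map_add, h3, h4, h5, h2, add_zero, add_zero]
    rfl
  have hS : Star (fun h => σH h) :=
    GOOD.star_oneOdd stmt_CTR stmt_PRIM (stmt_EVEN (stmt_LOC stmt_IDEM) stmt_CTR) σH W₀ W' hW₀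
      hW' hc hst heven
  -- normalisation
  let b := Module.finBasis k W
  let κ : Module.End k V := ∑ c, i (b c) * j' (b.coord c)
  have hκc : ∀ g, κ * ρ g = ρ g * κ := con_com b hi hj'
  have hκt : LinearMap.trace k V κ = 1 := by
    have h2 : LinearMap.trace k V κ = ∑ c, (b.coord c) ((1 : Module.End k W) (b c)) := by
      change LinearMap.trace k V (∑ c, i (b c) * j' (b.coord c)) = _
      rw [map_sum]
      exact Finset.sum_congr rfl fun c _ => htr _ _
    rw [h2, ← trace_sum b, hev 1 (fun h => by rw [one_mul, mul_one])]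
    have h3 : π ∘ₗ (1 : Module.End k W) ∘ₗ W₀.subtype = (1 : Module.End k W₀) := by
      ext1 v
      exact hπι v
    rw [h3, LinearMap.trace_one, cast_odd hodd]
  have hκi : Function.Injective κ := by
    by_contra hn
    have h2 := ((stmt_TRM k G V ρ hV hVo).1 κ hκc).2 hn
    rw [hκt] at h2
    exact one_ne_zero h2
  let κE : V ≃ₗ[k] V := LinearEquiv.ofBijective κ ⟨hκi, LinearMap.surjective_of_injective hκi⟩
  let κ' : Module.End k V := (κE.symm : V →ₗ[k] V)
  have hκκ : κ * κ' = 1 := by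
    ext v
    exact κE.apply_symm_apply v
  have hκ'κ : κ' * κ = 1 := by
    ext v
    exact κE.symm_apply_apply v
  have hκ'c : ∀ g, κ' * ρ g = ρ g * κ' := by
    intro g
    have h2 : κ' * ρ g = κ' * (ρ g * κ) * κ' := by
      rw [mul_assoc, mul_assoc, hκκ, mul_one]
    rw [h2, ← hκc, ← mul_assoc, hκ'κ, one_mul]
  let j : (W →ₗ[k] k) →ₗ[k] Module.End k V := LinearMap.mulRight k κ' ∘ₗ j'
  have hj : EqD ρ σ j := by
    intro g p
    change ρ g * (j' (p ∘ₗ σ g) * κ') = j' p * κ' * ρ g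
    rw [mul_assoc, hκ'c, ← mul_assoc, ← mul_assoc, hj']
  have hij : ∑ c, i (b c) * j (b.coord c) = 1 := by
    rw [← hκκ]
    change ∑ c, i (b c) * (j' (b.coord c) * κ') = (∑ c, i (b c) * j' (b.coord c)) * κ'
    rw [Finset.sum_mul]
    exact Finset.sum_congr rfl fun c _ => by rw [mul_assoc]
  have hiH : EqW ρH σH i := fun h w => hi (φ h) w
  have hjH : EqD ρH σH j := fun h p => hj (φ h) p
  -- the maps `E` and `T`
  let E : (W →ₗ[k] k) →ₗ[k] W :=
    W₀.subtype ∘ₗ (θ.symm : Dual k W₀ →ₗ[k] W₀) ∘ₗ W₀.subtype.dualMap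
  let T : W →ₗ[k] (W →ₗ[k] k) := (θ : W₀ →ₗ[k] Dual k W₀).compl₁₂ π π
  have hT_apply : ∀ w w', T w w' = θ (π w) (π w') := fun w w' => rfl
  have hθd : ∀ h v v', θ (σ₀ h v) v' = θ v (σ₀ h⁻¹ v') := by
    intro h v v'
    have h2 : θ (σ₀ h v) = σ₀.dual h (θ v) := hθ h v
    rw [h2]
    rfl
  have hE : EqE σH E := by
    intro h p
    have h2 : σ₀ h (θ.symm (W₀.subtype.dualMap (p ∘ₗ σH h))) =
        θ.symm (W₀.subtype.dualMap p) := by
      apply θ.injective
      ext1 v'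
      rw [hθd, LinearEquiv.apply_symm_apply, LinearEquiv.apply_symm_apply]
      change p (σH h (σH h⁻¹ v')) = p v'
      rw [inv_apply]
    exact congrArg Subtype.val h2
  have hT : EqT σH T := by
    intro h w
    ext w'
    rw [LinearMap.comp_apply, hT_apply, hT_apply, hπc, hπc, hθd, inv_apply']
  -- the scalar `u`
  let U : Module.End k W₀ := (θ.symm : Dual k W₀ →ₗ[k] W₀) ∘ₗ (θ : W₀ →ₗ[k] Dual k W₀).flip
  have hU : ∀ v v', θ (U v) v' = θ v' v := by
    intro v v'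
    have h2 : θ (U v) = (θ : W₀ →ₗ[k] Dual k W₀).flip v := θ.apply_symm_apply _
    rw [h2]
    rfl
  obtain ⟨hUc, hU0⟩ := trace_u_ne σ₀ hind hodd θ hθ U hU
  have hcompE : ∀ K : W →ₗ[k] (W →ₗ[k] k), LinearMap.trace k W (E ∘ₗ K) =
      LinearMap.trace k W₀ ((θ.symm : Dual k W₀ →ₗ[k] W₀) ∘ₗ
        (K.compl₁₂ W₀.subtype W₀.subtype)) := by
    intro K
    have h2 : E ∘ₗ K = W₀.subtype ∘ₗ
        ((θ.symm : Dual k W₀ →ₗ[k] W₀) ∘ₗ W₀.subtype.dualMap ∘ₗ K) := rfl
    rw [h2, LinearMap.trace_comp_comm']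
    rfl
  refine core hVo hS b hE hT hiH hjH hij (LinearMap.trace k W₀ U) hU0 ?_ ?_
  · intro D hD
    have h2 : ∀ a, (T (b a)) (D (E (b.coord a))) = (T.flip ∘ₗ D) (E (b.coord a)) (b a) :=
      fun a => rfl
    rw [Finset.sum_congr rfl fun a _ => h2 a, trd, hcompE, hev D hD]
    have hD0 : ∀ h, (π ∘ₗ D ∘ₗ W₀.subtype) * σ₀ h = σ₀ h * (π ∘ₗ D ∘ₗ W₀.subtype) := by
      intro h
      ext1 v
      change π (D (σH h v)) = σ₀ h (π (D v))
      rw [← hπc]
      congr 1
      exact com_app hD h v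
    rw [← (stmt_TRM k H W₀ σ₀ hind hodd).2 U _ hUc hD0]
    congr 1
    ext1 v
    apply θ.injective
    ext1 v'
    rw [Module.End.mul_apply, hU]
    have h3 : θ (((θ.symm : Dual k W₀ →ₗ[k] W₀) ∘ₗ
        ((T.flip ∘ₗ D).compl₁₂ W₀.subtype W₀.subtype)) v) =
        (T.flip ∘ₗ D).compl₁₂ W₀.subtype W₀.subtype v := θ.apply_symm_apply _
    rw [h3]
    change θ (π v') (π (D v)) = θ v' (π (D v))
    rw [hπι]
  · intro R hR
    let K : W →ₗ[k] (W →ₗ[k] k) :=
      LinearMap.mk₂ k (fun w w' => LinearMap.trace k V (R * i w * R * i w'))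
        (fun w w₂ w' => by simp only [map_add, mul_add, add_mul])
        (fun c w w' => by simp only [map_smul, mul_smul_comm, smul_mul_assoc])
        (fun w w' w₂ => by simp only [map_add, mul_add])
        (fun c w w' => by simp only [map_smul, mul_smul_comm])
    have h2 : brk b E i R R = ∑ a, K (E (b.coord a)) (b a) := rfl
    rw [h2, trd, hcompE]
    refine sym_zero σ₀ hind hodd h1 θ hθ _ (fun x y => ?_) (fun h x y => ?_)
    · change LinearMap.trace k V (R * i x * R * i y) = LinearMap.trace k V (R * i y * R * i x)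
      have h3 : R * i x * R * i y = (R * i x) * (R * i y) := by simp only [mul_assoc]
      have h4 : R * i y * R * i x = (R * i y) * (R * i x) := by simp only [mul_assoc]
      rw [h3, h4, LinearMap.trace_mul_comm]
    · change LinearMap.trace k V (R * i (σH h x) * R * i (σH h y)) =
        LinearMap.trace k V (R * i x * R * i y)
      rw [hiH.eq, hiH.eq]
      have h3 : R * (ρH h * i x * ρH h⁻¹) * R * (ρH h * i y * ρH h⁻¹) =
          (R * ρH h) * i x * ρH h⁻¹ * (R * ρH h) * i y * ρH h⁻¹ := by simp only [mul_assoc]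
      have h4 : ρH h * R * i x * ρH h⁻¹ * (ρH h * R) * i y * ρH h⁻¹ =
          ρH h * (R * i x * (ρH h⁻¹ * ρH h) * R * i y * ρH h⁻¹) := by simp only [mul_assoc]
      have h5 : R * i x * R * i y * ρH h⁻¹ * ρH h = R * i x * R * i y * (ρH h⁻¹ * ρH h) := by
        simp only [mul_assoc]
      rw [h3, hR, h4, LinearMap.trace_mul_comm, r'r, mul_one, h5, r'r, mul_one]

/-- Part one. -/
theorem part_one [IsAlgClosed k] [CharP k 2] [FiniteDimensional k V] [FiniteDimensional k W]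
    (ρ : Representation k G V) (σ : Representation k G W) (hσ : IsIndec σ)
    (hodd : Odd (finrank k W)) (h1 : finrank k W ≠ 1) (hd : IsSelfDual σ) (n : ℕ)
    (X : Fin n → Submodule k (V ⊗[k] Dual k V)) (hX : DirectSum.IsInternal X)
    (hXi : ∀ i, IsInv (ρ.tprod ρ.dual) (X i)) (hXd : ∀ i, IsIndecIn (ρ.tprod ρ.dual) (X i)) :
    Even (Nat.card {i // IsCopy (ρ.tprod ρ.dual) (X i) σ}) := by
  obtain ⟨θ, hθ⟩ := hd
  exact even_count stmt_ALT stmt_TRM (ρ.tprod ρ.dual) (tf k V) tf_symm (tf_inv ρ) tf_nd σ hσ hodd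
    (fun h => h1 (Pool.SqSplit.finrank_eq_one σ hσ.2 h)) θ hθ X hX hXi hXd

/-- Part two in the form of the statement. -/
theorem part_two_summand [IsAlgClosed k] [CharP k 2] [FiniteDimensional k V]
    [FiniteDimensional k W] (ρ : Representation k G V) (hV : IsIndec ρ)
    (hVo : Odd (finrank k V)) (σ : Representation k G W) (φ : H →* G)
    (h : OddPartSelfDual (MonoidHom.comp σ φ)) : ¬ IsSummand σ (ρ.tprod ρ.dual) := by
  rintro ⟨A, B, hA, hB, hAB, hcopy⟩
  obtain ⟨W₀, W', hW₀, hW', hc, hind, hodd, h1, ⟨θ, hθ⟩, hBP, heven⟩ := h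
  exact part_two φ ρ hV hVo σ W₀ W' hW₀ hW' hc hind hodd h1
    (stmt_CONV2 (stmt_LOC stmt_IDEM) k H W₀ _ hodd hBP) θ hθ heven A B hA hB hAB hcopy

end

end Pool.Ben69
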