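import Pool.Agent.Work.MP_26c40d_69.FIN2
import Pool.Agent.Work.MP_26c40d_69.CYS
import Pool.Agent.Work.MP_26c40d_69.CYD

/-!
# MP_26c40d_al, self-dual odd summands: cyclic subgroups (helper69)
-/

set_option autoImplicit false

namespace Pool.Ben69

open Module Pool.Benson Pool.BenStar TensorProduct

section
variable {k G V W : Type} [Field k] [Group G] [AddCommGroup V] [Module k V]
  [AddCommGroup W] [Module k W]

theorem oneBlock_of [CharP k 2] (σ : Representation k G W) (g : G) (a : ℕ)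
    (ha : g ^ 2 ^ a = 1) (W₀ : Submodule k W) (hW₀ : IsInv (cyclicRestr σ g) W₀) (v : W)
    (hv : W₀ = Submodule.span k (Set.range fun n : ℕ => (σ g ^ n) v)) :
    OneBlock (restr (cyclicRestr σ g) W₀ hW₀)
      (⟨g, Subgroup.mem_zpowers g⟩ : Subgroup.zpowers g) := by
  set τ := restr (cyclicRestr σ g) W₀ hW₀ with hτ
  set g' : Subgroup.zpowers g := ⟨g, Subgroup.mem_zpowers g⟩ with hg'
  have hpow : ∀ n : ℕ, ∀ w : W₀, (((τ g' ^ n) w : W₀) : W) = (σ g ^ n) w := by
    intro n
    induction n with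
    | zero => intro w; rfl
    | succ n ih =>
      intro w
      rw [pow_succ, pow_succ, Module.End.mul_apply, Module.End.mul_apply, ih]
      rfl
  have hfin : IsOfFinOrder g := isOfFinOrder_iff_pow_eq_one.2 ⟨2 ^ a, by positivity, ha⟩
  have hone : τ g' ^ 2 ^ a = 1 := by
    rw [← map_pow]
    have h1 : g' ^ 2 ^ a = 1 := Subtype.ext ha
    rw [h1, map_one]
  refine ⟨?_, ?_, ?_⟩
  · rintro ⟨h, hh⟩
    obtain ⟨n, hn⟩ := (hfin.mem_powers_iff_mem_zpowers).2 hh
    refine ⟨n, ?_⟩
    rw [← map_pow]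
    congr 1
    exact Subtype.ext hn.symm
  · rcases subsingleton_or_nontrivial W₀ with hs | hn
    · exact ⟨1, Subsingleton.elim _ _⟩
    · have hch : CharP (Module.End k W₀) 2 :=
        charP_of_injective_algebraMap (algebraMap k (Module.End k W₀)).injective 2
      refine ⟨2 ^ a, ?_⟩
      rw [sub_pow_char_pow_of_commute _ _ (Commute.one_right _), hone, one_pow, sub_self]
  · have hvm : v ∈ W₀ := by
      rw [hv]
      exact Submodule.subset_span ⟨0, rfl⟩
    refine ⟨⟨v, hvm⟩, ?_⟩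
    apply Submodule.map_injective_of_injective (f := W₀.subtype) W₀.injective_subtype
    rw [Submodule.map_span, Submodule.map_top, Submodule.range_subtype]
    conv_rhs => rw [hv]
    congr 1
    rw [← Set.range_comp]
    congr 1
    funext n
    exact hpow n _

/-- Part three. -/
theorem part_three [IsAlgClosed k] [CharP k 2] [FiniteDimensional k V] [FiniteDimensional k W]
    (ρ : Representation k G V) (hV : IsIndec ρ) (hVo : Odd (finrank k V))
    (σ : Representation k G W) (g : G) (hg : ∃ a : ℕ, g ^ 2 ^ a = 1) (h : OneOddBlock σ g) :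
    ¬ IsSummand σ (ρ.tprod ρ.dual) := by
  rintro ⟨A, B, hA, hB, hAB, hcopy⟩
  obtain ⟨W₀, W', hW₀, hW', hc, hodd, h1, ⟨v, hv⟩, heven⟩ := h
  obtain ⟨a, ha⟩ := hg
  have hb := oneBlock_of σ g a ha W₀ hW₀ v hv
  obtain ⟨⟨θ, hθ⟩, hind⟩ := stmt_CYD k _ W₀ _ _ hb hodd.pos
  exact part_two (Subgroup.zpowers g).subtype ρ hV hVo σ W₀ W' hW₀ hW' hc hind hodd h1
    (stmt_CYS k _ W₀ _ _ hb hodd) θ hθ heven A B hA hB hAB hcopy

end

end Pool.Ben69
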