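import Pool.Agent.Work.MP_26c40d_69.Base
import Pool.Agent.Work.MP_26c40d_69.Statement
import Pool.Agent.Work.MP_26c40d_31.ConvProj
import Pool.Agent.Work.MP_26c40d_sq.Finite

/-!
# MP_26c40d_al, self-dual odd summands: the alternating form on the multiplicity space (helper69)
-/

set_option autoImplicit false

namespace Pool.Ben69

open Module Pool.Benson

section
variable {k G W M : Type} [Field k] [Group G] [AddCommGroup W] [Module k W]
  [AddCommGroup M] [Module k M]

/-- The endomorphism `w ↦ θ⁻¹ (b (f w) (f' ·))`. -/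
noncomputable def Th (b : M →ₗ[k] M →ₗ[k] k) (θ : W ≃ₗ[k] Dual k W) (f f' : W →ₗ[k] M) :
    Module.End k W :=
  (θ.symm : Dual k W →ₗ[k] W) ∘ₗ (b.compl₁₂ f f')

theorem th_apply (b : M →ₗ[k] M →ₗ[k] k) (θ : W ≃ₗ[k] Dual k W) (f f' : W →ₗ[k] M) (w w' : W) :
    θ (Th b θ f f' w) w' = b (f w) (f' w') := by
  have h : θ (Th b θ f f' w) = b.compl₁₂ f f' w := θ.apply_symm_apply _
  rw [h]
  rfl

theorem th_comp (b : M →ₗ[k] M →ₗ[k] k) (θ : W ≃ₗ[k] Dual k W) (f f' : W →ₗ[k] M)
    (A : Module.End k W) : Th b θ (f ∘ₗ A) f' = Th b θ f f' * A := by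
  ext w
  apply θ.injective
  ext w'
  rw [th_apply, Module.End.mul_apply, th_apply]
  rfl

theorem inv_apply (μ : Representation k G M) (g : G) (x : M) : μ g (μ g⁻¹ x) = x := by
  rw [← Module.End.mul_apply, ← map_mul, mul_inv_cancel, map_one]
  rfl

theorem inv_apply' (μ : Representation k G M) (g : G) (x : M) : μ g⁻¹ (μ g x) = x := by
  rw [← Module.End.mul_apply, ← map_mul, inv_mul_cancel, map_one]
  rfl

theorem th_com (μ : Representation k G M) (σ : Representation k G W)
    (b : M →ₗ[k] M →ₗ[k] k) (hinv : ∀ g x y, b (μ g x) (μ g y) = b x y)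
    (θ : W ≃ₗ[k] Dual k W) (hθ : ∀ g v, θ (σ g v) = σ.dual g (θ v)) (f f' : W →ₗ[k] M)
    (hf : ∀ g w, f (σ g w) = μ g (f w)) (hf' : ∀ g w, f' (σ g w) = μ g (f' w)) (g : G) :
    Th b θ f f' * σ g = σ g * Th b θ f f' := by
  ext w
  apply θ.injective
  ext w'
  rw [Module.End.mul_apply, th_apply, Module.End.mul_apply, hθ, hf]
  have h1 : (σ.dual g (θ (Th b θ f f' w))) w' = θ (Th b θ f f' w) (σ g⁻¹ w') := rfl
  rw [h1, th_apply, hf']
  rw [← hinv g (f w) (μ g⁻¹ (f' w')), inv_apply]

/-- The bilinear form `f, f' ↦ tr (θ⁻¹ H (f, f'))`. -/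
noncomputable def BT (b : M →ₗ[k] M →ₗ[k] k) (θ : W ≃ₗ[k] Dual k W) :
    (W →ₗ[k] M) →ₗ[k] (W →ₗ[k] M) →ₗ[k] k :=
  LinearMap.mk₂ k (fun f f' => LinearMap.trace k W (Th b θ f f'))
    (fun f₁ f₂ f' => by
      rw [← map_add]
      congr 1
      ext w
      apply θ.injective
      ext w'
      rw [LinearMap.add_apply, map_add, LinearMap.add_apply, th_apply, th_apply, th_apply,
        LinearMap.add_apply, map_add, LinearMap.add_apply])
    (fun c f f' => by
      rw [smul_eq_mul, ← smul_eq_mul, ← map_smul]
      congr 1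
      ext w
      apply θ.injective
      ext w'
      rw [LinearMap.smul_apply, map_smul, LinearMap.smul_apply, th_apply, th_apply,
        LinearMap.smul_apply, map_smul, LinearMap.smul_apply])
    (fun f f₁ f₂ => by
      rw [← map_add]
      congr 1
      ext w
      apply θ.injective
      ext w'
      rw [LinearMap.add_apply, map_add, LinearMap.add_apply, th_apply, th_apply, th_apply,
        LinearMap.add_apply, map_add])
    (fun c f f' => by
      rw [smul_eq_mul, ← smul_eq_mul, ← map_smul]
      congr 1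
      ext w
      apply θ.injective
      ext w'
      rw [LinearMap.smul_apply, map_smul, LinearMap.smul_apply, th_apply, th_apply,
        LinearMap.smul_apply, map_smul])

theorem BT_apply (b : M →ₗ[k] M →ₗ[k] k) (θ : W ≃ₗ[k] Dual k W) (f f' : W →ₗ[k] M) :
    BT b θ f f' = LinearMap.trace k W (Th b θ f f') := rfl

/-- A self-dual nontrivial odd indecomposable has no nondegenerate invariant symmetric form, hence
the form `BT` vanishes on the diagonal. -/
theorem BT_self [IsAlgClosed k] [CharP k 2] [FiniteDimensional k W]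
    (hT : Stmt_TRM) (μ : Representation k G M) (b : M →ₗ[k] M →ₗ[k] k)
    (hs : ∀ x y, b x y = b y x) (hinv : ∀ g x y, b (μ g x) (μ g y) = b x y)
    (σ : Representation k G W) (hσ : IsIndec σ) (hodd : Odd (finrank k W))
    (hno : ¬ ∃ (x : W) (y : W →ₗ[k] k), (∀ g, σ g x = x) ∧ (∀ g v, y (σ g v) = y v) ∧ y x ≠ 0)
    (θ : W ≃ₗ[k] Dual k W) (hθ : ∀ g v, θ (σ g v) = σ.dual g (θ v)) (f : W →ₗ[k] M)
    (hf : ∀ g w, f (σ g w) = μ g (f w)) : BT b θ f f = 0 := by
  rw [BT_apply]
  refine ((hT k G W σ hσ hodd).1 _ (fun g => th_com μ σ b hinv θ hθ f f hf hf g)).2 ?_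
  intro hinj
  refine hno (Pool.SqSplit.summand_of_form σ hodd (b.compl₁₂ f f) (fun x y => hs _ _)
    (fun g x y => ?_) (fun x hx => ?_))
  · change b (f (σ g x)) (f (σ g y)) = b (f x) (f y)
    rw [hf, hf, hinv]
  · apply hinj
    apply θ.injective
    rw [map_zero, map_zero]
    ext y
    rw [th_apply]
    exact hx y

/-- Equivariance of the projections of an invariant decomposition. -/
theorem proj_com (μ : Representation k G M) {n : ℕ} (X : Fin n → Submodule k M)
    (hXi : ∀ i, IsInv μ (X i)) (ε : Fin n → Module.End k M) (hmem : ∀ i x, ε i x ∈ X i)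
    (hfix : ∀ i, ∀ w ∈ X i, ε i w = w) (hkill : ∀ i j, i ≠ j → ∀ w ∈ X i, ε j w = 0)
    (hsum : ∑ i, ε i = 1) (i : Fin n) (g : G) (x : M) : ε i (μ g x) = μ g (ε i x) := by
  have h1 : ∀ y : M, y = ∑ j, ε j y := by
    intro y
    rw [← LinearMap.sum_apply, hsum]
    rfl
  have h2 : ε i (μ g x) = ∑ j, ε i (μ g (ε j x)) := by
    conv_lhs => rw [h1 x, map_sum, map_sum]
  rw [h2, Finset.sum_eq_single i]
  · exact hfix i _ (hXi i g _ (hmem i x))
  · intro j _ hj
    exact hkill j i hj _ (hXi j g _ (hmem j x))
  · intro h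
    exact absurd (Finset.mem_univ i) h

/-- An injective equivariant endomorphism of `W` that factors through an indecomposable
invariant subspace `X` makes `X` a copy of `W`. -/
theorem copy_of_factor [FiniteDimensional k W] [Nontrivial W] (μ : Representation k G M)
    (σ : Representation k G W) (X : Submodule k M) (hX : IsInv μ X) (hXd : IsIndecIn μ X)
    (α : W →ₗ[k] M) (hα : ∀ g w, α (σ g w) = μ g (α w)) (hαX : ∀ w, α w ∈ X)
    (β : M →ₗ[k] W) (hβ : ∀ g, ∀ x ∈ X, β (μ g x) = σ g (β x))
    (hinj : Function.Injective (β ∘ₗ α)) : IsCopy μ X σ := by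
  have hαi : Function.Injective α := fun x y h => hinj (congrArg β h)
  have hsurj : Function.Surjective (β ∘ₗ α) := LinearMap.surjective_of_injective hinj
  have h1 := hXd.2 (LinearMap.range α) (X ⊓ LinearMap.ker β) ?_ ?_ ?_ inf_le_left ?_ ?_
  · rcases h1 with h1 | h1
    · exfalso
      obtain ⟨w, hw⟩ := exists_ne (0 : W)
      apply hw
      apply hαi
      rw [map_zero, ← Submodule.mem_bot k, ← h1]
      exact ⟨w, rfl⟩
    · have hb : Function.Bijective (α.codRestrict X hαX) := by
        constructor
        · intro x y h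
          exact hαi (congrArg Subtype.val h)
        · rintro ⟨x, hx⟩
          obtain ⟨w, hw⟩ := hsurj (β x)
          refine ⟨w, Subtype.ext ?_⟩
          have h2 : α w - x ∈ X ⊓ LinearMap.ker β := by
            refine ⟨X.sub_mem (hαX w) hx, ?_⟩
            refine LinearMap.mem_ker.2 ?_
            rw [map_sub, sub_eq_zero]
            exact hw
          rw [h1, Submodule.mem_bot, sub_eq_zero] at h2
          exact h2
      exact ⟨LinearEquiv.ofBijective _ hb, fun g w => hα g w⟩
  · rintro g v ⟨w, rfl⟩
    exact ⟨σ g w, hα g w⟩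
  · rintro g v ⟨hv, hv'⟩
    refine ⟨hX g v hv, ?_⟩
    refine LinearMap.mem_ker.2 ?_
    rw [hβ g v hv, LinearMap.mem_ker.1 hv', map_zero]
  · rintro v ⟨w, rfl⟩
    exact hαX w
  · rw [Submodule.eq_bot_iff]
    rintro x ⟨⟨w, rfl⟩, -, hx⟩
    have h2 : (β ∘ₗ α) w = (β ∘ₗ α) 0 := by
      rw [map_zero]
      exact hx
    rw [hinj h2, map_zero]
  · apply le_antisymm
    · refine sup_le ?_ inf_le_left
      rintro v ⟨w, rfl⟩
      exact hαX w
    · intro x hx
      obtain ⟨w, hw⟩ := hsurj (β x)
      rw [Submodule.mem_sup]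
      refine ⟨α w, ⟨w, rfl⟩, x - α w, ⟨X.sub_mem hx (hαX w), ?_⟩, by abel⟩
      refine LinearMap.mem_ker.2 ?_
      rw [map_sub, sub_eq_zero]
      exact hw.symm

/-- The number of copies of a self-dual nontrivial odd indecomposable in a representation with a
nondegenerate invariant symmetric form is even. -/
theorem even_count [IsAlgClosed k] [CharP k 2] [FiniteDimensional k W] [FiniteDimensional k M]
    (hA : Stmt_ALT)
    (hT : Stmt_TRM) (μ : Representation k G M) (b : M →ₗ[k] M →ₗ[k] k)
    (hs : ∀ x y, b x y = b y x) (hinv : ∀ g x y, b (μ g x) (μ g y) = b x y)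
    (hnd : ∀ x, (∀ y, b x y = 0) → x = 0)
    (σ : Representation k G W) (hσ : IsIndec σ) (hodd : Odd (finrank k W))
    (hno : ¬ ∃ (x : W) (y : W →ₗ[k] k), (∀ g, σ g x = x) ∧ (∀ g v, y (σ g v) = y v) ∧ y x ≠ 0)
    (θ : W ≃ₗ[k] Dual k W) (hθ : ∀ g v, θ (σ g v) = σ.dual g (θ v))
    {n : ℕ} (X : Fin n → Submodule k M) (hX : DirectSum.IsInternal X)
    (hXi : ∀ i, IsInv μ (X i)) (hXd : ∀ i, IsIndecIn μ (X i)) :
    Even (Nat.card {i // IsCopy μ (X i) σ}) := by
  classical
  obtain ⟨ε, hmem, hfix, hkill, hsum⟩ := Pool.BenStar.CONV.projs X hX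
  have hcom := proj_com μ X hXi ε hmem hfix hkill hsum
  have : Nontrivial W := hσ.1
  choose e he using fun i : {i // IsCopy μ (X i) σ} => i.2
  let φ : {i // IsCopy μ (X i) σ} → (W →ₗ[k] M) :=
    fun i => (X i.1).subtype ∘ₗ ((e i : W ≃ₗ[k] X i.1) : W →ₗ[k] X i.1)
  have hφ : ∀ i g w, φ i (σ g w) = μ g (φ i w) := fun i g w => he i g w
  have hφm : ∀ i w, φ i w ∈ X i.1 := fun i w => (e i w).2
  let F : ({i // IsCopy μ (X i) σ} → k) →ₗ[k] (W →ₗ[k] M) := Fintype.linearCombination k φ
  have hF : ∀ c w, F c w = ∑ i, c i • φ i w := by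
    intro c w
    rw [Fintype.linearCombination_apply, LinearMap.sum_apply]
    rfl
  have hFe : ∀ c g w, F c (σ g w) = μ g (F c w) := by
    intro c g w
    rw [hF, hF, map_sum]
    refine Finset.sum_congr rfl fun i _ => ?_
    rw [map_smul, hφ]
  have hε : ∀ i c w, ε i.1 (F c w) = c i • φ i w := by
    intro i c w
    rw [hF, map_sum, Finset.sum_eq_single i]
    · rw [map_smul, hfix i.1 _ (hφm i w)]
    · intro j _ hj
      rw [map_smul, hkill j.1 i.1 (fun h => hj (Subtype.ext h)) _ (hφm j w), smul_zero]
    · intro h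
      exact absurd (Finset.mem_univ i) h
  have h1 : Even (finrank k ({i // IsCopy μ (X i) σ} → k)) := by
    refine hA k _ ((BT b θ).compl₁₂ F F) (fun c => ?_) (fun d hd => ?_)
    · exact BT_self hT μ b hs hinv σ hσ hodd hno θ hθ (F c) (hFe c)
    · funext j
      by_contra hdj
      -- the coordinate map
      let q : M →ₗ[k] W := ((e j).symm : X j.1 →ₗ[k] W) ∘ₗ (ε j.1).codRestrict (X j.1) (hmem j.1)
      have hej : ∀ x, φ j (q x) = ε j.1 x := by
        intro x
        change (((e j) ((e j).symm _) : X j.1) : M) = _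
        rw [LinearEquiv.apply_symm_apply]
        rfl
      have hφi : Function.Injective (φ j) := fun x y h => (e j).injective (Subtype.ext h)
      have hqF : ∀ w, q (F d w) = d j • w := by
        intro w
        apply hφi
        rw [hej, hε, map_smul]
      have hqc : ∀ g x, q (μ g x) = σ g (q x) := by
        intro g x
        apply hφi
        rw [hej, hφ, hej, hcom]
      have hbinj : Function.Injective b := by
        rw [← LinearMap.ker_eq_bot, LinearMap.ker_eq_bot']
        intro x hx
        exact hnd x fun y => by rw [hx]; rfl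
      have hbs : Function.Surjective b := by
        refine (LinearMap.injective_iff_surjective_of_finrank_eq_finrank ?_).mp hbinj
        rw [Subspace.dual_finrank_eq]
      let bE : M ≃ₗ[k] Dual k M := LinearEquiv.ofBijective b ⟨hbinj, hbs⟩
      let i₂ : W →ₗ[k] M :=
        (bE.symm : Dual k M →ₗ[k] M) ∘ₗ q.dualMap ∘ₗ (θ : W →ₗ[k] Dual k W)
      have hi₂ : ∀ w m, b (i₂ w) m = θ w (q m) := by
        intro w m
        have h2 : b (i₂ w) = q.dualMap (θ w) := bE.apply_symm_apply _
        rw [h2]
        rfl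
      have hi₂e : ∀ g w, i₂ (σ g w) = μ g (i₂ w) := by
        intro g w
        apply hbinj
        ext m
        have h3 : b (μ g (i₂ w)) m = b (i₂ w) (μ g⁻¹ m) := by
          rw [← hinv g (i₂ w) (μ g⁻¹ m), inv_apply]
        rw [h3, hi₂, hi₂, hθ, hqc]
        rfl
      have hv : BT b θ i₂ (F d) = d j := by
        rw [BT_apply]
        have h4 : Th b θ i₂ (F d) = d j • LinearMap.id := by
          ext w
          apply θ.injective
          ext w'
          rw [th_apply, hi₂, hqF, map_smul, LinearMap.smul_apply, map_smul, LinearMap.smul_apply]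
          rfl
        rw [h4, map_smul, LinearMap.trace_id, smul_eq_mul]
        obtain ⟨m, hm⟩ := hodd
        rw [hm]
        push_cast
        rw [CharTwo.two_eq_zero, zero_mul, zero_add, mul_one]
      have hdec : i₂ = ∑ i, ε i ∘ₗ i₂ := by
        ext w
        rw [LinearMap.sum_apply]
        have h5 : i₂ w = (∑ i, ε i) (i₂ w) := by
          rw [hsum]
          rfl
        conv_lhs => rw [h5, LinearMap.sum_apply]
        rfl
      have hz : BT b θ i₂ (F d) = 0 := by
        rw [hdec, map_sum, LinearMap.sum_apply]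
        refine Finset.sum_eq_zero fun i _ => ?_
        have hie : ∀ g w, (ε i ∘ₗ i₂) (σ g w) = μ g ((ε i ∘ₗ i₂) w) := by
          intro g w
          change ε i (i₂ (σ g w)) = μ g (ε i (i₂ w))
          rw [hi₂e, hcom]
        by_cases hi : IsCopy μ (X i) σ
        · let i' : {i // IsCopy μ (X i) σ} := ⟨i, hi⟩
          let A : Module.End k W :=
            ((e i').symm : X i →ₗ[k] W) ∘ₗ (ε i ∘ₗ i₂).codRestrict (X i) (fun w => hmem i _)
          have hA' : ε i ∘ₗ i₂ = φ i' ∘ₗ A := by
            ext w
            change _ = (((e i') ((e i').symm _) : X i) : M)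
            rw [LinearEquiv.apply_symm_apply]
            rfl
          have hφi' : Function.Injective (φ i') := fun x y h => (e i').injective (Subtype.ext h)
          have hAc : ∀ g, A * σ g = σ g * A := by
            intro g
            ext w
            apply hφi'
            have h6 : ∀ w, φ i' (A w) = (ε i ∘ₗ i₂) w := fun w => by rw [hA']; rfl
            rw [Module.End.mul_apply, Module.End.mul_apply, h6, hφ, h6, hie]
          have h7 : BT b θ (φ i') (F d) = 0 := by
            have h8 := hd (Pi.single i' 1)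
            have h9 : F (Pi.single i' 1) = φ i' := by
              rw [Fintype.linearCombination_apply, Finset.sum_eq_single i']
              · rw [Pi.single_eq_same, one_smul]
              · intro j' _ hj'
                rw [Pi.single_eq_of_ne hj', zero_smul]
              · intro h
                exact absurd (Finset.mem_univ i') h
            rw [← h9]
            exact h8
          rw [hA', BT_apply, th_comp,
            (hT k G W σ hσ hodd).2 _ _ (fun g => th_com μ σ b hinv θ hθ _ _ (hφ i') (hFe d) g) hAc,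
            ← BT_apply, h7, zero_mul]
        · rw [BT_apply]
          refine ((hT k G W σ hσ hodd).1 _
            (fun g => th_com μ σ b hinv θ hθ _ _ hie (hFe d) g)).2 ?_
          intro hinj
          apply hi
          let β : M →ₗ[k] W := (θ.symm : Dual k W →ₗ[k] W) ∘ₗ (b.compl₂ (F d))
          have hβ : ∀ x w', θ (β x) w' = b x (F d w') := by
            intro x w'
            have h10 : θ (β x) = b.compl₂ (F d) x := θ.apply_symm_apply _
            rw [h10]
            rfl
          refine copy_of_factor μ σ (X i) (hXi i) (hXd i) (ε i ∘ₗ i₂) hie (fun w => hmem i _) β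
            ?_ ?_
          · intro g x _
            apply θ.injective
            ext w'
            rw [hβ, hθ]
            have h11 : (σ.dual g (θ (β x))) w' = θ (β x) (σ g⁻¹ w') := rfl
            rw [h11, hβ, hFe, ← hinv g x (μ g⁻¹ (F d w')), inv_apply]
          · have h12 : β ∘ₗ (ε i ∘ₗ i₂) = Th b θ (ε i ∘ₗ i₂) (F d) := by
              ext w
              apply θ.injective
              ext w'
              rw [th_apply]
              exact hβ _ _
            rw [h12]
            exact hinj
      exact hdj (hv.symm.trans hz)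
  rw [finrank_fintype_fun_eq_card] at h1
  rw [Nat.card_eq_fintype_card]
  exact h1

end

end Pool.Ben69
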