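import Pool.Agent.Work.MP_26c40d_69.TRM

/-!
# MP_26c40d_al, self-dual odd summands: exchange of factors in invariant traces (helper69)
-/

set_option autoImplicit false

namespace Pool.Ben69

open Module Pool.Benson Pool.BenStar

section
variable {k H V W : Type} [Field k] [Group H] [AddCommGroup V] [Module k V] [AddCommGroup W]
  [Module k W]

/-- equivariant maps `W → End V` -/
def EqW (ρ : Representation k H V) (σ : Representation k H W) (x : W →ₗ[k] Module.End k V) :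
    Prop := ∀ h w, x (σ h w) * ρ h = ρ h * x w

/-- equivariant maps `W* → End V` -/
def EqD (ρ : Representation k H V) (σ : Representation k H W)
    (y : (W →ₗ[k] k) →ₗ[k] Module.End k V) : Prop := ∀ h p, ρ h * y (p ∘ₗ σ h) = y p * ρ h

theorem rr' (ρ : Representation k H V) (h : H) : ρ h * ρ h⁻¹ = 1 := by
  rw [← map_mul, mul_inv_cancel, map_one]

theorem r'r (ρ : Representation k H V) (h : H) : ρ h⁻¹ * ρ h = 1 := by
  rw [← map_mul, inv_mul_cancel, map_one]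

theorem EqW.eq {ρ : Representation k H V} {σ : Representation k H W}
    {x : W →ₗ[k] Module.End k V} (hx : EqW ρ σ x) (h : H) (w : W) :
    x (σ h w) = ρ h * x w * ρ h⁻¹ := by
  rw [← hx, mul_assoc, rr', mul_one]

theorem EqD.eq {ρ : Representation k H V} {σ : Representation k H W}
    {y : (W →ₗ[k] k) →ₗ[k] Module.End k V} (hy : EqD ρ σ y) (h : H) (p : W →ₗ[k] k) :
    y (p ∘ₗ σ h) = ρ h⁻¹ * y p * ρ h := by
  rw [mul_assoc, ← hy, ← mul_assoc, r'r, one_mul]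

/-- `p, q, v, w ↦ tr (x₁ p * x₂ v * x₃ q * x₄ w)` -/
noncomputable def F1 (x₁ x₃ : (W →ₗ[k] k) →ₗ[k] Module.End k V)
    (x₂ x₄ : W →ₗ[k] Module.End k V) : F4 k W :=
  LinearMap.mk₂ k (fun p q => LinearMap.mk₂ k
      (fun v w => LinearMap.trace k V (x₁ p * x₂ v * x₃ q * x₄ w))
      (fun v v' w => by simp only [map_add, mul_add, add_mul])
      (fun c v w => by simp only [map_smul, mul_smul_comm, smul_mul_assoc])
      (fun v w w' => by simp only [map_add, mul_add])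
      (fun c v w => by simp only [map_smul, mul_smul_comm]))
    (fun p p' q => by
      ext v w
      simp only [LinearMap.mk₂_apply, LinearMap.add_apply, map_add, add_mul])
    (fun c p q => by
      ext v w
      simp only [LinearMap.mk₂_apply, LinearMap.smul_apply, map_smul, smul_mul_assoc])
    (fun p q q' => by
      ext v w
      simp only [LinearMap.mk₂_apply, LinearMap.add_apply, map_add, add_mul, mul_add])
    (fun c p q => by
      ext v w
      simp only [LinearMap.mk₂_apply, LinearMap.smul_apply, map_smul, smul_mul_assoc,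
        mul_smul_comm])

/-- `p, q, v, w ↦ tr (x₁ p * x₂ q * x₃ v * x₄ w)` -/
noncomputable def F2 (x₁ x₂ : (W →ₗ[k] k) →ₗ[k] Module.End k V)
    (x₃ x₄ : W →ₗ[k] Module.End k V) : F4 k W :=
  LinearMap.mk₂ k (fun p q => LinearMap.mk₂ k
      (fun v w => LinearMap.trace k V (x₁ p * x₂ q * x₃ v * x₄ w))
      (fun v v' w => by simp only [map_add, mul_add, add_mul])
      (fun c v w => by simp only [map_smul, mul_smul_comm, smul_mul_assoc])
      (fun v w w' => by simp only [map_add, mul_add])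
      (fun c v w => by simp only [map_smul, mul_smul_comm]))
    (fun p p' q => by
      ext v w
      simp only [LinearMap.mk₂_apply, LinearMap.add_apply, map_add, add_mul])
    (fun c p q => by
      ext v w
      simp only [LinearMap.mk₂_apply, LinearMap.smul_apply, map_smul, smul_mul_assoc])
    (fun p q q' => by
      ext v w
      simp only [LinearMap.mk₂_apply, LinearMap.add_apply, map_add, add_mul, mul_add])
    (fun c p q => by
      ext v w
      simp only [LinearMap.mk₂_apply, LinearMap.smul_apply, map_smul, smul_mul_assoc,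
        mul_smul_comm])

theorem F1_apply (x₁ x₃ : (W →ₗ[k] k) →ₗ[k] Module.End k V)
    (x₂ x₄ : W →ₗ[k] Module.End k V) (p q : W →ₗ[k] k) (v w : W) :
    F1 x₁ x₃ x₂ x₄ p q v w = LinearMap.trace k V (x₁ p * x₂ v * x₃ q * x₄ w) := rfl

theorem F2_apply (x₁ x₂ : (W →ₗ[k] k) →ₗ[k] Module.End k V)
    (x₃ x₄ : W →ₗ[k] Module.End k V) (p q : W →ₗ[k] k) (v w : W) :
    F2 x₁ x₂ x₃ x₄ p q v w = LinearMap.trace k V (x₁ p * x₂ q * x₃ v * x₄ w) := rfl

theorem F1_inv {ρ : Representation k H V} {σ : Representation k H W}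
    {x₁ x₃ : (W →ₗ[k] k) →ₗ[k] Module.End k V} {x₂ x₄ : W →ₗ[k] Module.End k V}
    (h₁ : EqD ρ σ x₁) (h₃ : EqD ρ σ x₃) (h₂ : EqW ρ σ x₂) (h₄ : EqW ρ σ x₄) (h : H) :
    Inv (F1 x₁ x₃ x₂ x₄) (σ h) := by
  intro p q v w
  rw [F1_apply, F1_apply, h₁.eq, h₃.eq, h₂.eq, h₄.eq]
  have e1 : ρ h⁻¹ * x₁ p * ρ h * x₂ v * (ρ h⁻¹ * x₃ q * ρ h) * x₄ w =
      ρ h⁻¹ * (x₁ p * ρ h * x₂ v * ρ h⁻¹ * x₃ q * ρ h * x₄ w) := by simp only [mul_assoc]
  rw [e1, LinearMap.trace_mul_comm]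
  congr 1

theorem F2_inv {ρ : Representation k H V} {σ : Representation k H W}
    {x₁ x₂ : (W →ₗ[k] k) →ₗ[k] Module.End k V} {x₃ x₄ : W →ₗ[k] Module.End k V}
    (h₁ : EqD ρ σ x₁) (h₂ : EqD ρ σ x₂) (h₃ : EqW ρ σ x₃) (h₄ : EqW ρ σ x₄) (h : H) :
    Inv (F2 x₁ x₂ x₃ x₄) (σ h) := by
  intro p q v w
  rw [F2_apply, F2_apply, h₁.eq, h₂.eq, h₃.eq, h₄.eq]
  have e1 : ρ h⁻¹ * x₁ p * ρ h * (ρ h⁻¹ * x₂ q * ρ h) * x₃ v * x₄ w =
      ρ h⁻¹ * (x₁ p * (ρ h * ρ h⁻¹) * x₂ q * ρ h * x₃ v * x₄ w) := by simp only [mul_assoc]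
  have e2 : x₁ p * x₂ q * (ρ h * x₃ v * ρ h⁻¹) * (ρ h * x₄ w * ρ h⁻¹) =
      x₁ p * x₂ q * ρ h * x₃ v * (ρ h⁻¹ * ρ h) * x₄ w * ρ h⁻¹ := by simp only [mul_assoc]
  rw [e1, e2, LinearMap.trace_mul_comm, rr', r'r, mul_one, mul_one]

theorem of_star [CharP k 2] {ι : Type} [Fintype ι] {σ : Representation k H W}
    (hS : Star (fun h => σ h)) (b : Basis ι k W) (F : F4 k W) (hF : ∀ h, Inv F (σ h)) :
    ∑ i, ∑ j, F (b.coord i) (b.coord j) (b i) (b j) =
      ∑ i, ∑ j, F (b.coord i) (b.coord j) (b j) (b i) := by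
  have h1 := hS ι b F hF
  unfold TR at h1
  simp only [LinearMap.id_apply, Finset.sum_add_distrib] at h1
  exact CharTwo.add_eq_zero.1 h1

theorem sp1 [CharP k 2] {ι : Type} [Fintype ι] {ρ : Representation k H V}
    {σ : Representation k H W} (hS : Star (fun h => σ h)) (b : Basis ι k W)
    {x₁ x₃ : (W →ₗ[k] k) →ₗ[k] Module.End k V} {x₂ x₄ : W →ₗ[k] Module.End k V}
    (h₁ : EqD ρ σ x₁) (h₂ : EqW ρ σ x₂) (h₃ : EqD ρ σ x₃) (h₄ : EqW ρ σ x₄) :
    ∑ i, ∑ j, LinearMap.trace k V (x₁ (b.coord i) * x₂ (b i) * x₃ (b.coord j) * x₄ (b j)) =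
      ∑ i, ∑ j, LinearMap.trace k V
        (x₁ (b.coord i) * x₂ (b j) * x₃ (b.coord j) * x₄ (b i)) :=
  of_star hS b (F1 x₁ x₃ x₂ x₄) (F1_inv h₁ h₃ h₂ h₄)

theorem sp2 [CharP k 2] {ι : Type} [Fintype ι] {ρ : Representation k H V}
    {σ : Representation k H W} (hS : Star (fun h => σ h)) (b : Basis ι k W)
    {x₁ x₂ : (W →ₗ[k] k) →ₗ[k] Module.End k V} {x₃ x₄ : W →ₗ[k] Module.End k V}
    (h₁ : EqD ρ σ x₁) (h₂ : EqD ρ σ x₂) (h₃ : EqW ρ σ x₃) (h₄ : EqW ρ σ x₄) :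
    ∑ i, ∑ j, LinearMap.trace k V (x₁ (b.coord i) * x₂ (b.coord j) * x₃ (b i) * x₄ (b j)) =
      ∑ i, ∑ j, LinearMap.trace k V
        (x₁ (b.coord i) * x₂ (b.coord j) * x₃ (b j) * x₄ (b i)) :=
  of_star hS b (F2 x₁ x₂ x₃ x₄) (F2_inv h₁ h₂ h₃ h₄)

end

end Pool.Ben69
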