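import Pool.Agent.Work.MP_26c40d_69.Base3

/-!
# MP_26c40d_al, part of block THR: a two-dimensional space on which an involution is not trivial (helper16)
-/

set_option autoImplicit false

namespace Pool.Ben69.THRa

open Module Pool.Benson Pool.Ben69

/-- an involution of a line in characteristic two is trivial. -/
theorem line {k W : Type} [Field k] [CharP k 2] [AddCommGroup W] [Module k W]
    [FiniteDimensional k W] (f : W →ₗ[k] W) (hf : f * f = 1) (U : Submodule k W)
    (hU : ∀ v ∈ U, f v ∈ U) (h1 : finrank k U = 1) : ∀ v ∈ U, f v = v := by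
  obtain ⟨u, hu0, hu⟩ := finrank_eq_one_iff'.1 h1
  obtain ⟨c, hc⟩ := hu ⟨f u, hU u u.2⟩
  have hc' : c • (u : W) = f u := congrArg Subtype.val hc
  have hu0' : (u : W) ≠ 0 := fun h => hu0 (Subtype.ext h)
  have h2 : (c * c) • (u : W) = (u : W) := by
    have h3 : f (f u) = u := congrArg (fun F : W →ₗ[k] W => F u) hf
    rw [← hc', map_smul, ← hc', smul_smul] at h3
    exact h3
  have h4 : c * c = 1 := by
    have h5 : (c * c - 1) • (u : W) = 0 := by rw [sub_smul, h2, one_smul, sub_self]
    rcases smul_eq_zero.1 h5 with h | h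
    · exact sub_eq_zero.1 h
    · exact absurd h hu0'
  have h6 : c = 1 := by
    have h7 : (c - 1) * (c - 1) = 0 := by
      have h8 : (2 : k) = 0 := CharP.cast_eq_zero k 2
      linear_combination h4 - (c - 1) * h8
    exact sub_eq_zero.1 (mul_self_eq_zero.1 h7)
  intro v hv
  obtain ⟨d, hd⟩ := hu ⟨v, hv⟩
  have hd' : d • (u : W) = v := congrArg Subtype.val hd
  rw [← hd', map_smul, ← hc', h6, one_smul]

theorem evp {k G W : Type} [Field k] [CharP k 2] [Group G] [AddCommGroup W] [Module k W]
    [FiniteDimensional k W] (σ : Representation k G W) (z : G) (hz : σ z * σ z = 1)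
    (E : Submodule k W) (hE : ∀ v ∈ E, σ z v ∈ E) (h2 : finrank k E = 2) (w : W) (hw : w ∈ E)
    (hw1 : σ z w ≠ w) : EvenPart (cyclicRestr σ z) E := by
  intro U U' hU hU' hinf hsup hind
  by_contra hodd
  rw [Nat.not_even_iff_odd] at hodd
  have hsum : finrank k U + finrank k U' = 2 := by
    have h := Submodule.finrank_sup_add_finrank_inf_eq U U'
    rw [hsup, hinf, finrank_bot, h2] at h
    omega
  have hU1 : finrank k U = 1 := by
    obtain ⟨j, hj⟩ := hodd
    omega
  have hU2 : finrank k U' = 1 := by omega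
  have hzU : ∀ V : Submodule k W, IsInv (cyclicRestr σ z) V → ∀ v ∈ V, σ z v ∈ V := by
    intro V hV v hv
    exact hV ⟨z, Subgroup.mem_zpowers z⟩ v hv
  have h3 := line (σ z) hz U (hzU U hU) hU1
  have h4 := line (σ z) hz U' (hzU U' hU') hU2
  apply hw1
  rw [← hsup] at hw
  obtain ⟨a, ha, b, hb, rfl⟩ := Submodule.mem_sup.1 hw
  rw [map_add, h3 a ha, h4 b hb]

end Pool.Ben69.THRa
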