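import Pool.Agent.Work.MP_26c40d_69.Base

/-!
# MP_26c40d_al, self-dual odd summands: traces of equivariant endomorphisms (helper69)
-/

set_option autoImplicit false

namespace Pool.Ben69

open Module Pool.Benson

section
variable {k G W : Type} [Field k] [Group G] [AddCommGroup W] [Module k W]

theorem com_app {σ : Representation k G W} {T : Module.End k W} (hT : ∀ g, T * σ g = σ g * T)
    (g : G) (w : W) : T (σ g w) = σ g (T w) := by
  have := congrArg (fun f => f w) (hT g)
  simpa using this

theorem com_pow {σ : Representation k G W} {T : Module.End k W} (hT : ∀ g, T * σ g = σ g * T)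
    (n : ℕ) (g : G) : T ^ n * σ g = σ g * T ^ n := by
  induction n with
  | zero => rw [pow_zero, one_mul, mul_one]
  | succ n ih => rw [pow_succ, mul_assoc, hT, ← mul_assoc, ih, mul_assoc]

/-- Fitting: an equivariant endomorphism of an indecomposable that is not injective is
nilpotent. -/
theorem nil_of_not_inj [FiniteDimensional k W] (σ : Representation k G W) (hσ : IsIndec σ)
    (T : Module.End k W) (hT : ∀ g, T * σ g = σ g * T) (hn : ¬ Function.Injective T) :
    IsNilpotent T := by
  have h1 := LinearMap.isCompl_iSup_ker_pow_iInf_range_pow T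
  have hK : IsInv σ (⨆ n, LinearMap.ker (T ^ n)) := by
    intro g v hv
    have hdir : Directed (· ≤ ·) fun n => LinearMap.ker (T ^ n) :=
      Monotone.directed_le fun a b h => by exact (LinearMap.iterateKer T).monotone h
    rw [Submodule.mem_iSup_of_directed _ hdir] at hv ⊢
    obtain ⟨n, hv⟩ := hv
    refine ⟨n, ?_⟩
    rw [LinearMap.mem_ker] at hv ⊢
    rw [com_app (com_pow hT n), hv, map_zero]
  have hR : IsInv σ (⨅ n, LinearMap.range (T ^ n)) := by
    intro g v hv
    rw [Submodule.mem_iInf] at hv ⊢
    intro n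
    obtain ⟨w, hw⟩ := hv n
    exact ⟨σ g w, by rw [com_app (com_pow hT n), hw]⟩
  rcases hσ.2 _ _ hK hR h1 with h2 | h2
  · exfalso
    apply hn
    rw [← LinearMap.ker_eq_bot, ← le_bot_iff, ← h2]
    have h3 : LinearMap.ker T = LinearMap.ker (T ^ 1) := by rw [pow_one]
    rw [h3]
    exact le_iSup (fun n => LinearMap.ker (T ^ n)) 1
  · obtain ⟨n, hn⟩ := LinearMap.eventually_iInf_range_pow_eq T |>.exists
    refine ⟨n, ?_⟩
    rw [← LinearMap.range_eq_bot, ← hn, h2]

/-- An equivariant endomorphism of an indecomposable is a scalar plus a nilpotent. -/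
theorem exists_scalar [IsAlgClosed k] [FiniteDimensional k W] (σ : Representation k G W)
    (hσ : IsIndec σ) (T : Module.End k W) (hT : ∀ g, T * σ g = σ g * T) :
    ∃ μ : k, IsNilpotent (T - μ • (1 : Module.End k W)) := by
  have : Nontrivial W := hσ.1
  obtain ⟨μ, hμ⟩ := Module.End.exists_eigenvalue T
  refine ⟨μ, nil_of_not_inj σ hσ _ (fun g => ?_) fun hinj => ?_⟩
  · rw [sub_mul, mul_sub, hT, smul_mul_assoc, mul_smul_comm, one_mul, mul_one]
  · obtain ⟨v, hv⟩ := hμ.exists_hasEigenvector
    apply hv.2
    apply hinj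
    rw [map_zero, LinearMap.sub_apply, LinearMap.smul_apply, Module.End.one_apply,
      hv.apply_eq_smul, sub_self]

theorem cast_odd [CharP k 2] {n : ℕ} (h : Odd n) : (n : k) = 1 := by
  obtain ⟨m, hm⟩ := h
  rw [hm]
  push_cast
  rw [CharTwo.two_eq_zero, zero_mul, zero_add]

theorem trace_of_nil [CharP k 2] [FiniteDimensional k W] (hodd : Odd (finrank k W))
    {T : Module.End k W} {μ : k} (h : IsNilpotent (T - μ • (1 : Module.End k W))) :
    LinearMap.trace k W T = μ := by
  have h1 := (LinearMap.isNilpotent_trace_of_isNilpotent h).eq_zero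
  rw [map_sub, map_smul, LinearMap.trace_one, cast_odd hodd, smul_eq_mul, mul_one,
    sub_eq_zero] at h1
  exact h1

theorem not_inj_of_nil [Nontrivial W] {T : Module.End k W} (h : IsNilpotent T) :
    ¬ Function.Injective T := by
  intro hinj
  obtain ⟨n, hn⟩ := h
  obtain ⟨w, hw⟩ := exists_ne (0 : W)
  apply hw
  have h1 : Function.Injective (T ^ n) := by
    rw [Module.End.coe_pow]
    exact hinj.iterate n
  apply h1
  rw [map_zero, hn, LinearMap.zero_apply]

theorem stmt_TRM : Stmt_TRM := by
  intro k G W _ _ _ _ _ _ _ σ hσ hodd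
  have : Nontrivial W := hσ.1
  constructor
  · intro T hT
    constructor
    · intro h0
      obtain ⟨μ, hμ⟩ := exists_scalar σ hσ T hT
      rw [trace_of_nil hodd hμ] at h0
      rw [h0, zero_smul, sub_zero] at hμ
      exact not_inj_of_nil hμ
    · intro hn
      exact (LinearMap.isNilpotent_trace_of_isNilpotent (nil_of_not_inj σ hσ T hT hn)).eq_zero
  · intro S T hS hT
    obtain ⟨μ, hμ⟩ := exists_scalar σ hσ T hT
    rw [trace_of_nil hodd hμ]
    have h1 : S * T = μ • S + S * (T - μ • (1 : Module.End k W)) := by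
      rw [mul_sub, mul_smul_comm, mul_one]
      abel
    have h2 : LinearMap.trace k W (S * (T - μ • (1 : Module.End k W))) = 0 := by
      refine (LinearMap.isNilpotent_trace_of_isNilpotent
        (nil_of_not_inj σ hσ _ (fun g => ?_) fun hinj => ?_)).eq_zero
      · have h3 : (T - μ • (1 : Module.End k W)) * σ g = σ g * (T - μ • (1 : Module.End k W)) := by
          rw [sub_mul, mul_sub, hT, smul_mul_assoc, mul_smul_comm, one_mul, mul_one]
        rw [mul_assoc, h3, ← mul_assoc, hS, mul_assoc]
      · refine not_inj_of_nil hμ fun x y hxy => hinj ?_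
        rw [Module.End.mul_apply, Module.End.mul_apply, hxy]
    rw [h1, map_add, map_smul, h2, add_zero, smul_eq_mul, mul_comm]

end

end Pool.Ben69
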